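import Mathlib

/-!
# Connected partitions of trees: a reduction to few types

Library for showing that a given tree has a connected partition of every type.

* Parts equal to `1` are free: a connected block with `p + 1` vertices splits into a connected
  block with `p` vertices and a single vertex (`Part_split_one`, `part_of_two_le`).
* If the vertices are numbered by `pos` and the interval `[L, R)` of numbers is connected
  whenever `c L R = true`, then a list of parts whose successive intervals all satisfy `c` gives a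
  connected partition (`part_of_good`).
* Two parts `k`, `p` can be merged in such a list if no interval of length `k + p` is bad for both
  orders (`Mergeable`), so only types without mergeable pairs have to be checked
  (`chk_sound`, `all_C`).
-/

namespace Pool.Agent.R10.CPETLib

open Finset

variable {V : Type*} [Fintype V] [DecidableEq V]

/-- `T` has a connected partition of type `m`: the vertex set can be partitioned into
blocks, each inducing a connected subgraph of `T`, whose sizes form the multiset `m`. -/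
def HasConnectedPartition (T : SimpleGraph V) (m : Multiset ℕ) : Prop :=
  ∃ P : Finpartition (Finset.univ : Finset V),
    (∀ B ∈ P.parts, (T.induce (B : Set V)).Connected) ∧
      P.parts.val.map Finset.card = m

/-- `T` is a CPET tree: a tree of maximum degree `4` with a connected partition of every type,
the types being the integer partitions of the number of vertices. -/
def IsCPET (T : SimpleGraph V) [DecidableRel T.Adj] : Prop :=
  T.IsTree ∧ T.maxDegree = 4 ∧
    ∀ q : Nat.Partition (Fintype.card V), HasConnectedPartition T q.parts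

omit [Fintype V] in
/-- `S` splits into connected blocks with sizes `m` -/
def Part (T : SimpleGraph V) (S : Finset V) (m : Multiset ℕ) : Prop :=
  ∃ P : Finset (Finset V), (∀ A ∈ P, ∀ B ∈ P, A ≠ B → Disjoint A B) ∧
    (∀ v, v ∈ S ↔ ∃ B ∈ P, v ∈ B) ∧
    (∀ B ∈ P, (T.induce (B : Set V)).Connected) ∧ P.val.map Finset.card = m

omit [Fintype V] in
lemma Part_empty (T : SimpleGraph V) : Part T ∅ 0 := ⟨∅, by simp, by simp, by simp, by simp⟩

omit [Fintype V] [DecidableEq V] in
lemma nonempty_of_conn {T : SimpleGraph V} {B : Finset V}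
    (hB : (T.induce (B : Set V)).Connected) : B.Nonempty := by
  obtain ⟨⟨x, hx⟩⟩ := hB.nonempty
  exact ⟨x, hx⟩

omit [Fintype V] in
lemma Part_insert {T : SimpleGraph V} {S B : Finset V} {m : Multiset ℕ} (h : Part T S m)
    (hB : (T.induce (B : Set V)).Connected) (hd : Disjoint B S) :
    Part T (B ∪ S) (B.card ::ₘ m) := by
  obtain ⟨P, h1, h2, h3, h4⟩ := h
  have hdis : ∀ A ∈ P, Disjoint B A := by
    intro A hA
    refine Finset.disjoint_of_subset_right ?_ hd
    intro v hv
    exact (h2 v).2 ⟨A, hA, hv⟩
  have hBP : B ∉ P := by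
    intro hmem
    have := hdis B hmem
    rw [disjoint_self] at this
    obtain ⟨x, hx⟩ := nonempty_of_conn hB
    rw [this] at hx
    simp at hx
  refine ⟨insert B P, ?_, ?_, ?_, ?_⟩
  · intro A hA C hC hne
    rw [mem_insert] at hA hC
    rcases hA with rfl | hA <;> rcases hC with rfl | hC
    · exact absurd rfl hne
    · exact hdis C hC
    · exact (hdis A hA).symm
    · exact h1 A hA C hC hne
  · intro v
    simp only [mem_union, mem_insert, exists_eq_or_imp, h2 v]
  · intro A hA
    rw [mem_insert] at hA
    rcases hA with rfl | hA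
    · exact hB
    · exact h3 A hA
  · rw [insert_val_of_notMem hBP, Multiset.map_cons, h4]

omit [Fintype V] in
lemma Part_erase {T : SimpleGraph V} {S : Finset V} {a : ℕ} {m : Multiset ℕ}
    (h : Part T S (a ::ₘ m)) :
    ∃ B : Finset V, B ⊆ S ∧ B.card = a ∧ (T.induce (B : Set V)).Connected ∧
      Part T (S \ B) m := by
  obtain ⟨P, h1, h2, h3, h4⟩ := h
  have : a ∈ P.val.map Finset.card := by rw [h4]; exact Multiset.mem_cons_self _ _
  obtain ⟨B, hB, hBa⟩ := Multiset.mem_map.1 this
  have hB' : B ∈ P := hB
  refine ⟨B, fun v hv => (h2 v).2 ⟨B, hB', hv⟩, hBa, h3 B hB', P.erase B, ?_, ?_, ?_, ?_⟩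
  · intro A hA C hC hne
    exact h1 A (mem_of_mem_erase hA) C (mem_of_mem_erase hC) hne
  · intro v
    rw [mem_sdiff, h2 v]
    constructor
    · rintro ⟨⟨C, hC, hv⟩, hvB⟩
      refine ⟨C, mem_erase.2 ⟨?_, hC⟩, hv⟩
      rintro rfl
      exact hvB hv
    · rintro ⟨C, hC, hv⟩
      refine ⟨⟨C, mem_of_mem_erase hC, hv⟩, ?_⟩
      intro hvB
      exact disjoint_left.1 (h1 C (mem_of_mem_erase hC) B hB' (ne_of_mem_erase hC)) hv hvB
  · intro C hC
    exact h3 C (mem_of_mem_erase hC)
  · have e : P.val.map Finset.card = a ::ₘ (P.erase B).val.map Finset.card := by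
      conv_lhs => rw [← insert_erase hB']
      rw [insert_val_of_notMem (notMem_erase B P), Multiset.map_cons, hBa]
    rw [e] at h4
    exact (Multiset.cons_inj_right a).1 h4

omit [Fintype V] in
/-- a connected block with at least two vertices loses a vertex and stays connected -/
lemma exists_erase_conn {T : SimpleGraph V} {B : Finset V}
    (hB : (T.induce (B : Set V)).Connected) (hc : 2 ≤ B.card) :
    ∃ v ∈ B, (T.induce ((B.erase v : Finset V) : Set V)).Connected := by
  have hnt : Nontrivial (B : Set V) := by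
    obtain ⟨x, hx, y, hy, hxy⟩ := one_lt_card.1 (by omega : 1 < B.card)
    exact ⟨⟨x, hx⟩, ⟨y, hy⟩, fun h => hxy (congrArg Subtype.val h)⟩
  have hfin : Finite (B : Set V) := by
    exact B.finite_toSet
  obtain ⟨v, hv⟩ := hB.exists_connected_induce_compl_singleton_of_finite_nontrivial
  refine ⟨v.1, v.2, ?_⟩
  let f : ((T.induce (B : Set V)).induce ({v}ᶜ : Set (B : Set V))) →g
      T.induce ((B.erase v.1 : Finset V) : Set V) :=
    { toFun := fun x => ⟨x.1.1, by
        have h1 := x.1.2
        have h2 := x.2
        simp only [Set.mem_compl_iff, Set.mem_singleton_iff] at h2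
        simp only [coe_erase, Set.mem_diff, Set.mem_singleton_iff]
        exact ⟨h1, fun h => h2 (Subtype.ext h)⟩⟩
      map_rel' := fun {a b} h => h }
  refine hv.map f ?_
  rintro ⟨x, hx⟩
  simp only [coe_erase, Set.mem_diff, Set.mem_singleton_iff] at hx
  refine ⟨⟨⟨x, hx.1⟩, ?_⟩, rfl⟩
  simp only [Set.mem_compl_iff, Set.mem_singleton_iff]
  intro h
  exact hx.2 (congrArg Subtype.val h)

omit [Fintype V] in
lemma conn_singleton (T : SimpleGraph V) (v : V) :
    (T.induce (({v} : Finset V) : Set V)).Connected := by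
  rw [SimpleGraph.connected_iff_exists_forall_reachable]
  refine ⟨⟨v, by simp⟩, ?_⟩
  rintro ⟨w, hw⟩
  have : w = v := by simpa using hw
  subst this
  exact SimpleGraph.Reachable.refl _

omit [Fintype V] in
lemma Part_split_one {T : SimpleGraph V} {S : Finset V} {p : ℕ} {m : Multiset ℕ}
    (h : Part T S ((p + 1) ::ₘ m)) (hp : 1 ≤ p) : Part T S (1 ::ₘ p ::ₘ m) := by
  obtain ⟨B, hBS, hBc, hB, hrest⟩ := Part_erase h
  obtain ⟨v, hv, hBv⟩ := exists_erase_conn hB (by omega)
  have h1 := Part_insert hrest hBv (by
    rw [disjoint_left]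
    intro x hx hx'
    exact (mem_sdiff.1 hx').2 (mem_of_mem_erase hx))
  have h2 := Part_insert h1 (conn_singleton T v) (by
    rw [disjoint_left]
    intro x hx hx'
    rw [mem_singleton] at hx
    subst hx
    rw [mem_union] at hx'
    rcases hx' with hx' | hx'
    · simp at hx'
    · exact (mem_sdiff.1 hx').2 hv)
  rw [card_erase_of_mem hv, hBc, card_singleton, Nat.add_sub_cancel] at h2
  have e : {v} ∪ (B.erase v ∪ S \ B) = S := by
    ext x
    simp only [mem_union, mem_singleton, mem_erase, mem_sdiff]
    constructor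
    · rintro (rfl | ⟨-, h⟩ | ⟨h, -⟩)
      · exact hBS hv
      · exact hBS h
      · exact h
    · intro hx
      by_cases hxv : x = v
      · exact Or.inl hxv
      · by_cases hxB : x ∈ B
        · exact Or.inr (Or.inl ⟨hxv, hxB⟩)
        · exact Or.inr (Or.inr ⟨hx, hxB⟩)
  rwa [e] at h2

omit [Fintype V] in
/-- Types without parts equal to `1` suffice. -/
lemma part_of_two_le {T : SimpleGraph V} {S : Finset V} {n : ℕ} (hn : 2 ≤ n)
    (H : ∀ s : Multiset ℕ, (∀ x ∈ s, 2 ≤ x) → s.sum = n → Part T S s) :
    ∀ (k : ℕ) (s : Multiset ℕ), s.card = k → (∀ x ∈ s, 1 ≤ x) → s.sum = n → Part T S s := by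
  intro k
  induction k using Nat.strong_induction_on with
  | _ k ih =>
    intro s hk hs hsum
    by_cases h1 : 1 ∈ s
    · obtain ⟨t, rfl⟩ := Multiset.exists_cons_of_mem h1
      have ht : t ≠ 0 := by
        rintro rfl
        simp at hsum
        omega
      obtain ⟨p, hp⟩ := Multiset.exists_mem_of_ne_zero ht
      obtain ⟨u, rfl⟩ := Multiset.exists_cons_of_mem hp
      have hp1 : 1 ≤ p := hs p (by simp)
      refine Part_split_one ?_ hp1
      rw [Multiset.card_cons, Multiset.card_cons] at hk
      refine ih (k - 1) (by omega) _ (by rw [Multiset.card_cons]; omega) ?_ ?_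
      · intro x hx
        rw [Multiset.mem_cons] at hx
        rcases hx with rfl | hx
        · omega
        · exact hs x (by simp [hx])
      · simp only [Multiset.sum_cons] at hsum ⊢
        omega
    · refine H s (fun x hx => ?_) hsum
      have := hs x hx
      have h2 : x ≠ 1 := by rintro rfl; exact h1 hx
      omega

lemma Part.toHas {T : SimpleGraph V} {m : Multiset ℕ} (h : Part T univ m) :
    HasConnectedPartition T m := by
  obtain ⟨P, h1, h2, h3, h4⟩ := h
  refine ⟨⟨P, ?_, ?_, ?_⟩, h3, h4⟩
  · rw [Finset.supIndep_iff_pairwiseDisjoint]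
    intro A hA B hB hne
    exact h1 A hA B hB hne
  · ext v
    simp only [mem_sup, id, mem_univ, iff_true]
    exact (h2 v).1 (mem_univ v)
  · intro hbot
    have := nonempty_of_conn (h3 _ hbot)
    simp at this

/-! ### Lists of parts along a numbering of the vertices -/

/-- the successive intervals of the list, starting at `L`, all satisfy `c` -/
def Good (c : ℕ → ℕ → Bool) : ℕ → List ℕ → Prop
  | _, [] => True
  | L, x :: l => c L (L + x) = true ∧ Good c (L + x) l

/-- `Good` as a boolean -/
def good (c : ℕ → ℕ → Bool) : ℕ → List ℕ → Bool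
  | _, [] => true
  | L, x :: l => c L (L + x) && good c (L + x) l

lemma good_iff (c : ℕ → ℕ → Bool) (l : List ℕ) : ∀ L, good c L l = true ↔ Good c L l := by
  induction l with
  | nil => intro L; simp [good, Good]
  | cons x l ih => intro L; simp [good, Good, ih]

/-- the numbering `pos` with parents `par` realises the rule `c` -/
structure Realises (T : SimpleGraph V) (c : ℕ → ℕ → Bool) (n : ℕ) (vert : ℕ → V) (pos : V → ℕ)
    (par : V → V) : Prop where
  vert_pos : ∀ v, vert (pos v) = v
  pos_vert : ∀ i, i < n → pos (vert i) = i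
  pos_lt : ∀ v, pos v < n
  adj : ∀ v, 0 < pos v → T.Adj v (par v) ∧ pos (par v) < pos v
  conn : ∀ L R, c L R = true → ∀ v, L < pos v → pos v < R → L ≤ pos (par v)

/-- the vertices with numbers in `[L, R)` -/
def J (pos : V → ℕ) (L R : ℕ) : Finset V := univ.filter (fun v => L ≤ pos v ∧ pos v < R)

lemma mem_J {pos : V → ℕ} {L R : ℕ} {v : V} : v ∈ J pos L R ↔ L ≤ pos v ∧ pos v < R := by
  simp [J]

variable {T : SimpleGraph V} {c : ℕ → ℕ → Bool} {n : ℕ} {vert : ℕ → V} {pos : V → ℕ}
  {par : V → V}

lemma Realises.card_J (h : Realises T c n vert pos par) {L R : ℕ} (hR : R ≤ n) :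
    (J pos L R).card = R - L := by
  rw [← Nat.card_Ico]
  refine card_bij' (fun v _ => pos v) (fun i _ => vert i) ?_ ?_ ?_ ?_
  · intro v hv
    rw [mem_J] at hv
    rw [mem_Ico]
    exact hv
  · intro i hi
    rw [mem_Ico] at hi
    rw [mem_J, h.pos_vert i (by omega)]
    exact hi
  · intro v _
    exact h.vert_pos v
  · intro i hi
    rw [mem_Ico] at hi
    exact h.pos_vert i (by omega)

lemma Realises.conn_J (h : Realises T c n vert pos par) {L R : ℕ} (hLR : L < R) (hR : R ≤ n)
    (hc : c L R = true) : (T.induce (J pos L R : Set V)).Connected := by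
  rw [SimpleGraph.connected_iff_exists_forall_reachable]
  have hr : vert L ∈ J pos L R := by
    rw [mem_J, h.pos_vert L (by omega)]
    exact ⟨le_rfl, hLR⟩
  refine ⟨⟨vert L, hr⟩, ?_⟩
  have key : ∀ (k : ℕ) (v : V) (hv : v ∈ J pos L R), pos v = k →
      (T.induce (J pos L R : Set V)).Reachable ⟨vert L, hr⟩ ⟨v, hv⟩ := by
    intro k
    induction k using Nat.strong_induction_on with
    | _ k ih =>
      intro v hv hk
      have hv' := mem_J.1 hv
      rcases Nat.eq_or_lt_of_le hv'.1 with hE | hlt
      · have : v = vert L := by rw [hE]; exact (h.vert_pos v).symm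
        subst this
        exact SimpleGraph.Reachable.refl _
      · obtain ⟨hadj, hpp⟩ := h.adj v (by omega)
        have h2 := h.conn L R hc v hlt hv'.2
        have hm : par v ∈ J pos L R := mem_J.2 ⟨h2, by omega⟩
        have h1 := ih (pos (par v)) (by omega) (par v) hm rfl
        refine h1.trans (SimpleGraph.Adj.reachable ?_)
        exact hadj.symm
  rintro ⟨v, hv⟩
  exact key _ v hv rfl

lemma Realises.part (h : Realises T c n vert pos par) (l : List ℕ) :
    ∀ L : ℕ, (∀ x ∈ l, 1 ≤ x) → L + l.sum = n → Good c L l → Part T (J pos L n) (l : Multiset ℕ) := by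
  induction l with
  | nil =>
    intro L _ hs _
    have : J pos L n = ∅ := by
      ext v
      simp only [mem_J, notMem_empty, iff_false]
      have := h.pos_lt v
      simp only [List.sum_nil, add_zero] at hs
      omega
    rw [this]
    exact Part_empty T
  | cons x l ih =>
    intro L hpos hs hg
    rw [List.sum_cons] at hs
    have hx : 1 ≤ x := hpos x (by simp)
    have h1 := ih (L + x) (fun y hy => hpos y (by simp [hy])) (by omega) hg.2
    have h2 := Part_insert h1 (h.conn_J (L := L) (R := L + x) (by omega) (by omega) hg.1) (by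
      rw [disjoint_left]
      intro v hv hv'
      rw [mem_J] at hv hv'
      omega)
    rw [h.card_J (by omega), show L + x - L = x by omega] at h2
    have e : J pos L (L + x) ∪ J pos (L + x) n = J pos L n := by
      ext v
      simp only [mem_union, mem_J]
      omega
    rw [e] at h2
    exact h2

lemma Realises.part_univ (h : Realises T c n vert pos par) (l : List ℕ)
    (hp : ∀ x ∈ l, 1 ≤ x) (hs : l.sum = n) (hg : Good c 0 l) :
    Part T univ (l : Multiset ℕ) := by
  have := h.part l 0 hp (by omega) hg
  have e : J pos 0 n = univ := by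
    ext v
    simp only [mem_J, mem_univ, iff_true]
    exact ⟨Nat.zero_le _, h.pos_lt v⟩
  rwa [e] at this

/-! ### Merging parts -/

/-- an interval of length `k + p` can be cut into intervals of lengths `k` and `p`, in one of the
two orders -/
def Mergeable (c : ℕ → ℕ → Bool) (k p : ℕ) : Prop :=
  ∀ L, c L (L + (k + p)) = true →
    (c L (L + k) = true ∧ c (L + k) (L + k + p) = true) ∨
      (c L (L + p) = true ∧ c (L + p) (L + p + k) = true)

lemma Good_append (c : ℕ → ℕ → Bool) (l1 l2 : List ℕ) :
    ∀ L, Good c L (l1 ++ l2) ↔ Good c L l1 ∧ Good c (L + l1.sum) l2 := by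
  induction l1 with
  | nil => intro L; simp [Good]
  | cons x l1 ih => intro L; simp [Good, ih, and_assoc, add_assoc]

lemma Good_split {c : ℕ → ℕ → Bool} {k p : ℕ} (hm : Mergeable c k p) {l1 l2 : List ℕ}
    (h : Good c 0 (l1 ++ (k + p) :: l2)) :
    ∃ l : List ℕ, (l : Multiset ℕ) = k ::ₘ p ::ₘ ((l1 ++ l2 : List ℕ) : Multiset ℕ) ∧
      Good c 0 l := by
  rw [Good_append] at h
  obtain ⟨h1, h2, h3⟩ := h
  rcases hm _ h2 with ⟨h4, h5⟩ | ⟨h4, h5⟩
  · refine ⟨l1 ++ k :: p :: l2, ?_, ?_⟩
    · rw [← Multiset.coe_add, ← Multiset.cons_coe, ← Multiset.cons_coe, ← Multiset.coe_add,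
        Multiset.add_cons, Multiset.add_cons]
    · rw [Good_append]
      refine ⟨h1, h4, h5, ?_⟩
      rwa [add_assoc (0 + l1.sum)]
  · refine ⟨l1 ++ p :: k :: l2, ?_, ?_⟩
    · rw [← Multiset.coe_add, ← Multiset.cons_coe, ← Multiset.cons_coe, ← Multiset.coe_add,
        Multiset.add_cons, Multiset.add_cons, Multiset.cons_swap]
    · rw [Good_append]
      refine ⟨h1, h4, h5, ?_⟩
      rwa [add_assoc (0 + l1.sum), add_comm p k]

/-- the type can be arranged in a list that is good for one of the two rules -/
def C (c1 c2 : ℕ → ℕ → Bool) (s : Multiset ℕ) : Prop :=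
  ∃ l : List ℕ, (l : Multiset ℕ) = s ∧ (Good c1 0 l ∨ Good c2 0 l)

lemma C_merge {c1 c2 : ℕ → ℕ → Bool} {k p : ℕ} (h1 : Mergeable c1 k p) (h2 : Mergeable c2 k p)
    {s : Multiset ℕ} (h : C c1 c2 ((k + p) ::ₘ s)) : C c1 c2 (k ::ₘ p ::ₘ s) := by
  obtain ⟨l, hl, hg⟩ := h
  have hmem : k + p ∈ l := by
    rw [← Multiset.mem_coe, hl]
    exact Multiset.mem_cons_self _ _
  obtain ⟨l1, l2, rfl⟩ := List.append_of_mem hmem
  have e : ((l1 ++ l2 : List ℕ) : Multiset ℕ) = s := by
    rw [← Multiset.coe_add, ← Multiset.cons_coe, Multiset.add_cons] at hl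
    rw [← Multiset.coe_add]
    exact (Multiset.cons_inj_right _).1 hl
  rcases hg with hg | hg
  · obtain ⟨l, h3, h4⟩ := Good_split h1 hg
    exact ⟨l, by rw [h3, e], Or.inl h4⟩
  · obtain ⟨l, h3, h4⟩ := Good_split h2 hg
    exact ⟨l, by rw [h3, e], Or.inr h4⟩

/-- check all types extending `acc` by parts of size at least `mn` with sum `rem`, except those
that contain a pair of parts for which `gp` holds -/
def chk (gp : ℕ → ℕ → Bool) (leaf : List ℕ → Bool) : ℕ → ℕ → ℕ → List ℕ → Bool
  | 0, _, _, _ => false
  | f + 1, rem, mn, acc =>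
    match rem with
    | 0 => leaf acc
    | r + 1 =>
      if Nat.ble mn (r + 1) then
        (acc.any (gp mn) || chk gp leaf f (r + 1 - mn) mn (mn :: acc)) &&
          chk gp leaf f (r + 1) (mn + 1) acc
      else true

/-- the multiset contains a pair of parts for which `gp` holds -/
def HasPair (gp : ℕ → ℕ → Bool) (s : Multiset ℕ) : Prop :=
  ∃ k p : ℕ, ∃ t : Multiset ℕ, s = k ::ₘ p ::ₘ t ∧ gp k p = true

lemma chk_sound {c1 c2 : ℕ → ℕ → Bool} {gp : ℕ → ℕ → Bool} {leaf : List ℕ → Bool}
    (hleaf : ∀ l, leaf l = true → C c1 c2 (l : Multiset ℕ)) :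
    ∀ (f rem mn : ℕ) (acc : List ℕ), chk gp leaf f rem mn acc = true → 1 ≤ mn →
    ∀ s : Multiset ℕ, (∀ x ∈ s, mn ≤ x) → s.sum = rem →
      HasPair gp (s + (acc : Multiset ℕ)) ∨ C c1 c2 (s + (acc : Multiset ℕ)) := by
  intro f
  induction f with
  | zero => intro rem mn acc h; simp [chk] at h
  | succ f ih =>
    intro rem mn acc h hmn s hs hsum
    rcases rem with _ | r
    · replace h : leaf acc = true := h
      have : s = 0 := by
        by_contra hne
        obtain ⟨x, hx⟩ := Multiset.exists_mem_of_ne_zero hne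
        have h1 := hs x hx
        have h2 := Multiset.single_le_sum (fun _ _ => Nat.zero_le _) x hx
        omega
      subst this
      rw [zero_add]
      exact Or.inr (hleaf acc h)
    · replace h : (if Nat.ble mn (r + 1) then
        (acc.any (gp mn) || chk gp leaf f (r + 1 - mn) mn (mn :: acc)) &&
          chk gp leaf f (r + 1) (mn + 1) acc
        else true) = true := h
      by_cases hle : Nat.ble mn (r + 1) = true
      · rw [if_pos hle] at h
        rw [Bool.and_eq_true, Bool.or_eq_true] at h
        rw [Nat.ble_eq] at hle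
        by_cases hm : mn ∈ s
        · obtain ⟨t, rfl⟩ := Multiset.exists_cons_of_mem hm
          rcases h.1 with hany | hch
          · left
            rw [List.any_eq_true] at hany
            obtain ⟨p, hp, hgp⟩ := hany
            obtain ⟨u, hu⟩ := Multiset.exists_cons_of_mem
              (show p ∈ (acc : Multiset ℕ) from Multiset.mem_coe.2 hp)
            refine ⟨mn, p, t + u, ?_, hgp⟩
            rw [hu, Multiset.add_cons, Multiset.cons_add, Multiset.cons_swap]
          · have := ih _ _ _ hch hmn t (fun x hx => hs x (Multiset.mem_cons_of_mem hx)) (by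
              rw [Multiset.sum_cons] at hsum; omega)
            rw [← Multiset.cons_coe] at this
            rwa [Multiset.cons_add, ← Multiset.add_cons]
        · exact ih _ _ _ h.2 (by omega) s (fun x hx => by
            have h1 := hs x hx
            have h2 : x ≠ mn := by rintro rfl; exact hm hx
            omega) hsum
      · exfalso
        rw [Nat.ble_eq] at hle
        have hne : s ≠ 0 := by rintro rfl; simp at hsum
        obtain ⟨x, hx⟩ := Multiset.exists_mem_of_ne_zero hne
        have h1 := hs x hx
        have h2 := Multiset.single_le_sum (fun _ _ => Nat.zero_le _) x hx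
        omega

/-- All types with parts at least `2` can be arranged, if those without a pair in `gp` can. -/
lemma all_C {c1 c2 : ℕ → ℕ → Bool} {gp : ℕ → ℕ → Bool} {leaf : List ℕ → Bool}
    (hleaf : ∀ l, leaf l = true → C c1 c2 (l : Multiset ℕ))
    (hgp : ∀ k p, 2 ≤ k → 2 ≤ p → gp k p = true → Mergeable c1 k p ∧ Mergeable c2 k p)
    {f n : ℕ} (hchk : chk gp leaf f n 2 [] = true) :
    ∀ (k : ℕ) (s : Multiset ℕ), s.card = k → (∀ x ∈ s, 2 ≤ x) → s.sum = n → C c1 c2 s := by
  intro k
  induction k using Nat.strong_induction_on with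
  | _ k ih =>
    intro s hk hs hsum
    have := chk_sound hleaf f n 2 [] hchk (by norm_num) s hs hsum
    rw [show ((([] : List ℕ) : Multiset ℕ)) = 0 from rfl, add_zero] at this
    rcases this with ⟨a, b, t, rfl, hab⟩ | h
    · have ha : 2 ≤ a := hs a (by simp)
      have hb : 2 ≤ b := hs b (by simp)
      obtain ⟨h1, h2⟩ := hgp a b ha hb hab
      refine C_merge h1 h2 (ih (k - 1) ?_ _ ?_ ?_ ?_)
      · rw [Multiset.card_cons] at hk; omega
      · rw [Multiset.card_cons, Multiset.card_cons] at hk
        rw [Multiset.card_cons]; omega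
      · intro x hx
        rw [Multiset.mem_cons] at hx
        rcases hx with rfl | hx
        · omega
        · exact hs x (by simp [hx])
      · simp only [Multiset.sum_cons] at hsum ⊢
        omega
    · exact h

/-! ### Searching for an arrangement -/

/-- the distinct entries of a list in which equal entries are adjacent -/
def dist : List ℕ → List ℕ
  | [] => []
  | [x] => [x]
  | x :: y :: l => if Nat.beq x y then dist (y :: l) else x :: dist (y :: l)

/-- erase one entry -/
def er (x : ℕ) : List ℕ → List ℕ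
  | [] => []
  | y :: l => if Nat.beq x y then l else y :: er x l

/-- depth first search with a stack of partial arrangements; at most `f` steps -/
def srch (c : ℕ → ℕ → Bool) : ℕ → List (ℕ × List ℕ × List ℕ) → List ℕ
  | 0, _ => []
  | _ + 1, [] => []
  | f + 1, (L, rest, path) :: st =>
    match rest with
    | [] => path
    | r :: rs =>
      srch c f (((dist (r :: rs)).filterMap (fun x =>
        if c L (L + x) then some (L + x, er x (r :: rs), x :: path) else none)) ++ st)

/-- check an arrangement (given in reversed order) of the parts in `acc` -/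
def ver (c : ℕ → ℕ → Bool) (acc path : List ℕ) : Bool :=
  path.isPerm acc && good c 0 path.reverse

lemma ver_sound {c : ℕ → ℕ → Bool} {acc path : List ℕ} (h : ver c acc path = true) :
    ∃ l : List ℕ, (l : Multiset ℕ) = (acc : Multiset ℕ) ∧ Good c 0 l := by
  rw [ver, Bool.and_eq_true, List.isPerm_iff, good_iff] at h
  refine ⟨path.reverse, ?_, h.2⟩
  rw [Multiset.coe_eq_coe]
  exact (List.reverse_perm path).trans h.1

/-- the test of a complete type: search with few steps in both rules and both orders -/
def leafTest (c1 c2 : ℕ → ℕ → Bool) (b : ℕ) (acc : List ℕ) : Bool :=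
  ver c1 acc (srch c1 b [(0, acc, [])]) || (ver c1 acc (srch c1 b [(0, acc.reverse, [])]) ||
    (ver c2 acc (srch c2 b [(0, acc, [])]) || ver c2 acc (srch c2 b [(0, acc.reverse, [])])))

lemma leafTest_sound {c1 c2 : ℕ → ℕ → Bool} {b : ℕ} (l : List ℕ)
    (h : leafTest c1 c2 b l = true) : C c1 c2 (l : Multiset ℕ) := by
  rw [leafTest, Bool.or_eq_true, Bool.or_eq_true, Bool.or_eq_true] at h
  rcases h with h | h | h | h
  · obtain ⟨l', h1, h2⟩ := ver_sound h
    exact ⟨l', h1, Or.inl h2⟩
  · obtain ⟨l', h1, h2⟩ := ver_sound h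
    exact ⟨l', h1, Or.inl h2⟩
  · obtain ⟨l', h1, h2⟩ := ver_sound h
    exact ⟨l', h1, Or.inr h2⟩
  · obtain ⟨l', h1, h2⟩ := ver_sound h
    exact ⟨l', h1, Or.inr h2⟩

/-- The main criterion. -/
theorem has_of_check {T : SimpleGraph V} {c1 c2 : ℕ → ℕ → Bool} {n : ℕ}
    {vert1 vert2 : ℕ → V} {pos1 pos2 : V → ℕ} {par1 par2 : V → V}
    (h1 : Realises T c1 n vert1 pos1 par1) (h2 : Realises T c2 n vert2 pos2 par2)
    (hn : 2 ≤ n) {gp : ℕ → ℕ → Bool} {b f : ℕ}
    (hgp : ∀ k p, 2 ≤ k → 2 ≤ p → gp k p = true → Mergeable c1 k p ∧ Mergeable c2 k p)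
    (hchk : chk gp (leafTest c1 c2 b) f n 2 [] = true) (s : Multiset ℕ)
    (hs : ∀ x ∈ s, 1 ≤ x) (hsum : s.sum = n) : HasConnectedPartition T s := by
  refine Part.toHas (part_of_two_le hn ?_ s.card s rfl hs hsum)
  intro s hs hsum
  obtain ⟨l, rfl, hl⟩ := all_C (fun l h => leafTest_sound l h) hgp hchk s.card s rfl hs hsum
  have hpos : ∀ x ∈ l, 1 ≤ x := fun x hx => by
    have := hs x (Multiset.mem_coe.2 hx); omega
  rw [Multiset.sum_coe] at hsum
  rcases hl with hl | hl
  · exact h1.part_univ l hpos hsum hl
  · exact h2.part_univ l hpos hsum hl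

/-- The tree criterion: the graph is a tree. -/
lemma Realises.connected (h : Realises T c n vert pos par) (hn : 0 < n) (hc : c 0 n = true) :
    T.Connected := by
  have h1 := h.conn_J (L := 0) (R := n) hn le_rfl hc
  have e : J pos 0 n = univ := by
    ext v
    simp only [mem_J, mem_univ, iff_true]
    exact ⟨Nat.zero_le _, h.pos_lt v⟩
  rw [e, coe_univ] at h1
  exact (SimpleGraph.induceUnivIso T).connected_iff.mp h1

end Pool.Agent.R10.CPETLib
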