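import Mathlib

/-!
# The chromatic symmetric function of a tree and one coefficient in the elementary basis

`csf T N` is the chromatic symmetric polynomial of `T` in `N` variables, `eCoeff T N μ` the
coefficient of `e_μ` in it.  The coefficient of `e_(3,2^k)` is computed by evaluating at
`(y, -y-ε, ε, 0, 0, …)` with `ε ^ 2 = 0` (`eCoeff_eq`), and for a tree given by a parent function
the evaluation is a finite recursion with integer pairs (`run`).
-/

namespace Pool.Agent.R10.CSF

open Finset MvPolynomial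

section Defs

variable {V : Type*} [Fintype V] [DecidableEq V]

/-- The chromatic symmetric function of `T` in `N` variables: the sum over all proper colourings
`κ` of the vertices with `N` colours of the monomial `∏ v, x_(κ v)`. -/
noncomputable def csf (T : SimpleGraph V) [DecidableRel T.Adj] (N : ℕ) :
    MvPolynomial (Fin N) ℚ :=
  ∑ κ ∈ (univ : Finset (V → Fin N)).filter (fun κ => ∀ u v, T.Adj u v → κ u ≠ κ v),
    ∏ v, X (κ v)

lemma csf_isSymmetric (T : SimpleGraph V) [DecidableRel T.Adj] (N : ℕ) :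
    (csf T N).IsSymmetric := by
  intro e
  rw [csf, map_sum]
  refine Finset.sum_bij' (fun κ _ => fun v => e (κ v)) (fun κ _ => fun v => e.symm (κ v))
    ?_ ?_ ?_ ?_ ?_
  · intro κ hκ
    rw [mem_filter] at hκ ⊢
    refine ⟨mem_univ _, fun u v h h' => hκ.2 u v h (e.injective h')⟩
  · intro κ hκ
    rw [mem_filter] at hκ ⊢
    refine ⟨mem_univ _, fun u v h h' => hκ.2 u v h (e.symm.injective h')⟩
  · intro κ _; funext v; simp
  · intro κ _; funext v; simp
  · intro κ _
    rw [map_prod]
    simp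

/-- The coefficient of `e_μ = ∏ e_(μ_i)` in the chromatic symmetric function of `T` in `N`
variables: `csf T N` is `p (e_1, …, e_N)` for a unique polynomial `p` (the inverse image of
`csf T N` under Mathlib's isomorphism `esymmAlgEquiv`), and `eCoeff T N μ` is the coefficient in
`p` of the monomial in which the variable standing for `e_i` has as exponent the number of parts
of `μ` equal to `i`. -/
noncomputable def eCoeff (T : SimpleGraph V) [DecidableRel T.Adj] (N : ℕ) {n : ℕ}
    (μ : Nat.Partition n) : ℚ :=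
  coeff (Finsupp.equivFunOnFinite.symm (fun i : Fin N => μ.parts.count ((i : ℕ) + 1)))
    ((esymmAlgEquiv (Fin N) ℚ (Fintype.card_fin N)).symm ⟨csf T N, csf_isSymmetric T N⟩)

end Defs

/-! ### The evaluation point -/

/-- the ring `ℚ[ε][y]` with `ε ^ 2 = 0` -/
abbrev D := Polynomial (DualNumber ℚ)

/-- `ε` -/
noncomputable def ep : D := Polynomial.C DualNumber.eps

lemma ep_mul_ep : ep * ep = 0 := by
  rw [ep, ← Polynomial.C_mul, DualNumber.eps_mul_eps, map_zero]

/-- `y` -/
noncomputable def yy : D := Polynomial.X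

/-- three values -/
noncomputable def x3 : Fin 3 → D := ![yy, -yy - ep, ep]

/-- the evaluation point -/
noncomputable def pt (M : ℕ) : Fin (M + 3) → D :=
  Fin.cons yy (Fin.cons (-yy - ep) (Fin.cons ep (fun _ : Fin M => 0)))

lemma esymm_cons {R : Type*} [CommSemiring R] (a : R) (s : Multiset R) (n : ℕ) :
    (a ::ₘ s).esymm (n + 1) = s.esymm (n + 1) + a * s.esymm n := by
  rw [Multiset.esymm, Multiset.powersetCard_cons, Multiset.map_add, Multiset.sum_add,
    Multiset.map_map]
  congr 1
  rw [Multiset.esymm, ← Multiset.sum_map_mul_left]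
  congr 1
  rw [Multiset.map_congr rfl]
  intro t _
  simp

lemma esymm_zero' {R : Type*} [CommSemiring R] (s : Multiset R) : s.esymm 0 = 1 := by
  simp [Multiset.esymm]

lemma esymm_replicate_zero {R : Type*} [CommSemiring R] (M n : ℕ) :
    (Multiset.replicate M (0 : R)).esymm (n + 1) = 0 := by
  induction M generalizing n with
  | zero => simp [Multiset.esymm, Multiset.powersetCard_zero_right]
  | succ M ih => rw [Multiset.replicate_succ, esymm_cons, ih, zero_mul, add_zero]

lemma pt_val (M : ℕ) : (univ : Finset (Fin (M + 3))).val.map (pt M) =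
    yy ::ₘ (-yy - ep) ::ₘ ep ::ₘ Multiset.replicate M 0 := by
  rw [Fin.univ_val_map]
  simp only [pt, List.ofFn_succ, List.ofFn_const, Fin.cons_zero, Fin.cons_succ]
  rfl

lemma pt_esymm (M n : ℕ) : ((univ : Finset (Fin (M + 3))).val.map (pt M)).esymm (n + 1) =
    if n = 0 then 0 else if n = 1 then -(yy * yy + yy * ep) else if n = 2 then -(yy * yy * ep)
    else 0 := by
  rw [pt_val]
  have h0 : ∀ n, (ep ::ₘ Multiset.replicate M (0 : D)).esymm (n + 1) =
      if n = 0 then ep else 0 := by
    intro n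
    rw [esymm_cons, esymm_replicate_zero, zero_add]
    rcases n with _ | n
    · simp [esymm_zero']
    · simp [esymm_replicate_zero]
  have h1 : ∀ n, ((-yy - ep) ::ₘ ep ::ₘ Multiset.replicate M (0 : D)).esymm (n + 1) =
      if n = 0 then -yy else if n = 1 then -(yy * ep) else 0 := by
    intro n
    rw [esymm_cons, h0]
    rcases n with _ | n
    · simp [esymm_zero']
    · rw [h0]
      rcases n with _ | n
      · simp only [zero_add, one_ne_zero, ↓reduceIte, zero_add]
        linear_combination -ep_mul_ep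
      · simp
  rw [esymm_cons, h1]
  rcases n with _ | n
  · simp [esymm_zero']
  · rw [h1]
    rcases n with _ | n
    · simp only [zero_add, one_ne_zero, ↓reduceIte]
      ring
    · rcases n with _ | n
      · simp only [zero_add, one_ne_zero, ↓reduceIte]
        norm_num
        ring
      · simp

/-- the coefficient of `ε y ^ k` -/
noncomputable def L (k : ℕ) (q : D) : ℚ := (q.coeff k).snd

lemma L_add (k : ℕ) (p q : D) : L k (p + q) = L k p + L k q := by
  simp [L]

lemma L_zero (k : ℕ) : L k 0 = 0 := by simp [L]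

lemma L_sum {ι : Type*} (k : ℕ) (s : Finset ι) (f : ι → D) :
    L k (∑ i ∈ s, f i) = ∑ i ∈ s, L k (f i) := by
  classical
  induction s using Finset.induction_on with
  | empty => simp [L_zero]
  | insert a s ha ih => rw [sum_insert ha, sum_insert ha, L_add, ih]

lemma L_algebraMap_mul (k : ℕ) (r : ℚ) (q : D) : L k (algebraMap ℚ D r * q) = r * L k q := by
  rw [← Algebra.smul_def, L, L, Polynomial.coeff_smul]
  simp

/-! ### Integer pairs -/

/-- `a y ^ k + b ε y ^ (k - 1)` -/
noncomputable def th (k : ℕ) (p : ℤ × ℤ) : D :=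
  (p.1 : D) * yy ^ k + (p.2 : D) * (ep * yy ^ (k - 1))

lemma th_mul {k l : ℕ} (hk : 1 ≤ k) (hl : 1 ≤ l) (p q : ℤ × ℤ) :
    th k p * th l q = th (k + l) (p.1 * q.1, p.1 * q.2 + p.2 * q.1) := by
  obtain ⟨k, rfl⟩ : ∃ m, k = m + 1 := ⟨k - 1, by omega⟩
  obtain ⟨l, rfl⟩ : ∃ m, l = m + 1 := ⟨l - 1, by omega⟩
  have e : k + 1 + (l + 1) - 1 = k + l + 1 := by omega
  simp only [th, Nat.add_sub_cancel, e, Int.cast_mul, Int.cast_add]
  have h : (p.2 : D) * (q.2 : D) * (yy ^ k * yy ^ l) * (ep * ep) = 0 := by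
    rw [ep_mul_ep, mul_zero]
  linear_combination h

lemma th_add (k : ℕ) (p q : ℤ × ℤ) : th k p + th k q = th k (p + q) := by
  simp only [th, Prod.fst_add, Prod.snd_add, Int.cast_add]
  ring

lemma th_zero (k : ℕ) : th k 0 = 0 := by simp [th]

lemma L_th (k : ℕ) (p : ℤ × ℤ) : L k (th (k + 1) p) = p.2 := by
  have h1 : ((p.1 : D) * yy ^ (k + 1)).coeff k = 0 := by
    rw [yy, ← map_intCast (Polynomial.C : DualNumber ℚ →+* D), Polynomial.coeff_C_mul_X_pow]
    simp
  have h2 : ((p.2 : D) * (ep * yy ^ k)).coeff k = (p.2 : DualNumber ℚ) * DualNumber.eps := by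
    rw [yy, ep, ← map_intCast (Polynomial.C : DualNumber ℚ →+* D), ← mul_assoc, ← map_mul,
      Polynomial.coeff_C_mul_X_pow]
    simp
  rw [L, th, Polynomial.coeff_add, h1, Nat.add_sub_cancel, h2, zero_add]
  simp

/-! ### Extraction of the coefficient -/

/-- the values of `e_(i+1)` at the evaluation point -/
noncomputable def E (M : ℕ) (i : Fin (M + 3)) : D :=
  if (i : ℕ) = 0 then 0 else if (i : ℕ) = 1 then -(yy * yy + yy * ep)
    else if (i : ℕ) = 2 then -(yy * yy * ep) else 0

lemma aeval_pt_esymm (M : ℕ) (i : Fin (M + 3)) :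
    aeval (pt M) (esymm (Fin (M + 3)) ℚ ((i : ℕ) + 1)) = E M i := by
  rw [aeval_esymm_eq_multiset_esymm, pt_esymm, E]

/-- `-(y^2 + y ε)` is `θ` of a pair -/
lemma e2_eq : -(yy * yy + yy * ep) = th 2 (-1, -1) := by
  simp [th]; ring

lemma e3_eq : -(yy * yy * ep) = th 3 (0, -1) := by
  simp [th]; ring

lemma e2_pow (a : ℕ) : th 2 (-1, -1) ^ (a + 1) =
    th (2 * (a + 1)) ((-1) ^ (a + 1), (a + 1) * (-1) ^ (a + 1)) := by
  induction a with
  | zero => simp
  | succ a ih =>
    rw [pow_succ, ih, th_mul (by omega) (by omega)]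
    congr 1
    ext
    · simp; ring
    · simp; ring

lemma L_E_prod {M : ℕ} {a : ℕ} (ha : 1 ≤ a) (d : Fin (M + 3) →₀ ℕ) :
    L (2 * a + 2) (∏ i, E M i ^ d i) =
      if (d ⟨1, by omega⟩ = a ∧ d ⟨2, by omega⟩ = 1 ∧ ∀ i : Fin (M + 3), (i : ℕ) ≠ 1 → (i : ℕ) ≠ 2 →
        d i = 0) then -(-1) ^ a else 0 := by
  by_cases hz : ∀ i : Fin (M + 3), (i : ℕ) ≠ 1 → (i : ℕ) ≠ 2 → d i = 0
  · have hprod : ∏ i, E M i ^ d i = (th 2 (-1, -1)) ^ d ⟨1, by omega⟩ *
        (th 3 (0, -1)) ^ d ⟨2, by omega⟩ := by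
      have h12 : (⟨1, by omega⟩ : Fin (M + 3)) ≠ ⟨2, by omega⟩ := by
        intro h; simp at h
      rw [← Finset.prod_subset (Finset.subset_univ {(⟨1, by omega⟩ : Fin (M + 3)), ⟨2, by omega⟩}),
        Finset.prod_pair h12]
      · rw [← e2_eq, ← e3_eq]
        simp [E]
      · intro i _ hi
        simp only [mem_insert, mem_singleton, not_or] at hi
        rw [hz i, pow_zero]
        · intro h; exact hi.1 (Fin.ext h)
        · intro h; exact hi.2 (Fin.ext h)
    rw [hprod]
    generalize d ⟨1, by omega⟩ = u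
    generalize d ⟨2, by omega⟩ = v
    rcases v with _ | v
    · rw [if_neg (by omega), pow_zero, mul_one]
      rcases u with _ | u
      · rw [pow_zero, L, ← Polynomial.C_1, Polynomial.coeff_C]
        simp
      · rw [e2_pow, th, L, Polynomial.coeff_add]
        have h1 : ∀ (z : ℤ) (m : ℕ), ((z : D) * yy ^ m).coeff (2 * a + 2) =
            if 2 * a + 2 = m then (z : DualNumber ℚ) else 0 := by
          intro z m
          rw [yy, ← map_intCast (Polynomial.C : DualNumber ℚ →+* D),
            Polynomial.coeff_C_mul_X_pow]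
        have h2 : ∀ (z : ℤ) (m : ℕ), ((z : D) * (ep * yy ^ m)).coeff (2 * a + 2) =
            if 2 * a + 2 = m then (z : DualNumber ℚ) * DualNumber.eps else 0 := by
          intro z m
          rw [yy, ep, ← map_intCast (Polynomial.C : DualNumber ℚ →+* D), ← mul_assoc, ← map_mul,
            Polynomial.coeff_C_mul_X_pow]
        rw [h1, h2, if_neg (show ¬ 2 * a + 2 = 2 * (u + 1) - 1 by omega), add_zero]
        split_ifs
        · simp
        · simp
    · rcases v with _ | v
      · rw [zero_add, pow_one]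
        rcases u with _ | u
        · rw [if_neg (by omega), pow_zero, one_mul, th, L]
          have h2 : ∀ (z : ℤ) (m : ℕ), ((z : D) * (ep * yy ^ m)).coeff (2 * a + 2) =
              if 2 * a + 2 = m then (z : DualNumber ℚ) * DualNumber.eps else 0 := by
            intro z m
            rw [yy, ep, ← map_intCast (Polynomial.C : DualNumber ℚ →+* D), ← mul_assoc, ← map_mul,
              Polynomial.coeff_C_mul_X_pow]
          rw [Int.cast_zero, zero_mul, zero_add, h2, if_neg (by omega)]
          simp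
        · rw [e2_pow, th_mul (by omega) (by omega), th, L]
          have h2 : ∀ (z : ℤ) (m : ℕ), ((z : D) * (ep * yy ^ m)).coeff (2 * a + 2) =
              if 2 * a + 2 = m then (z : DualNumber ℚ) * DualNumber.eps else 0 := by
            intro z m
            rw [yy, ep, ← map_intCast (Polynomial.C : DualNumber ℚ →+* D), ← mul_assoc, ← map_mul,
              Polynomial.coeff_C_mul_X_pow]
          simp only [mul_zero, Int.cast_zero, zero_mul, zero_add]
          rw [h2]
          by_cases hu : u + 1 = a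
          · subst hu
            rw [if_pos (by omega), if_pos ⟨rfl, by trivial, hz⟩]
            simp
          · rw [if_neg (by omega), if_neg (by tauto)]
            simp
      · rw [if_neg (by omega)]
        have : th 3 (0, -1) ^ (v + 1 + 1) = 0 := by
          rw [pow_succ, pow_succ, mul_assoc, th_mul (by omega) (by omega)]
          simp [th]
        rw [this, mul_zero, L_zero]
  · rw [if_neg (by tauto)]
    push Not at hz
    obtain ⟨i, h1, h2, h3⟩ := hz
    have h4 : ∏ i, E M i ^ d i = 0 := by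
      refine Finset.prod_eq_zero (M₀ := D) (mem_univ i) ?_
      rw [E, if_neg h1, if_neg h2, ite_self, zero_pow h3]
    rw [h4, L_zero]

/-- The coefficient of `e_(3, 2^a)` is, up to sign, the coefficient of `ε y^(2a+2)` in the
evaluation. -/
theorem eCoeff_eq {V : Type*} [Fintype V] [DecidableEq V] (T : SimpleGraph V)
    [DecidableRel T.Adj] {M n a : ℕ} (ha : 1 ≤ a) (μ : Nat.Partition n)
    (hμ : μ.parts = 3 ::ₘ Multiset.replicate a 2) :
    eCoeff T (M + 3) μ = -(-1) ^ a * L (2 * a + 2) (aeval (pt M) (csf T (M + 3))) := by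
  set p := (esymmAlgEquiv (Fin (M + 3)) ℚ (Fintype.card_fin (M + 3))).symm
    ⟨csf T (M + 3), csf_isSymmetric T (M + 3)⟩ with hp
  have h1 : csf T (M + 3) = aeval (fun i : Fin (M + 3) ↦ esymm (Fin (M + 3)) ℚ (i + 1)) p := by
    rw [← esymmAlgHom_apply, ← esymmAlgEquiv_apply (σ := Fin (M + 3)) (R := ℚ)
      (Fintype.card_fin (M + 3)), hp, AlgEquiv.apply_symm_apply]
  have h2 : aeval (pt M) (csf T (M + 3)) = aeval (E M) p := by
    rw [h1]
    refine (comp_aeval_apply _ (aeval (pt M)) p).trans ?_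
    have : (fun i : Fin (M + 3) => aeval (pt M) (esymm (Fin (M + 3)) ℚ ((i : ℕ) + 1))) = E M := by
      funext i
      exact aeval_pt_esymm M i
    rw [this]
  have h3 : aeval (E M) p = ∑ d ∈ p.support, algebraMap ℚ D (coeff d p) * ∏ i, E M i ^ d i := by
    rw [aeval_def, eval₂_eq']
  set m0 : Fin (M + 3) →₀ ℕ :=
    Finsupp.equivFunOnFinite.symm (fun i : Fin (M + 3) => μ.parts.count ((i : ℕ) + 1)) with hm0
  have hm : ∀ d : Fin (M + 3) →₀ ℕ, (d ⟨1, by omega⟩ = a ∧ d ⟨2, by omega⟩ = 1 ∧
      ∀ i : Fin (M + 3), (i : ℕ) ≠ 1 → (i : ℕ) ≠ 2 → d i = 0) ↔ d = m0 := by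
    intro d
    have hv : ∀ i : Fin (M + 3), m0 i = if (i : ℕ) = 1 then a else if (i : ℕ) = 2 then 1 else 0 := by
      intro i
      rw [hm0, Finsupp.equivFunOnFinite_symm_apply_apply, hμ, Multiset.count_cons,
        Multiset.count_replicate]
      by_cases hi1 : (i : ℕ) = 1
      · simp [hi1]
      · by_cases hi2 : (i : ℕ) = 2
        · simp [hi2]
        · rw [if_neg (by omega), if_neg (by omega), if_neg hi1, if_neg hi2]
    constructor
    · rintro ⟨g1, g2, g3⟩
      ext i
      rw [hv]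
      split_ifs with hi1 hi2
      · rw [← g1]; congr 1; exact Fin.ext hi1
      · rw [← g2]; congr 1; exact Fin.ext hi2
      · exact g3 i hi1 hi2
    · rintro rfl
      refine ⟨by rw [hv]; simp, by rw [hv]; simp, ?_⟩
      intro i hi1 hi2
      rw [hv, if_neg hi1, if_neg hi2]
  have h4 : L (2 * a + 2) (aeval (pt M) (csf T (M + 3))) = coeff m0 p * (-(-1) ^ a) := by
    rw [h2, h3, L_sum]
    simp only [L_algebraMap_mul, L_E_prod ha, hm]
    rw [Finset.sum_eq_single m0]
    · rw [if_pos rfl]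
    · intro d _ hd
      rw [if_neg hd, mul_zero]
    · intro hns
      rw [notMem_support_iff.1 hns, zero_mul]
  rw [h4, eCoeff, ← hm0, ← hp]
  have : ((-1 : ℚ) ^ a) * (-1) ^ a = 1 := by
    rw [← mul_pow]; norm_num
  linear_combination (-coeff m0 p) * this

/-! ### The evaluation for a tree with a parent function -/

/-- the parent as an element of `Fin n` -/
def pf (par : ℕ → ℕ) (hpar : ∀ i, par i ≤ i) {n : ℕ} (i : Fin n) : Fin n :=
  ⟨par i, lt_of_le_of_lt (hpar i) i.isLt⟩

/-- `1` if the colours of `i` and its parent are allowed, else `0` -/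
noncomputable def ind {α : Type*} [DecidableEq α] (i : ℕ) (a b : α) : D :=
  if i = 0 then 1 else if a = b then 0 else 1

/-- weighted number of colourings -/
noncomputable def Z {α : Type*} [Fintype α] [DecidableEq α] (par : ℕ → ℕ)
    (hpar : ∀ i, par i ≤ i) (n : ℕ) (w : ℕ → α → D) : D :=
  ∑ κ : Fin n → α, ∏ i : Fin n, (w i (κ i) * ind i (κ i) (κ (pf par hpar i)))

lemma Z_succ {α : Type*} [Fintype α] [DecidableEq α] (par : ℕ → ℕ)
    (hpar : ∀ i, par i ≤ i) (n : ℕ) (hn : par n < n) (w : ℕ → α → D) :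
    Z par hpar (n + 1) w = Z par hpar n
      (fun i a => if i = par n then w i a * ∑ c, w n c * ind n c a else w i a) := by
  rw [Z, ← (Fin.snocEquiv (fun _ : Fin (n + 1) => α)).sum_comp, Fintype.sum_prod_type, Z,
    Finset.sum_comm]
  refine Finset.sum_congr rfl ?_
  intro κ _
  have h1 : ∀ c : α, ∏ i : Fin (n + 1),
      (w i ((Fin.snocEquiv (fun _ : Fin (n + 1) => α)) (c, κ) i) *
        ind i ((Fin.snocEquiv (fun _ : Fin (n + 1) => α)) (c, κ) i)
          ((Fin.snocEquiv (fun _ : Fin (n + 1) => α)) (c, κ) (pf par hpar i))) =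
      (∏ i : Fin n, (w i (κ i) * ind i (κ i) (κ (pf par hpar i)))) *
        (w n c * ind n c (κ ⟨par n, hn⟩)) := by
    intro c
    rw [Fin.prod_univ_castSucc]
    congr 1
    · refine Finset.prod_congr rfl ?_
      intro i _
      have e1 : (Fin.snocEquiv (fun _ : Fin (n + 1) => α)) (c, κ) (Fin.castSucc i) = κ i := by
        simp [Fin.snocEquiv]
      have e2 : (Fin.snocEquiv (fun _ : Fin (n + 1) => α)) (c, κ)
          (pf par hpar (Fin.castSucc i)) = κ (pf par hpar i) := by
        have : pf par hpar (Fin.castSucc i) = Fin.castSucc (pf par hpar i) := rfl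
        rw [this]
        simp [Fin.snocEquiv]
      rw [e1, e2]
      rfl
    · have e1 : (Fin.snocEquiv (fun _ : Fin (n + 1) => α)) (c, κ) (Fin.last n) = c := by
        simp [Fin.snocEquiv]
      have e2 : (Fin.snocEquiv (fun _ : Fin (n + 1) => α)) (c, κ)
          (pf par hpar (Fin.last n)) = κ ⟨par n, hn⟩ := by
        have : pf par hpar (Fin.last n) = Fin.castSucc ⟨par n, hn⟩ := rfl
        rw [this]
        exact Fin.snoc_castSucc (α := fun _ => α) c κ ⟨par n, hn⟩
      rw [e1, e2]
      rfl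
  simp only [h1]
  rw [← Finset.mul_sum]
  have h2 : ∀ i : Fin n, (if (i : ℕ) = par n then w i (κ i) * ∑ c, w n c * ind n c (κ i)
      else w i (κ i)) * ind i (κ i) (κ (pf par hpar i)) =
      (w i (κ i) * ind i (κ i) (κ (pf par hpar i))) *
        (if i = ⟨par n, hn⟩ then ∑ c, w n c * ind n c (κ i) else 1) := by
    intro i
    by_cases hi : (i : ℕ) = par n
    · rw [if_pos hi, if_pos (Fin.ext hi)]
      ring
    · rw [if_neg hi, if_neg (fun h => hi (congrArg Fin.val h)), mul_one]
  simp only [h2]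
  rw [Finset.prod_mul_distrib
    (f := fun i : Fin n => w i (κ i) * ind i (κ i) (κ (pf par hpar i))),
    Finset.prod_ite_eq' univ, if_pos (mem_univ _)]

/-- the other two colours -/
def oth (c : Fin 3) (f : Fin 3 → ℤ × ℤ) : ℤ × ℤ :=
  if c = 0 then f 1 + f 2 else if c = 1 then f 0 + f 2 else f 0 + f 1

/-- one step of the recursion on integer pairs -/
def step (par : ℕ → ℕ) (n : ℕ) (W : ℕ → ℕ × (Fin 3 → ℤ × ℤ)) : ℕ → ℕ × (Fin 3 → ℤ × ℤ) :=
  fun i => if i = par n then
    ((W i).1 + (W n).1, fun c =>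
      (((W i).2 c).1 * (oth c (W n).2).1,
        ((W i).2 c).1 * (oth c (W n).2).2 + ((W i).2 c).2 * (oth c (W n).2).1))
    else W i

lemma oth_sum {n : ℕ} (hn : n ≠ 0) (k : ℕ) (f : Fin 3 → ℤ × ℤ) (a : Fin 3) :
    ∑ c, th k (f c) * ind n c a = th k (oth a f) := by
  rw [Fin.sum_univ_three]
  simp only [ind, if_neg hn]
  fin_cases a <;> simp [oth, th_add]

lemma Z_step (par : ℕ → ℕ) (hpar : ∀ i, par i ≤ i) (n : ℕ) (hn : par n < n)
    (W : ℕ → ℕ × (Fin 3 → ℤ × ℤ)) (hW : ∀ i, 1 ≤ (W i).1) :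
    Z par hpar (n + 1) (fun i c => th (W i).1 ((W i).2 c)) =
      Z par hpar n (fun i c => th (step par n W i).1 ((step par n W i).2 c)) := by
  rw [Z_succ par hpar n hn]
  congr 1
  funext i a
  by_cases hi : i = par n
  · rw [if_pos hi, oth_sum (by omega), th_mul (hW i) (hW n)]
    simp only [step, if_pos hi]
  · rw [if_neg hi]
    simp only [step, if_neg hi]

lemma step_pos (par : ℕ → ℕ) (n : ℕ) (W : ℕ → ℕ × (Fin 3 → ℤ × ℤ)) (hW : ∀ i, 1 ≤ (W i).1) :
    ∀ i, 1 ≤ (step par n W i).1 := by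
  intro i
  unfold step
  split_ifs
  · have := hW i
    simp only
    omega
  · exact hW i

/-- the recursion: the total weight of the colourings of the vertices `0, …, n` -/
def run (par : ℕ → ℕ) : ℕ → (ℕ → ℕ × (Fin 3 → ℤ × ℤ)) → ℕ × (ℤ × ℤ)
  | 0, W => ((W 0).1, (W 0).2 0 + (W 0).2 1 + (W 0).2 2)
  | n + 1, W => run par n (step par (n + 1) W)

lemma Z_run (par : ℕ → ℕ) (hpar : ∀ i, par i ≤ i) (hlt : ∀ i, 0 < i → par i < i) (n : ℕ) :
    ∀ (W : ℕ → ℕ × (Fin 3 → ℤ × ℤ)), (∀ i, 1 ≤ (W i).1) →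
    Z par hpar (n + 1) (fun i c => th (W i).1 ((W i).2 c)) =
      th (run par n W).1 (run par n W).2 := by
  induction n with
  | zero =>
    intro W _
    rw [Z, run]
    rw [← (Equiv.funUnique (Fin 1) (Fin 3)).symm.sum_comp]
    simp only [Fin.prod_univ_one, Fin.sum_univ_three]
    simp [ind, th_add]
  | succ n ih =>
    intro W hW
    rw [Z_step par hpar (n + 1) (hlt _ (by omega)) W hW, ih _ (step_pos par (n + 1) W hW), run]

/-- the graph of a parent function -/
def treeOf (par : ℕ → ℕ) (n : ℕ) : SimpleGraph (Fin n) where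
  Adj a b := a ≠ b ∧ (par a = b ∨ par b = a)
  symm := ⟨fun _ _ h => ⟨h.1.symm, h.2.symm⟩⟩
  loopless := ⟨fun _ h => h.1 rfl⟩

instance (par : ℕ → ℕ) (n : ℕ) : DecidableRel (treeOf par n).Adj := fun a b =>
  inferInstanceAs (Decidable (a ≠ b ∧ (par a = b ∨ par b = a)))

/-- weights at the start -/
def W0 : ℕ → ℕ × (Fin 3 → ℤ × ℤ) := fun _ => (1, ![(1, 0), (-1, -1), (0, 1)])

lemma proper_iff (par : ℕ → ℕ) (hpar : ∀ i, par i ≤ i) (hlt : ∀ i, 0 < i → par i < i)
    {n : ℕ} {α : Type*} (κ : Fin n → α) :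
    (∀ u v, (treeOf par n).Adj u v → κ u ≠ κ v) ↔
      ∀ i : Fin n, (i : ℕ) ≠ 0 → κ i ≠ κ (pf par hpar i) := by
  constructor
  · intro h i hi
    refine h _ _ ⟨?_, Or.inl rfl⟩
    intro he
    have h1 : (i : ℕ) = par i := congrArg Fin.val he
    have := hlt i (by omega)
    omega
  · intro h u v huv
    rcases huv with ⟨hne, h1 | h1⟩
    · have h2 : pf par hpar u = v := Fin.ext h1
      rw [← h2]
      refine h u ?_
      intro h0
      apply hne
      apply Fin.ext
      have := hpar u
      omega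
    · have h2 : pf par hpar v = u := Fin.ext h1
      rw [← h2]
      refine (h v ?_).symm
      intro h0
      apply hne
      apply Fin.ext
      have := hpar v
      omega

lemma prod_ind (par : ℕ → ℕ) (hpar : ∀ i, par i ≤ i) {n : ℕ} {α : Type*} [DecidableEq α]
    (κ : Fin n → α) :
    ∏ i : Fin n, ind (i : ℕ) (κ i) (κ (pf par hpar i)) =
      if (∀ i : Fin n, (i : ℕ) ≠ 0 → κ i ≠ κ (pf par hpar i)) then (1 : D) else 0 := by
  split_ifs with h
  · refine Finset.prod_eq_one ?_
    intro i _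
    unfold ind
    split_ifs with h1 h2
    · rfl
    · exact absurd h2 (h i h1)
    · rfl
  · push Not at h
    obtain ⟨i, h1, h2⟩ := h
    refine Finset.prod_eq_zero (M₀ := D) (mem_univ i) ?_
    unfold ind
    rw [if_neg h1, if_pos h2]

lemma aeval_csf (par : ℕ → ℕ) (hpar : ∀ i, par i ≤ i) (hlt : ∀ i, 0 < i → par i < i)
    (n N : ℕ) (x : Fin N → D) :
    aeval x (csf (treeOf par n) N) = Z par hpar n (fun _ c => x c) := by
  rw [csf, map_sum, Finset.sum_filter, Z]
  refine Finset.sum_congr rfl ?_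
  intro κ _
  rw [Finset.prod_mul_distrib, prod_ind]
  simp only [proper_iff par hpar hlt]
  split_ifs
  · rw [map_prod]
    simp
  · simp

lemma Z_restrict (par : ℕ → ℕ) (hpar : ∀ i, par i ≤ i) (n M : ℕ) :
    Z par hpar n (fun _ c => pt M c) = Z par hpar n (fun _ c => x3 c) := by
  symm
  refine Fintype.sum_of_injective (fun κ i => Fin.castLE (by omega : 3 ≤ M + 3) (κ i)) ?_ _ _ ?_ ?_
  · intro κ κ' h
    funext i
    have := congrFun h i
    exact Fin.castLE_injective _ this
  · intro κ hκ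
    by_cases h : ∀ i, ((κ i : Fin (M + 3)) : ℕ) < 3
    · exfalso
      exact hκ ⟨fun i => ⟨κ i, h i⟩, by funext i; rfl⟩
    · push Not at h
      obtain ⟨i, hi⟩ := h
      refine Finset.prod_eq_zero (M₀ := D) (mem_univ i) ?_
      have : pt M (κ i) = 0 := by
        obtain ⟨j, hj⟩ : ∃ j : Fin M, κ i = Fin.succ (Fin.succ (Fin.succ j)) := by
          refine ⟨⟨(κ i : ℕ) - 3, by have := (κ i).isLt; omega⟩, ?_⟩
          apply Fin.ext
          simp only [Fin.val_succ]
          omega
        rw [hj]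
        simp [pt]
      show pt M (κ i) * _ = 0
      rw [this, zero_mul]
  · intro κ
    refine Finset.prod_congr rfl ?_
    intro i _
    congr 1
    · show x3 (κ i) = pt M (Fin.castLE (by omega : 3 ≤ M + 3) (κ i))
      generalize κ i = c
      fin_cases c
      · rfl
      · rfl
      · rfl
    · unfold ind
      simp only [Fin.castLE_inj]

/-- The coefficient of `e_(3, 2^a)` for the tree with parent function `par` on `2 a + 3` vertices,
as the outcome of a recursion on integer pairs. -/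
theorem eCoeff_treeOf (par : ℕ → ℕ) (hpar : ∀ i, par i ≤ i) (hlt : ∀ i, 0 < i → par i < i)
    {M n a : ℕ} (ha : 1 ≤ a) (μ : Nat.Partition n)
    (hμ : μ.parts = 3 ::ₘ Multiset.replicate a 2) (z : ℤ × ℤ)
    (hrun : run par (2 * a + 2) W0 = (2 * a + 3, z)) :
    eCoeff (treeOf par (2 * a + 3)) (M + 3) μ = -(-1) ^ a * z.2 := by
  rw [eCoeff_eq _ ha μ hμ, aeval_csf par hpar hlt, Z_restrict]
  have h1 : (fun (_ : ℕ) (c : Fin 3) => x3 c) =
      fun (i : ℕ) (c : Fin 3) => th (W0 i).1 ((W0 i).2 c) := by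
    funext i c
    fin_cases c
    · simp [x3, W0, th]
    · simp [x3, W0, th]; ring
    · simp [x3, W0, th]
  rw [h1, show 2 * a + 3 = 2 * a + 2 + 1 by omega, Z_run par hpar hlt _ W0 (fun _ => le_rfl), hrun]
  simp only
  rw [show 2 * a + 3 = 2 * a + 2 + 1 by omega, L_th]

end Pool.Agent.R10.CSF
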