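import Pool.Agent.R10.FibWord

/-!
# A potential on the positions of the Fibonacci word

`A m` counts certain digits; along palindromes it changes by at most one (in a signed sense).
-/

namespace Pool.Agent.R10.FibWord

/-- Transition for the digit `0`. -/
def d0 (q : ℕ) : ℕ := [0, 2, 3, 0, 6, 7, 8, 3, 7, 6].getD q 0

/-- Transition for the digit `1`. -/
def d1 (q : ℕ) : ℕ := [1, 0, 4, 5, 0, 0, 4, 9, 5, 0].getD q 0

/-- Output for the digit `1`. -/
def o1 (q : ℕ) : ℕ := [1, 0, 1, 1, 0, 0, 0, 1, 0, 0].getD q 0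

/-- The correction `1 + ba`. -/
def ba (q : ℕ) : ℕ := [2, 1, 2, 1, 1, 0, 1, 1, 0, 0].getD q 0

/-- The next letter is `b`. -/
def nb (q : ℕ) : Bool := [false, true, false, false, true, true, false, false, false, true].getD q false

def mem0 (q1 q2 e ne : ℕ) : Bool :=
  decide (e < 5) && Nat.testBit 0x40000a028000000002a0000a0001000000080200a0000802a2802004000280a0080002a0082800000010000a8020000a008000000a02004000000280002a00000000a8000100002800008200a000000280802e00008028a800000000000a00801028000000002a000000000002804028002a000000a80002800028030 (((q1 * 10 + q2) * 5 + e) * 2 + ne)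

def mem1 (q1 q2 e y ne : ℕ) : Bool :=
  decide (e < 5) && Nat.testBit 0x2200004000000002200000000222000000002000022022000000000000008000000002300000000080002220000800000000100088800880000100022000000008880002000088000200000000088000000000000000000010008800020000898000000022000000004000222000000002200000002220000200000000000000000000000200000000022200000002000026223200000000080008800000002320000000008000220000800020000000008880000000000002000001000080000000008800000002220004000000002220000000022000400002000000022000000000800088800010002220000000088000300000000 (((q1 * 10 + q2) * 5 + e) * 4 + 2 * y + ne)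

theorem c1' : ∀ q1 < 10, ∀ q2 < 10, ∀ e < 5, ∀ ne < 2, (mem0 q1 q2 e ne && !nb q2) = true →
    mem0 (d0 q1) (d1 q2) (e + o1 q2) 1 = true := by decide

theorem c2' : ∀ q1 < 10, ∀ q2 < 10, ∀ e < 5, (mem0 q1 q2 e 1 && !nb q1) = true →
    (decide (o1 q1 ≤ e) && mem0 (d1 q1) (d0 q2) (e - o1 q1) 1) = true := by decide

theorem c3' : ∀ q1 < 10, ∀ q2 < 10, ∀ e < 5, (mem0 q1 q2 e 1 && !nb q1 && !nb q2) = true →
    mem1 (d1 q1) (d1 q2) (e + o1 q2 - o1 q1) 0 1 = true := by decide

theorem c4 : ∀ q1 < 10, ∀ q2 < 10, ∀ e < 5, ∀ ne < 2, mem1 q1 q2 e 1 ne = true →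
    mem0 (d0 q1) (d0 q2) e 1 = true := by decide

theorem c5' : ∀ q1 < 10, ∀ q2 < 10, ∀ e < 5, ∀ ne < 2, (mem1 q1 q2 e 1 ne && !nb q2) = true →
    mem1 (d0 q1) (d1 q2) (e + o1 q2) 0 1 = true := by decide

theorem c6' : ∀ q1 < 10, ∀ q2 < 10, ∀ e < 5, (mem1 q1 q2 e 1 1 && !nb q1) = true →
    (decide (o1 q1 ≤ e) && mem1 (d1 q1) (d0 q2) (e - o1 q1) 0 1) = true := by decide

theorem c7 : ∀ q1 < 10, ∀ q2 < 10, ∀ e < 5, ∀ ne < 2, mem1 q1 q2 e 0 ne = true →
    mem1 (d0 q1) (d0 q2) e 1 1 = true := by decide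

theorem c8 : ∀ q < 10, nb q = false → mem1 (d0 q) (d1 q) (2 + o1 q) 0 0 = true := by decide

theorem c9 : ∀ q1 < 10, ∀ q2 < 10, ∀ e < 5, mem1 q1 q2 e 1 0 = true →
    mem1 (d0 q1) (d0 q2) e 0 0 = true := by decide

theorem c10' : ∀ q1 < 10, ∀ q2 < 10, ∀ e < 5, (mem1 q1 q2 e 0 0 && !nb q1) = true →
    (decide (o1 q1 ≤ e) && mem1 (d1 q1) (d0 q2) (e - o1 q1) 1 0) = true := by decide

theorem c11 : ∀ q < 10, mem0 q q 2 0 = true := by decide

theorem c12' : ∀ q1 < 10, ∀ q2 < 10, ∀ e < 5, ∀ ne < 2, mem0 q1 q2 e ne = true →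
    (decide (e + ba q2 ≤ 4) && decide (e ≤ 2 + ba q1)) = true := by decide

theorem c1 (q1 : ℕ) (h1 : q1 < 10) (q2 : ℕ) (h2 : q2 < 10) (e : ℕ) (he : e < 5) (ne : ℕ)
    (hne : ne < 2) (h : mem0 q1 q2 e ne = true) (hb : nb q2 = false) :
    mem0 (d0 q1) (d1 q2) (e + o1 q2) 1 = true :=
  c1' q1 h1 q2 h2 e he ne hne (by rw [h, hb]; rfl)

theorem c2 (q1 : ℕ) (h1 : q1 < 10) (q2 : ℕ) (h2 : q2 < 10) (e : ℕ) (he : e < 5)
    (h : mem0 q1 q2 e 1 = true) (hb : nb q1 = false) :
    o1 q1 ≤ e ∧ mem0 (d1 q1) (d0 q2) (e - o1 q1) 1 = true := by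
  have := c2' q1 h1 q2 h2 e he (by rw [h, hb]; rfl)
  simpa only [Bool.and_eq_true, decide_eq_true_eq] using this

theorem c3 (q1 : ℕ) (h1 : q1 < 10) (q2 : ℕ) (h2 : q2 < 10) (e : ℕ) (he : e < 5)
    (h : mem0 q1 q2 e 1 = true) (hb : nb q1 = false) (hb' : nb q2 = false) :
    mem1 (d1 q1) (d1 q2) (e + o1 q2 - o1 q1) 0 1 = true :=
  c3' q1 h1 q2 h2 e he (by rw [h, hb, hb']; rfl)

theorem c5 (q1 : ℕ) (h1 : q1 < 10) (q2 : ℕ) (h2 : q2 < 10) (e : ℕ) (he : e < 5) (ne : ℕ)
    (hne : ne < 2) (h : mem1 q1 q2 e 1 ne = true) (hb : nb q2 = false) :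
    mem1 (d0 q1) (d1 q2) (e + o1 q2) 0 1 = true :=
  c5' q1 h1 q2 h2 e he ne hne (by rw [h, hb]; rfl)

theorem c6 (q1 : ℕ) (h1 : q1 < 10) (q2 : ℕ) (h2 : q2 < 10) (e : ℕ) (he : e < 5)
    (h : mem1 q1 q2 e 1 1 = true) (hb : nb q1 = false) :
    o1 q1 ≤ e ∧ mem1 (d1 q1) (d0 q2) (e - o1 q1) 0 1 = true := by
  have := c6' q1 h1 q2 h2 e he (by rw [h, hb]; rfl)
  simpa only [Bool.and_eq_true, decide_eq_true_eq] using this

theorem c10 (q1 : ℕ) (h1 : q1 < 10) (q2 : ℕ) (h2 : q2 < 10) (e : ℕ) (he : e < 5)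
    (h : mem1 q1 q2 e 0 0 = true) (hb : nb q1 = false) :
    o1 q1 ≤ e ∧ mem1 (d1 q1) (d0 q2) (e - o1 q1) 1 0 = true := by
  have := c10' q1 h1 q2 h2 e he (by rw [h, hb]; rfl)
  simpa only [Bool.and_eq_true, decide_eq_true_eq] using this

theorem c12 (q1 : ℕ) (h1 : q1 < 10) (q2 : ℕ) (h2 : q2 < 10) (e : ℕ) (he : e < 5) (ne : ℕ)
    (hne : ne < 2) (h : mem0 q1 q2 e ne = true) : e + ba q2 ≤ 4 ∧ e ≤ 2 + ba q1 := by
  have := c12' q1 h1 q2 h2 e he ne hne h
  simpa only [Bool.and_eq_true, decide_eq_true_eq] using this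

theorem d0_lt : ∀ q < 10, d0 q < 10 ∧ nb (d0 q) = false := by decide

theorem d1_lt : ∀ q < 10, d1 q < 10 ∧ (nb q = false → nb (d1 q) = true) := by decide

theorem mem0_lt {q1 q2 e ne : ℕ} (h : mem0 q1 q2 e ne = true) : e < 5 := by
  unfold mem0 at h
  simp only [Bool.and_eq_true, decide_eq_true_eq] at h
  exact h.1

theorem mem1_lt {q1 q2 e y ne : ℕ} (h : mem1 q1 q2 e y ne = true) : e < 5 := by
  unfold mem1 at h
  simp only [Bool.and_eq_true, decide_eq_true_eq] at h
  exact h.1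

/-- The index `m` with `B m ≤ n < B (m + 1)`. -/
def M (n : ℕ) : ℕ := Nat.findGreatest (fun m => B m ≤ n) n

theorem B_M_le (n : ℕ) : B (M n) ≤ n := by
  unfold M
  exact Nat.findGreatest_spec (P := fun m => B m ≤ n) (m := 0) (Nat.zero_le _) (by simp [B_zero])

theorem M_eq {n m : ℕ} (h1 : B m ≤ n) (h2 : n < B (m + 1)) : M n = m := by
  apply le_antisymm
  · by_contra hc
    have h3 := B_M_le n
    have h4 : B (m + 1) ≤ B (M n) := B_strictMono.monotone (by omega)
    omega
  · exact Nat.le_findGreatest ((le_B m).trans h1) h1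

theorem M_lt {n : ℕ} (h : 1 ≤ n) : M n < n := by
  have h1 := B_M_le n
  rcases Nat.eq_zero_or_pos (M n) with h2 | h2
  · omega
  · have := lt_B h2; omega

/-- State and potential. -/
def st : ℕ → ℕ × ℕ
  | 0 => (0, 0)
  | n + 1 =>
    have : M (n + 1) < n + 1 := M_lt (by omega)
    if B (M (n + 1)) = n + 1 then (d0 (st (M (n + 1))).1, (st (M (n + 1))).2)
    else (d1 (st (M (n + 1))).1, (st (M (n + 1))).2 + o1 (st (M (n + 1))).1)

theorem st_zero : st 0 = (0, 0) := by rw [st]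

theorem st_B (m : ℕ) : st (B m) = (d0 (st m).1, (st m).2) := by
  rcases Nat.eq_zero_or_pos m with rfl | hm
  · rw [B_zero, st_zero]; rfl
  · have h1 := lt_B hm
    obtain ⟨n, hn⟩ : ∃ n, B m = n + 1 := ⟨B m - 1, by omega⟩
    have h2 : M (n + 1) = m := by rw [← hn]; exact M_eq le_rfl (B_lt_succ m)
    rw [hn, st, h2, if_pos hn]

theorem st_B_succ {m : ℕ} (hm : f m = false) :
    st (B m + 1) = (d1 (st m).1, (st m).2 + o1 (st m).1) := by
  have h2 : M (B m + 1) = m := M_eq (by omega) (by rw [B_succ_false hm]; omega)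
  rw [st, h2, if_neg (by omega)]

/-- The state at a position. -/
def q (m : ℕ) : ℕ := (st m).1

/-- The potential at a position. -/
def A (m : ℕ) : ℕ := (st m).2

theorem q_zero : q 0 = 0 := by simp [q, st_zero]
theorem A_zero : A 0 = 0 := by simp [A, st_zero]
theorem q_B (m : ℕ) : q (B m) = d0 (q m) := by simp [q, st_B]
theorem A_B (m : ℕ) : A (B m) = A m := by simp [A, st_B]
theorem q_B_succ {m : ℕ} (hm : f m = false) : q (B m + 1) = d1 (q m) := by simp [q, st_B_succ hm]
theorem A_B_succ {m : ℕ} (hm : f m = false) : A (B m + 1) = A m + o1 (q m) := by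
  simp [A, q, st_B_succ hm]

theorem q_spec (n : ℕ) : q n < 10 ∧ nb (q n) = f n := by
  induction n using Nat.strong_induction_on with
  | _ n ih =>
    rcases Nat.eq_zero_or_pos n with rfl | hn
    · rw [q_zero]; exact ⟨by omega, rfl⟩
    · obtain ⟨m, rfl | ⟨rfl, hm⟩⟩ := exists_B n
      · have hm : m < B m := by
          rcases Nat.eq_zero_or_pos m with rfl | hm
          · exact absurd B_zero (by omega)
          · exact lt_B hm
        obtain ⟨h1, _⟩ := ih m hm
        rw [q_B, f_B]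
        exact d0_lt _ h1
      · have h0 := le_B m
        obtain ⟨h1, h2⟩ := ih m (by omega)
        rw [q_B_succ hm, f_B_succ hm]
        rw [hm] at h2
        exact ⟨(d1_lt _ h1).1, (d1_lt _ h1).2 h2⟩

theorem q_lt (n : ℕ) : q n < 10 := (q_spec n).1
theorem nb_q (n : ℕ) : nb (q n) = f n := (q_spec n).2

/-- Nonemptiness flag. -/
def ne (i j : ℕ) : ℕ := if i = j then 0 else 1

/-- Letter flag. -/
def yl (x : Bool) : ℕ := if x then 1 else 0

theorem ne_lt (i j : ℕ) : ne i j < 2 := by unfold ne; split <;> omega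

def P0 (i j : ℕ) : Prop := ∃ e, A j + 2 = A i + e ∧ mem0 (q i) (q j) e (ne i j) = true

def P1 (i j : ℕ) : Prop :=
  ∃ e, A (j + 1) + 2 = A i + e ∧ mem1 (q i) (q (j + 1)) e (yl (f j)) (ne i j) = true

theorem P1_empty (i : ℕ) (ih : ∀ m, m < i → P1 m m) : P1 i i := by
  obtain ⟨m, rfl | ⟨rfl, hm⟩⟩ := exists_B i
  · cases hm : f m
    · refine ⟨2 + o1 (q m), ?_, ?_⟩
      · rw [A_B_succ hm, A_B]; omega
      · rw [q_B, q_B_succ hm, f_B]
        have := c8 (q m) (q_lt m) (by rw [nb_q, hm])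
        simpa [ne, yl] using this
    · have hlt : m < B m := by
        rcases Nat.eq_zero_or_pos m with rfl | h0
        · rw [f_zero] at hm; exact absurd hm (by decide)
        · exact lt_B h0
      obtain ⟨e, he1, he2⟩ := ih m hlt
      rw [hm] at he2
      refine ⟨e, ?_, ?_⟩
      · rw [← B_succ_true hm, A_B, A_B]; exact he1
      · rw [← B_succ_true hm, q_B, q_B, f_B]
        have := c9 (q m) (q_lt m) (q (m + 1)) (q_lt _) e (mem1_lt he2) (by simpa [ne, yl] using he2)
        simpa [ne, yl] using this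
  · have hlt : m < B m + 1 := by have := le_B m; omega
    obtain ⟨e, he1, he2⟩ := ih m hlt
    rw [hm] at he2
    obtain ⟨h1, h2⟩ := c10 (q m) (q_lt m) (q (m + 1)) (q_lt _) e (mem1_lt he2)
      (by simpa [ne, yl] using he2) (by rw [nb_q, hm])
    have h3 : B m + 1 + 1 = B (m + 1) := by rw [B_succ_false hm]
    refine ⟨e - o1 (q m), ?_, ?_⟩
    · rw [h3, A_B, A_B_succ hm]; omega
    · rw [h3, q_B, q_B_succ hm, f_B_succ hm]
      simpa [ne, yl] using h2

theorem potential (j : ℕ) : ∀ i, pal i j → P0 i j ∧ P1 i j := by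
  induction j using Nat.strong_induction_on with
  | _ j ih =>
    intro i hp
    rcases hp.1.eq_or_lt with rfl | hij
    · refine ⟨⟨2, rfl, ?_⟩, P1_empty i (fun m hm => (ih m hm m (pal_refl m)).2)⟩
      have := c11 (q i) (q_lt i)
      simpa [ne] using this
    · have hne : ne i j = 1 := by unfold ne; rw [if_neg (by omega)]
      rcases pal_desub hp hij with ⟨m1, m2, rfl, rfl, h12, hp'⟩ | ⟨m1, m2, rfl, rfl, hm1, h12, hp'⟩
      · have hlt : m2 < B m2 + 1 := by have := le_B m2; omega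
        obtain ⟨⟨e, he1, he2⟩, ⟨e', he1', he2'⟩⟩ := ih m2 hlt m1 hp'
        have hnlt := ne_lt m1 m2
        cases hm2 : f m2
        · constructor
          · refine ⟨e + o1 (q m2), ?_, ?_⟩
            · rw [A_B_succ hm2, A_B]; omega
            · rw [hne, q_B, q_B_succ hm2]
              exact c1 _ (q_lt _) _ (q_lt _) e (mem0_lt he2) _ hnlt he2 (by rw [nb_q, hm2])
          · have h3 : B m2 + 1 + 1 = B (m2 + 1) := by rw [B_succ_false hm2]
            rw [hm2] at he2'
            refine ⟨e', ?_, ?_⟩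
            · rw [h3, A_B, A_B]; exact he1'
            · rw [hne, h3, q_B, q_B, f_B_succ hm2]
              exact c7 _ (q_lt _) _ (q_lt _) e' (mem1_lt he2') _ hnlt he2'
        · have hm3 := f_succ_of_true hm2
          rw [hm2] at he2'
          constructor
          · refine ⟨e', ?_, ?_⟩
            · rw [← B_succ_true hm2, A_B, A_B]; exact he1'
            · rw [hne, ← B_succ_true hm2, q_B, q_B]
              exact c4 _ (q_lt _) _ (q_lt _) e' (mem1_lt he2') _ hnlt he2'
          · refine ⟨e' + o1 (q (m2 + 1)), ?_, ?_⟩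
            · rw [← B_succ_true hm2, A_B_succ hm3, A_B]; omega
            · rw [hne, ← B_succ_true hm2, q_B, q_B_succ hm3, f_B]
              exact c5 _ (q_lt _) _ (q_lt _) e' (mem1_lt he2') _ hnlt he2' (by rw [nb_q, hm3])
      · have hlt : m2 < B m2 := lt_B (by omega)
        obtain ⟨⟨e, he1, he2⟩, ⟨e', he1', he2'⟩⟩ := ih m2 hlt m1 hp'
        have hne' : ne m1 m2 = 1 := by unfold ne; rw [if_neg (by omega)]
        rw [hne'] at he2 he2'
        have hnb : nb (q m1) = false := by rw [nb_q, hm1]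
        obtain ⟨h2a, h2b⟩ := c2 _ (q_lt m1) _ (q_lt m2) e (mem0_lt he2) he2 hnb
        constructor
        · refine ⟨e - o1 (q m1), ?_, ?_⟩
          · rw [A_B_succ hm1, A_B]; omega
          · rw [hne, q_B, q_B_succ hm1]; exact h2b
        · cases hm2 : f m2
          · refine ⟨e + o1 (q m2) - o1 (q m1), ?_, ?_⟩
            · rw [A_B_succ hm1, A_B_succ hm2]; omega
            · rw [hne, q_B_succ hm1, q_B_succ hm2, f_B]
              exact c3 _ (q_lt _) _ (q_lt _) e (mem0_lt he2) he2 hnb (by rw [nb_q, hm2])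
          · rw [hm2] at he2'
            obtain ⟨h6a, h6b⟩ := c6 _ (q_lt m1) _ (q_lt (m2 + 1)) e' (mem1_lt he2') he2' hnb
            refine ⟨e' - o1 (q m1), ?_, ?_⟩
            · rw [A_B_succ hm1, ← B_succ_true hm2, A_B]; omega
            · rw [hne, q_B_succ hm1, ← B_succ_true hm2, q_B, f_B]; exact h6b

/-- `Reach k n`: the prefix of length `n` is a product of `k` (possibly empty) palindromes. -/
def Reach : ℕ → ℕ → Prop
  | 0, n => n = 0
  | k + 1, n => ∃ c, Reach k c ∧ pal c n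

theorem Reach_potential (k : ℕ) : ∀ n, Reach k n →
    (k % 2 = 0 → A n ≤ k) ∧ (k % 2 = 1 → A n + ba (q n) ≤ k + 1) := by
  induction k with
  | zero =>
    intro n h
    have : n = 0 := h
    subst this
    exact ⟨fun _ => by rw [A_zero], fun h => by omega⟩
  | succ k ih =>
    rintro n ⟨c, hc, hp⟩
    obtain ⟨h1, h2⟩ := ih c hc
    obtain ⟨⟨e, he1, he2⟩, _⟩ := potential n c hp
    obtain ⟨h3, h4⟩ := c12 _ (q_lt c) _ (q_lt n) e (mem0_lt he2) _ (ne_lt _ _) he2
    constructor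
    · intro hk
      have := h2 (by omega)
      omega
    · intro hk
      have := h1 (by omega)
      omega

theorem A_le_of_Reach {k n : ℕ} (h : Reach k n) : A n ≤ k + 1 := by
  obtain ⟨h1, h2⟩ := Reach_potential k n h
  rcases Nat.mod_two_eq_zero_or_one k with h3 | h3
  · have := h1 h3; omega
  · have := h2 h3; omega

/-- The positions with Zeckendorf representation `(100)^k`. -/
def sp : ℕ → ℕ
  | 0 => 0
  | k + 1 => B (B (B (sp k) + 1))

theorem f_sp (k : ℕ) : f (sp k) = false := by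
  cases k with
  | zero => exact f_zero
  | succ k => exact f_B _

theorem sp_state (k : ℕ) : A (sp k) = k ∧ (q (sp k) = 0 ∨ q (sp k) = 3) := by
  induction k with
  | zero => exact ⟨A_zero, Or.inl q_zero⟩
  | succ k ih =>
    obtain ⟨h1, h2⟩ := ih
    have hf := f_sp k
    unfold sp
    rw [A_B, A_B, A_B_succ hf, q_B, q_B, q_B_succ hf, h1]
    rcases h2 with h2 | h2 <;> rw [h2] <;> exact ⟨rfl, by decide⟩

/-- The lower bound. -/
theorem lower {r k : ℕ} (h : Reach r (sp k)) : k ≤ r + 1 := by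
  have := A_le_of_Reach h
  rwa [(sp_state k).1] at this

theorem sp_rec (k : ℕ) : sp (k + 1) = 2 * B (sp k) + sp k + 3 ∧
    B (sp (k + 1)) = 3 * B (sp k) + 2 * sp k + 5 := by
  have hf := f_sp k
  have h1 : B (B (sp k) + 1) = B (sp k) + sp k + 2 := by
    rw [B_succ_false (f_B _), B_B]
  have h2 : sp (k + 1) = 2 * B (sp k) + sp k + 3 := by
    show B (B (B (sp k) + 1)) = _
    rw [B_B, h1]; omega
  refine ⟨h2, ?_⟩
  show B (B (B (B (sp k) + 1))) = _
  rw [B_B (B (B (sp k) + 1)), B_B, h1]; omega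

end Pool.Agent.R10.FibWord
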