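import Pool.Agent.R10.FibLower

/-!
# The upper bound for the prefix palindromic length of the Fibonacci word
-/

namespace Pool.Agent.R10.FibWord

theorem Reach_succ {k n : ℕ} (h : Reach k n) : Reach (k + 1) n := ⟨n, h, pal_refl n⟩

theorem Reach_mono {k l n : ℕ} (h : Reach k n) (hkl : k ≤ l) : Reach l n := by
  induction l, hkl using Nat.le_induction with
  | base => exact h
  | succ l _ ih => exact Reach_succ ih

/-- If a palindrome has a palindromic suffix, the complementary prefix is a product of two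
palindromes. -/
theorem twoPal (k : ℕ) : ∀ i j, i ≤ j → j ≤ k → pal i k → pal j k →
    ∃ h, i ≤ h ∧ h ≤ j ∧ pal i h ∧ pal h j := by
  induction k using Nat.strong_induction_on with
  | _ k ih =>
    intro i j hij hjk hik hjk'
    rcases hij.eq_or_lt with rfl | hlt
    · exact ⟨i, le_rfl, le_rfl, pal_refl i, pal_refl i⟩
    · by_cases hk : k ≤ j + (j - i)
      · refine ⟨i + (k - j), by omega, by omega, ⟨by omega, ?_⟩, ?_⟩
        · intro x y hx hy hxy
          have h1 := hik.2 x (i + k - 1 - x) hx (by omega) (by omega)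
          have h2 := hik.2 y (i + k - 1 - y) hy (by omega) (by omega)
          have h3 := hjk'.2 (i + k - 1 - x) (i + k - 1 - y) (by omega) (by omega) (by omega)
          rw [h1, h2, h3]
        · exact pal_centre hik (by omega) (by omega) (by omega)
      · have hk' : j ≤ k - (j - i) := by omega
        apply ih (k - (j - i)) (by omega) i j hij hk'
        · refine ⟨by omega, ?_⟩
          intro x y hx hy hxy
          have a1 := hik.2 x (i + k - 1 - x) hx (by omega) (by omega)
          have a2 := hjk'.2 (i + k - 1 - x) (x + (j - i)) (by omega) (by omega) (by omega)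
          have b1 := hik.2 y (i + k - 1 - y) hy (by omega) (by omega)
          have b2 := hjk'.2 (i + k - 1 - y) (y + (j - i)) (by omega) (by omega) (by omega)
          have c1 := hjk'.2 (x + (j - i)) (y + (j - i)) (by omega) (by omega) (by omega)
          rw [a1, a2, b1, b2, c1]
        · exact pal_centre hik hk' (by omega) (by omega)

/-- A backward step can be replaced. -/
theorem Reach_back (d : ℕ) : ∀ j e, Reach j d → pal e d → Reach (j + 1) e := by
  induction d using Nat.strong_induction_on with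
  | _ d ihd =>
    intro j
    induction j with
    | zero =>
      intro e h he
      have h0 : d = 0 := h
      have : e = 0 := by have := he.1; omega
      subst this
      exact ⟨0, rfl, pal_refl 0⟩
    | succ j ihj =>
      rintro e ⟨c, hc, hcd⟩ he
      rcases hcd.1.eq_or_lt with rfl | hlt
      · exact Reach_succ (ihj e hc he)
      · rcases le_total c e with hce | hce
        · obtain ⟨h, _, _, h1, h2⟩ := twoPal d c e hce he.1 hcd he
          exact ⟨h, ⟨c, hc, h1⟩, h2⟩
        · obtain ⟨h, h3, h4, h1, h2⟩ := twoPal d e c hce hcd.1 he hcd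
          have h5 : Reach (j + 1) h := ihd c hlt j h hc h2
          exact ihd h (by omega) (j + 1) e h5 h1

/-- Undirected palindromic steps. -/
def upal (i j : ℕ) : Prop := pal i j ∨ pal j i

theorem upal_refl (i : ℕ) : upal i i := Or.inl (pal_refl i)

/-- Undirected palindromic paths with exactly `k` steps. -/
def Steps : ℕ → ℕ → ℕ → Prop
  | 0, i, j => i = j
  | k + 1, i, j => ∃ c, Steps k i c ∧ upal c j

theorem Steps_trans {a b i j l : ℕ} (h1 : Steps a i j) (h2 : Steps b j l) :
    Steps (a + b) i l := by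
  induction b generalizing l with
  | zero => have : j = l := h2; subst this; exact h1
  | succ b ih =>
    obtain ⟨c, hc, hcl⟩ := h2
    exact ⟨c, ih hc, hcl⟩

theorem Steps_Reach (k : ℕ) : ∀ n, Steps k 0 n → Reach k n := by
  induction k with
  | zero => intro n h; exact (show (0 : ℕ) = n from h).symm
  | succ k ih =>
    rintro n ⟨c, hc, h | h⟩
    · exact ⟨c, ih c hc, h⟩
    · exact Reach_back c k n (ih c hc) h

theorem upal_lift {i j : ℕ} (h : upal i j) : upal (B i) (B j + 1) ∧ upal (B i + 1) (B j) := by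
  have key : ∀ i j, pal i j → upal (B i) (B j + 1) ∧ upal (B i + 1) (B j) := by
    intro i j hp
    refine ⟨Or.inl (pal_lift hp), ?_⟩
    rcases hp.1.eq_or_lt with rfl | hlt
    · exact Or.inr (pal_one _)
    · exact Or.inl (pal_lift' hp hlt)
  rcases h with h | h
  · exact key i j h
  · obtain ⟨h1, h2⟩ := key j i h
    exact ⟨h2.symm, h1.symm⟩

theorem Steps_lift (k : ℕ) : ∀ m, Steps k 0 m → Steps k 0 (B m + k % 2) := by
  induction k with
  | zero => intro m h; have : 0 = m := h; subst this; exact (rfl : (0:ℕ) = 0)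
  | succ k ih =>
    rintro m ⟨c, hc, h⟩
    refine ⟨B c + k % 2, ih c hc, ?_⟩
    obtain ⟨h1, h2⟩ := upal_lift h
    rcases Nat.mod_two_eq_zero_or_one k with hk | hk
    · rw [hk, show (k + 1) % 2 = 1 by omega]; exact h1
    · rw [hk, show (k + 1) % 2 = 0 by omega]; exact h2

/-- The odd lift. -/
def g (x : ℕ) : ℕ := B x + 1

theorem Steps_iter_even {k m : ℕ} (s : ℕ) (hk : k % 2 = 0) (h : Steps k 0 m) :
    Steps k 0 (B^[s] m) := by
  induction s with
  | zero => exact h
  | succ s ih =>
    rw [Function.iterate_succ_apply']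
    have := Steps_lift k _ ih
    rwa [hk] at this

theorem Steps_iter_odd {k m : ℕ} (s : ℕ) (hk : k % 2 = 1) (h : Steps k 0 m) :
    Steps k 0 (g^[s] m) := by
  induction s with
  | zero => exact h
  | succ s ih =>
    rw [Function.iterate_succ_apply']
    have := Steps_lift k _ ih
    rwa [hk] at this

theorem iter_seg (s m n : ℕ) :
    phi^[s] (seg m n) = seg (B^[s] m) (phi^[s] (seg m n)).length ∧
      B^[s] (m + n) = B^[s] m + (phi^[s] (seg m n)).length := by
  induction s with
  | zero => simp [length_seg]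
  | succ s ih =>
    obtain ⟨h1, h2⟩ := ih
    simp only [Function.iterate_succ_apply']
    generalize hL : (phi^[s] (seg m n)).length = L at h1 h2
    rw [h1, h2]
    exact ⟨phi_seg _ _, B_add _ _⟩

theorem seg_succ (m n : ℕ) : seg m (n + 1) = seg m n ++ [f (m + n)] := by
  simp [seg, List.range_succ]

/-- The palindromic prefixes. -/
def ws : ℕ → List Bool
  | 0 => []
  | s + 1 => phi (ws s) ++ [false]

theorem ws_spec (s m : ℕ) : seg (B^[s] m) (ws s).length = ws s ∧
    g^[s] m = B^[s] m + (ws s).length := by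
  induction s with
  | zero => simp [ws, seg]
  | succ s ih =>
    obtain ⟨h1, h2⟩ := ih
    simp only [Function.iterate_succ_apply', ws, List.length_append, List.length_singleton]
    have h3 := phi_seg (B^[s] m) (ws s).length
    have h4 := B_add (B^[s] m) (ws s).length
    rw [h1] at h3 h4
    constructor
    · rw [seg_succ, ← h3, ← h4, f_B]
    · rw [h2]; unfold g; rw [h4]; omega

theorem ws_six : (ws 6).length = 32 := by decide

/-- The factors of length three. -/
def F3 : List (List Bool) :=
  [[false, false, true], [false, true, false], [true, false, false], [true, false, true]]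

theorem F3_closed : ∀ u ∈ F3, (phi u).take 3 ∈ F3 ∧ ((phi u).drop 1).take 3 ∈ F3 ∧
    4 ≤ (phi u).length := by decide

theorem seg_take {m n k : ℕ} (h : k ≤ n) : (seg m n).take k = seg m k := by
  apply List.ext_getElem
  · simp [seg, h]
  · intro i h1 h2
    simp [seg]

theorem seg_drop {m n k : ℕ} : (seg m n).drop k = seg (m + k) (n - k) := by
  apply List.ext_getElem
  · simp [seg]
  · intro i h1 h2
    simp [seg, Nat.add_assoc]

theorem seg_mem_F3 (n : ℕ) : seg n 3 ∈ F3 := by
  induction n using Nat.strong_induction_on with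
  | _ n ih =>
    rcases Nat.eq_zero_or_pos n with rfl | hn
    · decide
    · obtain ⟨m, rfl | ⟨rfl, hm⟩⟩ := exists_B n
      · have hm : m < B m := by
          rcases Nat.eq_zero_or_pos m with rfl | hm
          · exact absurd B_zero (by omega)
          · exact lt_B hm
        obtain ⟨h1, _, h3⟩ := F3_closed _ (ih m hm)
        rw [phi_seg, seg_take (by omega)] at h1
        exact h1
      · have h0 := le_B m
        obtain ⟨_, h2, h3⟩ := F3_closed _ (ih m (by omega))
        rw [phi_seg, seg_drop, seg_take (by omega)] at h2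
        exact h2

/-- Palindrome test inside a word. -/
def isP (w : List Bool) (i j : ℕ) : Bool :=
  (w.drop (min i j)).take (max i j - min i j) ==
    ((w.drop (min i j)).take (max i j - min i j)).reverse

theorem pal_of_seg {p n : ℕ} (h : seg p n = (seg p n).reverse) : pal p (p + n) := by
  refine ⟨by omega, fun x y hx hy hxy => ?_⟩
  have h1 : x - p < (seg p n).length := by rw [length_seg]; omega
  have h2 : (seg p n)[x - p]'h1 = (seg p n).reverse[x - p]'(by rw [List.length_reverse]; exact h1) := by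
    congr 1
  rw [List.getElem_reverse, seg_getElem, seg_getElem, length_seg] at h2
  rw [show x = p + (x - p) by omega, h2]
  congr 1
  omega

theorem isP_sound {p n i j : ℕ} (hi : i ≤ n) (hj : j ≤ n) (h : isP (seg p n) i j = true) :
    upal (p + i) (p + j) := by
  unfold isP at h
  rw [beq_iff_eq, seg_drop, seg_take (by omega)] at h
  have h1 := pal_of_seg h
  rcases le_total i j with hij | hij
  · left
    rw [min_eq_left hij, max_eq_right hij] at h1
    rwa [show p + i + (j - i) = p + j by omega] at h1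
  · right
    rw [min_eq_right hij, max_eq_left hij] at h1
    rwa [show p + j + (i - j) = p + i by omega] at h1

/-- Checking a witness. -/
def okE (w : List Bool) (P : List ℕ) (c e : ℕ) (x : ℕ × ℕ × ℕ × ℕ) : Bool :=
  decide (x.1 < 4) && decide (x.2.1 < 2) && decide (P.getD x.1 0 + 32 * x.2.1 ≤ w.length) &&
    decide (c ≤ w.length) && decide (x.2.2.2 ≤ w.length) && decide ((x.2.1 + x.2.2.1) % 2 = e) &&
    match x.2.2.1 with
    | 0 => decide (P.getD x.1 0 + 32 * x.2.1 = c)
    | 1 => isP w (P.getD x.1 0 + 32 * x.2.1) c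
    | 2 => isP w (P.getD x.1 0 + 32 * x.2.1) x.2.2.2 && isP w x.2.2.2 c
    | _ => false

/-- Checking a table: the entry of `(c, e)` has index `2 * (c - P 2) + e`. -/
def okT (w : List Bool) (P : List ℕ) (T : List (ℕ × ℕ × ℕ × ℕ)) : Bool :=
  (List.range (P.getD 3 0 - P.getD 2 0)).all fun o =>
    okE w P (P.getD 2 0 + o) 0 (T.getD (2 * o) (0, 0, 0, 0)) &&
    okE w P (P.getD 2 0 + o) 1 (T.getD (2 * o + 1) (0, 0, 0, 0))

def w_aab : List Bool := [false, true, false, false, true, false, true, false, false, true, false, false, true, false, true, false, false, true, false, true, false, false, true, false, false, true, false, true, false, false, true, false, false, true, false, true, false, false, true, false, true, false, false, true, false, false, true, false, true, false, false, true, false, false, true]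

def t_aab : List (ℕ × ℕ × ℕ × ℕ) := [(2, 0, 0, 0), (2, 0, 1, 0), (2, 0, 2, 42), (2, 0, 1, 0), (1, 0, 2, 40), (0, 1, 2, 35), (2, 0, 2, 42), (2, 0, 1, 0), (2, 0, 2, 41), (1, 1, 2, 47), (1, 1, 1, 0), (1, 1, 2, 53), (2, 0, 2, 42), (2, 0, 1, 0), (2, 0, 2, 48), (1, 1, 2, 54), (1, 1, 1, 0), (0, 1, 2, 37), (3, 0, 2, 55), (3, 0, 1, 0), (1, 1, 1, 0), (0, 1, 2, 35), (1, 1, 1, 0), (1, 1, 0, 0), (1, 1, 1, 0), (3, 0, 1, 0)]

def w_aba : List Bool := [false, true, false, false, true, false, true, false, false, true, false, false, true, false, true, false, false, true, false, true, false, false, true, false, false, true, false, true, false, false, true, false, false, true, false, true, false, false, true, false, true, false, false, true, false, false, true, false, true, false, false, true, false, true, false]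

def t_aba : List (ℕ × ℕ × ℕ × ℕ) := [(2, 0, 0, 0), (2, 0, 1, 0), (0, 1, 1, 0), (2, 0, 1, 0), (2, 0, 2, 33), (0, 1, 2, 33), (0, 1, 1, 0), (2, 0, 1, 0), (2, 0, 2, 37), (0, 1, 2, 31), (1, 0, 2, 22), (0, 1, 2, 35), (1, 0, 2, 21), (1, 0, 1, 0), (1, 0, 2, 40), (0, 1, 2, 33), (0, 1, 1, 0), (0, 1, 2, 32), (3, 0, 2, 52), (0, 1, 2, 31), (1, 0, 2, 40), (0, 1, 2, 35), (2, 0, 2, 34), (2, 0, 1, 0), (2, 0, 2, 45), (1, 1, 2, 54), (1, 1, 1, 0), (1, 1, 2, 53), (2, 0, 2, 45), (0, 1, 2, 26), (3, 0, 2, 50), (1, 1, 2, 50), (1, 1, 1, 0), (3, 0, 1, 0), (3, 0, 2, 54), (1, 1, 2, 52), (1, 1, 1, 0), (3, 0, 1, 0), (1, 1, 1, 0), (1, 1, 0, 0), (1, 1, 1, 0), (3, 0, 1, 0)]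

def w_baa : List Bool := [false, true, false, false, true, false, true, false, false, true, false, false, true, false, true, false, false, true, false, true, false, false, true, false, false, true, false, true, false, false, true, false, true, false, false, true, false, false, true, false, true, false, false, true, false, false, true, false, true, false, false, true, false, true, false]

def t_baa : List (ℕ × ℕ × ℕ × ℕ) := [(2, 0, 0, 0), (2, 0, 1, 0), (2, 0, 2, 34), (2, 0, 1, 0), (0, 1, 1, 0), (0, 1, 2, 32), (2, 0, 2, 34), (2, 0, 1, 0), (2, 0, 2, 33), (0, 1, 2, 33), (0, 1, 1, 0), (0, 1, 2, 32), (2, 0, 2, 34), (2, 0, 1, 0), (2, 0, 2, 40), (1, 1, 2, 46), (1, 1, 1, 0), (0, 1, 2, 29), (3, 0, 2, 52), (0, 1, 2, 36), (1, 1, 1, 0), (1, 1, 2, 45), (1, 1, 1, 0), (1, 1, 0, 0), (1, 1, 1, 0), (0, 1, 2, 33), (0, 1, 1, 0), (0, 1, 2, 32), (1, 1, 1, 0), (0, 1, 2, 31), (3, 0, 2, 50), (1, 1, 2, 46), (1, 1, 1, 0), (3, 0, 1, 0), (3, 0, 2, 54), (0, 1, 2, 36), (2, 0, 2, 35), (3, 0, 1, 0), (2, 0, 2, 34), (2, 0, 1, 0),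 (2, 0, 2, 53), (3, 0, 1, 0)]

def w_bab : List Bool := [false, true, false, false, true, false, true, false, false, true, false, false, true, false, true, false, false, true, false, true, false, false, true, false, false, true, false, true, false, false, true, false, true, false, false, true, false, false, true, false, true, false, false, true, false, false, true]

def t_bab : List (ℕ × ℕ × ℕ × ℕ) := [(2, 0, 0, 0), (2, 0, 1, 0), (2, 0, 2, 34), (2, 0, 1, 0), (0, 1, 1, 0), (0, 1, 2, 32), (2, 0, 2, 34), (2, 0, 1, 0), (2, 0, 2, 33), (0, 1, 2, 33), (0, 1, 1, 0), (0, 1, 2, 32), (2, 0, 2, 34), (2, 0, 1, 0), (2, 0, 2, 40), (1, 1, 2, 46), (1, 1, 1, 0), (0, 1, 2, 29), (3, 0, 2, 47), (3, 0, 1, 0), (1, 1, 1, 0), (1, 1, 2, 45), (1, 1, 1, 0), (1, 1, 0, 0), (1, 1, 1, 0), (3, 0, 1, 0)]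

theorem ok_aab : okT w_aab [0, 21, 42, 55] t_aab = true := by decide
theorem ok_aba : okT w_aba [0, 21, 34, 55] t_aba = true := by decide
theorem ok_baa : okT w_baa [0, 13, 34, 55] t_baa = true := by decide
theorem ok_bab : okT w_bab [0, 13, 34, 47] t_bab = true := by decide

/-- The positions of the blocks inside `φ^6(u)`. -/
def PP (u : List Bool) : List ℕ := (List.range 4).map fun t => (phi^[6] (u.take t)).length

theorem all_ok : ∀ u ∈ F3, ∃ T, okT (phi^[6] u) (PP u) T = true := by
  intro u hu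
  simp only [F3, List.mem_cons, List.not_mem_nil, or_false] at hu
  rcases hu with rfl | rfl | rfl | rfl
  · refine ⟨t_aab, ?_⟩
    rw [show phi^[6] [false, false, true] = w_aab by decide,
      show PP [false, false, true] = [0, 21, 42, 55] by decide]
    exact ok_aab
  · refine ⟨t_aba, ?_⟩
    rw [show phi^[6] [false, true, false] = w_aba by decide,
      show PP [false, true, false] = [0, 21, 34, 55] by decide]
    exact ok_aba
  · refine ⟨t_baa, ?_⟩
    rw [show phi^[6] [true, false, false] = w_baa by decide,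
      show PP [true, false, false] = [0, 13, 34, 55] by decide]
    exact ok_baa
  · refine ⟨t_bab, ?_⟩
    rw [show phi^[6] [true, false, true] = w_bab by decide,
      show PP [true, false, true] = [0, 13, 34, 47] by decide]
    exact ok_bab


theorem okE_sound {b N c e : ℕ} {P : List ℕ} {x : ℕ × ℕ × ℕ × ℕ}
    (h : okE (seg b N) P c e x = true) :
    ∃ t < 4, ∃ e0 < 2, ∃ k ≤ 2, (e0 + k) % 2 = e ∧
      Steps k (b + (P.getD t 0 + 32 * e0)) (b + c) := by
  obtain ⟨t, e0, k, mid⟩ := x
  unfold okE at h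
  simp only [length_seg, Bool.and_eq_true, decide_eq_true_eq] at h
  obtain ⟨⟨⟨⟨⟨⟨h1, h2⟩, h3⟩, h4⟩, h5⟩, h6⟩, h7⟩ := h
  refine ⟨t, h1, e0, h2, ?_⟩
  match k, h6, h7 with
  | 0, h6, h7 =>
    simp only [decide_eq_true_eq] at h7
    exact ⟨0, by omega, h6, by rw [h7]; rfl⟩
  | 1, h6, h7 =>
    exact ⟨1, by omega, h6, _, rfl, isP_sound h3 h4 h7⟩
  | 2, h6, h7 =>
    simp only [Bool.and_eq_true] at h7
    exact ⟨2, le_rfl, h6, _, ⟨_, rfl, isP_sound h3 h5 h7.1⟩, isP_sound h5 h4 h7.2⟩
  | k + 3, h6, h7 => exact absurd h7 (by simp)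

theorem PP_getD (u : List Bool) {t : ℕ} (ht : t < 4) :
    (PP u).getD t 0 = (phi^[6] (u.take t)).length := by
  unfold PP
  rw [List.getD_eq_getElem?_getD, List.getElem?_map, List.getElem?_range ht]
  rfl

theorem local_step {p c e : ℕ} (h1 : B^[6] (p + 2) ≤ c) (h2 : c < B^[6] (p + 3)) (he : e < 2) :
    ∃ t ≤ 3, ∃ e0 < 2, ∃ k ≤ 2, (e0 + k) % 2 = e ∧ Steps k (B^[6] (p + t) + 32 * e0) c := by
  obtain ⟨T, hT⟩ := all_ok _ (seg_mem_F3 p)
  have hpos : ∀ t, t < 4 → B^[6] (p + t) = B^[6] p + (PP (seg p 3)).getD t 0 := by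
    intro t ht
    rw [PP_getD _ ht, seg_take (by omega)]
    exact (iter_seg 6 p t).2
  have hw := (iter_seg 6 p 3).1
  rw [hw] at hT
  have hP2 := hpos 2 (by omega)
  have hP3 := hpos 3 (by omega)
  unfold okT at hT
  rw [List.all_eq_true] at hT
  have hm := hT (c - B^[6] (p + 2)) (List.mem_range.mpr (by omega))
  rw [Bool.and_eq_true] at hm
  have hc : (PP (seg p 3)).getD 2 0 + (c - B^[6] (p + 2)) = c - B^[6] p := by omega
  rw [hc] at hm
  have hfin : ∃ t < 4, ∃ e0 < 2, ∃ k ≤ 2, (e0 + k) % 2 = e ∧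
      Steps k (B^[6] p + ((PP (seg p 3)).getD t 0 + 32 * e0)) (B^[6] p + (c - B^[6] p)) := by
    have he' : e = 0 ∨ e = 1 := by omega
    rcases he' with rfl | rfl
    · exact okE_sound hm.1
    · exact okE_sound hm.2
  obtain ⟨t, ht, e0, he0, k, hk, hmod, hS⟩ := hfin
  refine ⟨t, by omega, e0, he0, k, hk, hmod, ?_⟩
  rw [hpos t ht]
  rwa [show B^[6] p + (c - B^[6] p) = c by omega, ← Nat.add_assoc] at hS

/-- `Tb K c`: both parities are available within `K` steps. -/
def Tb (K c : ℕ) : Prop := ∀ e < 2, ∃ k ≤ K, k % 2 = e ∧ Steps k 0 c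

theorem Tb_mono {K L c : ℕ} (h : Tb K c) (hKL : K ≤ L) : Tb L c := by
  intro e he
  obtain ⟨k, h1, h2, h3⟩ := h e he
  exact ⟨k, h1.trans hKL, h2, h3⟩

theorem Steps_id (c : ℕ) : Steps c 0 c := by
  induction c with
  | zero => exact (rfl : (0:ℕ) = 0)
  | succ c ih => exact ⟨c, ih, Or.inl (pal_one c)⟩

theorem Tb_triv (c : ℕ) : Tb (c + 1) c := by
  intro e he
  by_cases h : c % 2 = e
  · exact ⟨c, by omega, h, Steps_id c⟩
  · exact ⟨c + 1, le_rfl, by omega, c, Steps_id c, upal_refl c⟩

theorem Tb_step {p c K : ℕ} (h1 : B^[6] (p + 2) ≤ c) (h2 : c < B^[6] (p + 3))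
    (h : ∀ t ≤ 3, Tb K (p + t)) : Tb (K + 2) c := by
  intro e he
  obtain ⟨t, ht, e0, he0, k, hk, hmod, hS⟩ := local_step h1 h2 he
  obtain ⟨k', hk', hpar, hS'⟩ := h t ht e0 he0
  refine ⟨k' + k, by omega, by omega, Steps_trans ?_ hS⟩
  have he' : e0 = 0 ∨ e0 = 1 := by omega
  rcases he' with rfl | rfl
  · simpa using Steps_iter_even 6 hpar hS'
  · have := Steps_iter_odd 6 hpar hS'
    rw [(ws_spec 6 (p + t)).2, ws_six] at this
    simpa using this

theorem B6_gap (x : ℕ) : B^[6] x + 2 ≤ B^[6] (x + 1) := by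
  rw [(iter_seg 6 x 1).2]
  have : seg x 1 = [f x] := by simp [seg]
  rw [this]
  cases f x
  · have : (phi^[6] [false]).length = 21 := by decide
    omega
  · have : (phi^[6] [true]).length = 13 := by decide
    omega

theorem B6_strictMono : StrictMono (B^[6]) := B_strictMono.iterate 6

theorem B6_two : B^[6] 2 = 34 := by
  have h := (iter_seg 6 0 2).2
  have h1 : seg 0 2 = [false, true] := by decide
  have h2 : (phi^[6] [false, true]).length = 34 := by decide
  have h3 : B^[6] 0 = 0 := Function.iterate_fixed B_zero 6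
  rw [h1, h2, h3] at h
  simpa using h

theorem exists_block (c : ℕ) : ∃ m, B^[6] m ≤ c ∧ c < B^[6] (m + 1) := by
  induction c with
  | zero =>
    have h3 : B^[6] 0 = 0 := Function.iterate_fixed B_zero 6
    refine ⟨0, by omega, ?_⟩
    have := B6_gap 0
    omega
  | succ c ih =>
    obtain ⟨m, h1, h2⟩ := ih
    rcases Nat.lt_or_ge (c + 1) (B^[6] (m + 1)) with h3 | h3
    · exact ⟨m, by omega, h3⟩
    · refine ⟨m + 1, h3, ?_⟩
      have := B6_gap (m + 1)
      omega

theorem Tb_main (j : ℕ) : ∀ c, c < B^[6 * j] 1 + 2 → Tb (2 * j + 40) c := by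
  induction j with
  | zero =>
    intro c hc
    simp only [Nat.mul_zero, Function.iterate_zero, id_eq] at hc
    exact Tb_mono (Tb_triv c) (by omega)
  | succ j ih =>
    intro c hc
    rw [show 6 * (j + 1) = 6 + 6 * j by ring, Function.iterate_add_apply] at hc
    have h1 := B6_gap (B^[6 * j] 1)
    obtain ⟨m, hm1, hm2⟩ := exists_block c
    have h2 : m < B^[6 * j] 1 + 1 := B6_strictMono.lt_iff_lt.mp (by omega)
    rcases Nat.lt_or_ge m 2 with hm | hm
    · have h3 : B^[6] (m + 1) ≤ B^[6] 2 := B6_strictMono.monotone (by omega)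
      rw [B6_two] at h3
      exact Tb_mono (Tb_triv c) (by omega)
    · obtain ⟨p, rfl⟩ : ∃ p, m = p + 2 := ⟨m - 2, by omega⟩
      rw [show 2 * (j + 1) + 40 = (2 * j + 40) + 2 by ring]
      exact Tb_step hm1 hm2 fun t ht => ih _ (by omega)

/-- The upper bound. -/
theorem upper {j n : ℕ} (h : n < B^[6 * j] 1) : Reach (2 * j + 41) n := by
  obtain ⟨k, hk, _, hS⟩ := Tb_main j n (by omega) 0 (by omega)
  exact Reach_mono (Steps_Reach k n hS) (by omega)

end Pool.Agent.R10.FibWord
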