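import Mathlib

/-!
# The Fibonacci word: desubstitution and palindromes

`false` stands for the letter `a`, `true` for the letter `b`.
-/

namespace Pool.Agent.R10.FibWord

/-- The images of the letters: `a ↦ ab`, `b ↦ a`. -/
def phi1 : Bool → List Bool
  | false => [false, true]
  | true => [false]

/-- The Fibonacci morphism on words. -/
def phi (w : List Bool) : List Bool := w.flatMap phi1

/-- The Fibonacci word (letters indexed from `0`). -/
def f (n : ℕ) : Bool := (phi^[n + 1] [false]).getD n false

/-- The prefix of length `n`. -/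
def prefixWord (n : ℕ) : List Bool := (List.range n).map f

theorem phi_append (u v : List Bool) : phi (u ++ v) = phi u ++ phi v := by
  simp [phi, List.flatMap_append]

theorem phi_prefix {u v : List Bool} (h : u <+: v) : phi u <+: phi v := by
  obtain ⟨w, rfl⟩ := h
  exact ⟨phi w, (phi_append u w).symm⟩

/-- The words `φ^k(a)`. -/
def W (k : ℕ) : List Bool := phi^[k] [false]

theorem W_succ (k : ℕ) : W (k + 1) = phi (W k) := by
  simp [W, Function.iterate_succ_apply']

theorem W_prefix_succ (k : ℕ) : W k <+: W (k + 1) := by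
  induction k with
  | zero => exact ⟨[true], rfl⟩
  | succ k ih =>
    rw [W_succ (k + 1), W_succ k]
    rw [W_succ k] at ih
    exact phi_prefix ih

theorem W_prefix {k l : ℕ} (h : k ≤ l) : W k <+: W l := by
  induction l, h using Nat.le_induction with
  | base => exact List.prefix_refl _
  | succ l _ ih => exact ih.trans (W_prefix_succ l)

theorem W_head (k : ℕ) : ∃ t, W k = false :: t := by
  obtain ⟨t, ht⟩ := W_prefix (Nat.zero_le k)
  exact ⟨t, by rw [← ht]; rfl⟩

theorem length_phi (w : List Bool) : (phi w).length = w.length + w.count false := by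
  induction w with
  | nil => rfl
  | cons x t ih =>
    have : phi (x :: t) = phi1 x ++ phi t := by simp [phi]
    rw [this, List.length_append, ih]
    cases x <;> simp [phi1] <;> omega

theorem length_W (k : ℕ) : k + 1 ≤ (W k).length := by
  induction k with
  | zero => simp [W]
  | succ k ih =>
    rw [W_succ, length_phi]
    obtain ⟨t, ht⟩ := W_head k
    have : 1 ≤ (W k).count false := by rw [ht]; simp
    omega

theorem W_getElem (k n : ℕ) (h : n < (W k).length) : (W k)[n] = f n := by
  have h1 : n < (W (n + 1)).length := lt_of_lt_of_le (by omega) (length_W (n + 1))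
  have h2 : f n = (W (n + 1))[n] := by
    unfold f
    change (W (n + 1)).getD n false = _
    rw [List.getD_eq_getElem?_getD, List.getElem?_eq_getElem h1]
    rfl
  rw [h2]
  rcases le_total k (n + 1) with h3 | h3
  · obtain ⟨t, ht⟩ := W_prefix h3
    simp only [← ht]
    rw [List.getElem_append_left h]
  · obtain ⟨t, ht⟩ := W_prefix h3
    simp only [← ht]
    rw [List.getElem_append_left h1]

theorem length_prefixWord (n : ℕ) : (prefixWord n).length = n := by
  simp [prefixWord]

theorem prefixWord_eq_take {k n : ℕ} (h : n ≤ (W k).length) : prefixWord n = (W k).take n := by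
  apply List.ext_getElem
  · simp [prefixWord, h]
  · intro i h1 h2
    simp only [prefixWord, List.getElem_map, List.getElem_range, List.getElem_take]
    rw [W_getElem]

/-- Each `φ^k(a)` is a prefix of the Fibonacci word. -/
theorem prefixWord_W (k : ℕ) : prefixWord (W k).length = W k := by
  rw [prefixWord_eq_take le_rfl, List.take_length]

/-- The position in front of the image of the `m`-th letter. -/
def B (m : ℕ) : ℕ := (phi (prefixWord m)).length

theorem phi_prefixWord (m : ℕ) : phi (prefixWord m) = prefixWord (B m) := by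
  have h1 : m ≤ (W m).length := by have := length_W m; omega
  have h2 : prefixWord m <+: W m := by
    rw [prefixWord_eq_take h1]; exact List.take_prefix _ _
  have h3 := phi_prefix h2
  rw [← W_succ] at h3
  have h4 : B m ≤ (W (m + 1)).length := h3.length_le
  rw [prefixWord_eq_take h4]
  exact List.prefix_iff_eq_take.mp h3

theorem prefixWord_succ (m : ℕ) : prefixWord (m + 1) = prefixWord m ++ [f m] := by
  simp [prefixWord, List.range_succ]

theorem phi_singleton (x : Bool) : phi [x] = phi1 x := by simp [phi]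

theorem B_zero : B 0 = 0 := rfl

theorem B_succ (m : ℕ) : B (m + 1) = B m + (phi1 (f m)).length := by
  unfold B
  rw [prefixWord_succ, phi_append, List.length_append, phi_singleton]

theorem B_succ_false {m : ℕ} (h : f m = false) : B (m + 1) = B m + 2 := by
  rw [B_succ, h]; rfl

theorem B_succ_true {m : ℕ} (h : f m = true) : B (m + 1) = B m + 1 := by
  rw [B_succ, h]; rfl

theorem prefixWord_add (m n : ℕ) :
    prefixWord (m + n) = prefixWord m ++ (List.range n).map (fun t => f (m + t)) := by
  induction n with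
  | zero => simp
  | succ n ih =>
    rw [← Nat.add_assoc, prefixWord_succ, ih, List.range_succ]
    simp

/-- The factor of length `n` at position `m`. -/
def seg (m n : ℕ) : List Bool := (List.range n).map (fun t => f (m + t))

theorem length_seg (m n : ℕ) : (seg m n).length = n := by simp [seg]

theorem seg_getElem (m n i : ℕ) (h : i < (seg m n).length) : (seg m n)[i] = f (m + i) := by
  simp [seg]

theorem B_add (m n : ℕ) : B (m + n) = B m + (phi (seg m n)).length := by
  unfold B
  rw [prefixWord_add, phi_append, List.length_append]; rfl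

theorem phi_seg (m n : ℕ) : phi (seg m n) = seg (B m) (phi (seg m n)).length := by
  have h : phi (prefixWord (m + n)) = prefixWord (B m + (phi (seg m n)).length) := by
    rw [phi_prefixWord, B_add]
  rw [prefixWord_add, phi_append, phi_prefixWord, prefixWord_add] at h
  exact List.append_cancel_left h

theorem f_B (m : ℕ) : f (B m) = false := by
  have h := phi_seg m 1
  have h2 : seg m 1 = [f m] := by simp [seg]
  rw [h2, phi_singleton] at h
  have h3 : (phi1 (f m))[0]? = (seg (B m) (phi1 (f m)).length)[0]? := by rw [← h]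
  cases hx : f m <;> rw [hx] at h3 <;> simp [phi1, seg] at h3 <;> exact h3

theorem f_B_succ {m : ℕ} (hm : f m = false) : f (B m + 1) = true := by
  have h := phi_seg m 1
  have h2 : seg m 1 = [f m] := by simp [seg]
  rw [h2, phi_singleton, hm] at h
  simp [phi1, seg, List.range_succ] at h
  exact h.2

theorem B_lt_succ (m : ℕ) : B m < B (m + 1) := by
  cases h : f m
  · rw [B_succ_false h]; omega
  · rw [B_succ_true h]; omega

theorem B_strictMono : StrictMono B := strictMono_nat_of_lt_succ B_lt_succ

theorem f_zero : f 0 = false := by rfl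

theorem B_one : B 1 = 2 := by rw [show (1:ℕ) = 0 + 1 from rfl, B_succ_false f_zero, B_zero]

theorem lt_B {m : ℕ} (h : 1 ≤ m) : m < B m := by
  induction m, h using Nat.le_induction with
  | base => rw [B_one]; omega
  | succ n _ ih => have := B_lt_succ n; omega

theorem le_B (m : ℕ) : m ≤ B m := B_strictMono.id_le m

/-- Every position is `B m` or, if the `m`-th letter is `a`, `B m + 1`. -/
theorem exists_B (n : ℕ) : ∃ m, n = B m ∨ (n = B m + 1 ∧ f m = false) := by
  induction n with
  | zero => exact ⟨0, Or.inl rfl⟩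
  | succ n ih =>
    obtain ⟨m, rfl | ⟨rfl, hm⟩⟩ := ih
    · cases h : f m
      · exact ⟨m, Or.inr ⟨rfl, h⟩⟩
      · exact ⟨m + 1, Or.inl (B_succ_true h).symm⟩
    · exact ⟨m + 1, Or.inl (by rw [B_succ_false hm])⟩

theorem eq_B_of_false {n : ℕ} (h : f n = false) : ∃ m, n = B m := by
  obtain ⟨m, rfl | ⟨rfl, hm⟩⟩ := exists_B n
  · exact ⟨m, rfl⟩
  · rw [f_B_succ hm] at h; exact absurd h (by decide)

theorem eq_B_of_true {n : ℕ} (h : f n = true) : ∃ m, n = B m + 1 ∧ f m = false := by
  obtain ⟨m, rfl | ⟨rfl, hm⟩⟩ := exists_B n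
  · rw [f_B] at h; exact absurd h (by decide)
  · exact ⟨m, rfl, hm⟩

/-- No two consecutive `b`. -/
theorem f_succ_of_true {n : ℕ} (h : f n = true) : f (n + 1) = false := by
  obtain ⟨m, rfl, hm⟩ := eq_B_of_true h
  rw [show B m + 1 + 1 = B (m + 1) by rw [B_succ_false hm]]
  exact f_B _

theorem B_B (m : ℕ) : B (B m) = B m + m := by
  induction m with
  | zero => rfl
  | succ m ih =>
    cases h : f m
    · rw [B_succ_false h]
      rw [show B m + 2 = B m + 1 + 1 from rfl, B_succ_true (f_B_succ h), B_succ_false (f_B m), ih]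
      omega
    · rw [B_succ_true h, B_succ_false (f_B m), ih]
      omega

/-- Letters read symmetrically. -/
def pal (i j : ℕ) : Prop := i ≤ j ∧ ∀ x y, i ≤ x → i ≤ y → x + y + 1 = i + j → f x = f y

theorem pal_refl (i : ℕ) : pal i i := ⟨le_rfl, fun x y h1 h2 h3 => by omega⟩

theorem pal_one (i : ℕ) : pal i (i + 1) :=
  ⟨by omega, fun x y h1 h2 h3 => by rw [show x = y by omega]⟩

theorem pal_sub {i j : ℕ} (h : pal i j) (hij : i + 1 < j ∨ i + 2 = j) : pal (i + 1) (j - 1) :=
  ⟨by omega, fun x y h1 h2 h3 => h.2 x y (by omega) (by omega) (by omega)⟩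

/-- A centred sub-palindrome. -/
theorem pal_centre {i j i' j' : ℕ} (h : pal i j) (h1 : i' ≤ j') (h2 : i ≤ i') (h3 : i + j = i' + j') :
    pal i' j' :=
  ⟨h1, fun x y h4 h5 h6 => h.2 x y (by omega) (by omega) (by omega)⟩

/-- Desubstitution of symmetric windows. -/
theorem desub {i m1 m2 : ℕ} (h12 : m1 ≤ m2) (hi : i ≤ B m1 + 1) (hi2 : i + 1 ≤ B (m1 + 1))
    (h : ∀ x y, i ≤ x → i ≤ y → x + y + 1 = B m1 + B m2 + 1 → f x = f y) :
    (∀ t, t ≤ m2 - m1 → B (m1 + t) + B (m2 - t) = B m1 + B m2) ∧ pal m1 m2 := by
  have key : ∀ t, t < m2 - m1 → B (m1 + t) + B (m2 - t) = B m1 + B m2 →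
      f (m1 + t) = f (m2 - t - 1) := by
    intro t ht hs
    obtain ⟨y, hy⟩ : ∃ y, m2 - t = y + 1 := ⟨m2 - t - 1, by omega⟩
    rw [hy] at hs ⊢
    have hym : m1 ≤ y := by omega
    have hB : B (m1 + 1) ≤ B (y + 1) := B_strictMono.monotone (by omega)
    have hpos : 1 ≤ B (y + 1) := by have := B_lt_succ y; omega
    have h5 : B m1 ≤ B (m1 + t) := B_strictMono.monotone (by omega)
    have h6 := h (B (m1 + t) + 1) (B (y + 1) - 1) (by omega) (by omega) (by omega)
    have h7 : f (B (m1 + t) + 1) = !(f (m1 + t)) := by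
      cases hx : f (m1 + t)
      · rw [f_B_succ hx]; rfl
      · rw [← B_succ_true hx, f_B]; rfl
    have h8 : f (B (y + 1) - 1) = !(f y) := by
      cases hx : f y
      · rw [B_succ_false hx, show B y + 2 - 1 = B y + 1 by omega, f_B_succ hx]; rfl
      · rw [B_succ_true hx, show B y + 1 - 1 = B y by omega, f_B]; rfl
    rw [h7, h8] at h6
    have : f (m1 + t) = f y := by
      revert h6; cases f (m1 + t) <;> cases f y <;> simp
    simpa using this
  have hsum : ∀ t, t ≤ m2 - m1 → B (m1 + t) + B (m2 - t) = B m1 + B m2 := by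
    intro t
    induction t with
    | zero => intro _; simp
    | succ t ih =>
      intro ht
      have h1 := ih (by omega)
      have h2 := key t (by omega) h1
      obtain ⟨y, hy⟩ : ∃ y, m2 - t = y + 1 := ⟨m2 - t - 1, by omega⟩
      rw [hy] at h1 h2
      rw [show m2 - (t + 1) = y by omega, ← Nat.add_assoc, B_succ]
      rw [B_succ y] at h1
      simp only [Nat.add_sub_cancel] at h2
      rw [h2]; omega
  refine ⟨hsum, h12, fun x y hx hy hxy => ?_⟩
  have h1 := key (x - m1) (by omega) (hsum _ (by omega))
  rw [show m1 + (x - m1) = x by omega, show m2 - (x - m1) - 1 = y by omega] at h1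
  exact h1

theorem pal_sum {m1 m2 : ℕ} (h : pal m1 m2) :
    ∀ t, t ≤ m2 - m1 → B (m1 + t) + B (m2 - t) = B m1 + B m2 := by
  intro t
  induction t with
  | zero => intro _; simp
  | succ t ih =>
    intro ht
    have h1 := ih (by omega)
    obtain ⟨y, hy⟩ : ∃ y, m2 - t = y + 1 := ⟨m2 - t - 1, by omega⟩
    have h2 : f (m1 + t) = f y := h.2 _ _ (by omega) (by omega) (by omega)
    rw [hy] at h1
    rw [show m2 - (t + 1) = y by omega, ← Nat.add_assoc, B_succ]
    rw [B_succ y] at h1
    rw [h2]; omega

/-- Lifting palindromes. -/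
theorem pal_lift {m1 m2 : ℕ} (h : pal m1 m2) : pal (B m1) (B m2 + 1) := by
  have hm : B m1 ≤ B m2 := B_strictMono.monotone h.1
  refine ⟨by omega, ?_⟩
  have hsum := pal_sum h
  intro X Y hX hY hXY
  obtain ⟨x, rfl | ⟨rfl, hx⟩⟩ := exists_B X
  · have h1 : m1 ≤ x := B_strictMono.le_iff_le.mp hX
    have h2 : x ≤ m2 := B_strictMono.le_iff_le.mp (by omega)
    have h3 := hsum (x - m1) (by omega)
    rw [show m1 + (x - m1) = x by omega] at h3
    rw [f_B, show Y = B (m2 - (x - m1)) by omega, f_B]
  · have h1 : m1 ≤ x := by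
      by_contra hc
      have : B (x + 1) ≤ B m1 := B_strictMono.monotone (by omega)
      rw [B_succ_false hx] at this
      omega
    have h2 : x < m2 := B_strictMono.lt_iff_lt.mp (by omega)
    have h3 := hsum (x - m1) (by omega)
    rw [show m1 + (x - m1) = x by omega] at h3
    obtain ⟨y, hy⟩ : ∃ y, m2 - (x - m1) = y + 1 := ⟨m2 - (x - m1) - 1, by omega⟩
    rw [hy] at h3
    have h4 : f x = f y := h.2 x y h1 (by omega) (by omega)
    rw [hx] at h4
    rw [B_succ_false h4.symm] at h3
    rw [f_B_succ hx, show Y = B y + 1 by omega, f_B_succ h4.symm]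

theorem pal_lift' {m1 m2 : ℕ} (h : pal m1 m2) (hlt : m1 < m2) : pal (B m1 + 1) (B m2) := by
  have h1 := pal_lift h
  have h2 : B m1 < B m2 := B_strictMono hlt
  exact pal_centre h1 (by omega) (by omega) (by omega)

/-- Desubstitution of nonempty palindromes. -/
theorem pal_desub {i j : ℕ} (h : pal i j) (hij : i < j) :
    (∃ m1 m2, i = B m1 ∧ j = B m2 + 1 ∧ m1 ≤ m2 ∧ pal m1 m2) ∨
    (∃ m1 m2, i = B m1 + 1 ∧ j = B m2 ∧ f m1 = false ∧ m1 < m2 ∧ pal m1 m2) := by
  have hlast : f i = f (j - 1) := h.2 i (j - 1) le_rfl (by omega) (by omega)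
  cases hi : f i
  · left
    obtain ⟨m1, rfl⟩ := eq_B_of_false hi
    rw [hi] at hlast
    obtain ⟨m2, hm2⟩ := eq_B_of_false hlast.symm
    have hj : j = B m2 + 1 := by omega
    subst hj
    have h12 : m1 ≤ m2 := B_strictMono.le_iff_le.mp (by omega)
    refine ⟨m1, m2, rfl, rfl, h12, ?_⟩
    have h3 := B_lt_succ m1
    exact (desub (i := B m1) h12 (by omega) (by omega)
      (fun x y hx hy hxy => h.2 x y hx hy (by omega))).2
  · right
    obtain ⟨m1, rfl, hm1⟩ := eq_B_of_true hi
    rw [hi] at hlast
    obtain ⟨m', hm2, hm'⟩ := eq_B_of_true hlast.symm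
    have hj : j = B (m' + 1) := by rw [B_succ_false hm']; omega
    subst hj
    have h12 : m1 ≤ m' + 1 := by
      have : B m1 ≤ B (m' + 1) := by omega
      exact B_strictMono.le_iff_le.mp this
    have h12' : m1 < m' + 1 := by
      rcases h12.lt_or_eq with h4 | h4
      · exact h4
      · rw [h4] at hij; omega
    refine ⟨m1, m' + 1, rfl, rfl, hm1, h12', ?_⟩
    exact (desub (i := B m1 + 1) h12 (by omega) (by rw [B_succ_false hm1])
      (fun x y hx hy hxy => h.2 x y hx hy (by omega))).2

end Pool.Agent.R10.FibWord
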