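import Mathlib

/-!
Induced trees built one vertex at a time.
-/

namespace Pool.Agent.R10.IndTree

open SimpleGraph

variable {V : Type*} {G : SimpleGraph V}

/-- Vertex sets (with their number of elements) obtained from a single vertex by adding, one at a
time, a new vertex with exactly one neighbour in the set already built. -/
inductive IT (G : SimpleGraph V) : Set V → ℕ → Prop
  | single (v : V) : IT G {v} 1
  | add {S : Set V} {n : ℕ} (z : V) (h : IT G S n) (hz : z ∉ S)
      (y : V) (hy : y ∈ S) (hzy : G.Adj z y) (hu : ∀ s ∈ S, G.Adj z s → s = y) :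
      IT G (insert z S) (n + 1)

theorem IT.congr {S S' : Set V} {n n' : ℕ} (h : IT G S n) (hS : S = S') (hn : n = n') :
    IT G S' n' := by
  subst hS; subst hn; exact h

/-- Joining two such sets by exactly one edge. -/
theorem IT.join {S : Set V} {n : ℕ} (h : IT G S n) :
    ∀ (R : Set V) (m : ℕ) (r s : V), IT G R m → (∀ a ∈ R, a ∉ S) → r ∈ R → s ∈ S → G.Adj r s →
      (∀ a ∈ R, ∀ b ∈ S, G.Adj a b → a = r ∧ b = s) → IT G (R ∪ S) (m + n) := by
  induction h with
  | single v =>
    intro R m r s hR hd hr hs hrs hu
    have hsv : s = v := by simpa using hs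
    subst hsv
    refine (IT.add s hR (fun hh => hd s hh (by simp)) r hr hrs.symm ?_).congr ?_ rfl
    · intro a ha hsa
      exact (hu a ha s (by simp) hsa.symm).1
    · ext x; simp [or_comm]
  | @add S0 n0 z h0 hz y hy hzy hyu ih =>
    intro R m r s hR hd hr hs hrs hu
    rcases (Set.mem_insert_iff.mp hs) with hsz | hs0
    · subst hsz
      -- edge between R and S is (r, z)
      have hzR : s ∉ R := fun hh => hd s hh (by simp)
      have hR' : IT G (insert s R) (m + 1) := by
        refine IT.add s hR hzR r hr hrs.symm ?_
        intro a ha hsa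
        exact (hu a ha s (by simp) hsa.symm).1
      have := ih (insert s R) (m + 1) s y hR' ?_ (by simp) hy hzy ?_
      · refine this.congr ?_ (by omega)
        ext x; simp only [Set.mem_union, Set.mem_insert_iff]; tauto
      · intro a ha haS
        rcases Set.mem_insert_iff.mp ha with rfl | ha
        · exact hz haS
        · exact hd a ha (by simp [haS])
      · intro a ha b hb hab
        rcases Set.mem_insert_iff.mp ha with rfl | ha
        · exact ⟨rfl, hyu b hb hab⟩
        · exfalso
          have := hu a ha b (by simp [hb]) hab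
          exact hz (this.2 ▸ hb)
    · have h1 := ih R m r s hR (fun a ha haS => hd a ha (by simp [haS])) hr hs0 hrs
        (fun a ha b hb hab => hu a ha b (by simp [hb]) hab)
      refine (IT.add z h1 ?_ y (by simp [hy]) hzy ?_).congr ?_ (by omega)
      · intro hzRS
        rcases hzRS with hzR | hzS
        · exact hd z hzR (by simp)
        · exact hz hzS
      · intro a ha hza
        rcases ha with haR | haS
        · exfalso
          have := hu a haR z (by simp) hza.symm
          exact hz (this.2.symm ▸ hs0)
        · exact hyu a haS hza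
      · ext x; simp only [Set.mem_union, Set.mem_insert_iff]; tauto

/-- A set with an induced path structure. -/
theorem IT.path (t : ℕ → V) (lo : ℕ) (k : ℕ)
    (hinj : ∀ i j, lo ≤ i → i < j → j ≤ lo + k → t i ≠ t j)
    (hadj : ∀ i j, lo ≤ i → i < j → j ≤ lo + k → (G.Adj (t i) (t j) ↔ j = i + 1)) :
    IT G {w | ∃ i, lo ≤ i ∧ i ≤ lo + k ∧ w = t i} (k + 1) := by
  induction k with
  | zero =>
    refine (IT.single (t lo)).congr ?_ rfl
    ext w; simp only [Set.mem_singleton_iff, Set.mem_setOf_eq]
    constructor
    · rintro rfl; exact ⟨lo, le_refl _, by omega, rfl⟩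
    · rintro ⟨i, h1, h2, rfl⟩
      have : i = lo := by omega
      rw [this]
  | succ k ih =>
    have h0 := ih (fun i j h1 h2 h3 => hinj i j h1 h2 (by omega))
      (fun i j h1 h2 h3 => hadj i j h1 h2 (by omega))
    refine (IT.add (t (lo + k + 1)) h0 ?_ (t (lo + k)) ⟨lo + k, by omega, by omega, rfl⟩ ?_ ?_).congr
      ?_ rfl
    · rintro ⟨i, h1, h2, h3⟩
      exact hinj i (lo + k + 1) h1 (by omega) (by omega) h3.symm
    · exact ((hadj (lo + k) (lo + k + 1) (by omega) (by omega) (by omega)).mpr rfl).symm
    · rintro s ⟨i, h1, h2, rfl⟩ had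
      have := (hadj i (lo + k + 1) h1 (by omega) (by omega)).mp had.symm
      have : i = lo + k := by omega
      rw [this]
    · ext w; simp only [Set.mem_insert_iff, Set.mem_setOf_eq]
      constructor
      · rintro (rfl | ⟨i, h1, h2, rfl⟩)
        · exact ⟨lo + k + 1, by omega, by omega, rfl⟩
        · exact ⟨i, h1, by omega, rfl⟩
      · rintro ⟨i, h1, h2, rfl⟩
        by_cases hi : i = lo + k + 1
        · left; rw [hi]
        · right; exact ⟨i, h1, by omega, rfl⟩

theorem IT.nonempty {S : Set V} {n : ℕ} (h : IT G S n) : S.Nonempty := by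
  cases h with
  | single v => exact ⟨v, by simp⟩
  | add z h hz y hy hzy hu => exact ⟨z, by simp⟩

theorem IT.pos {S : Set V} {n : ℕ} (h : IT G S n) : 1 ≤ n := by
  cases h <;> omega

/-- no cycle of `G` has its support inside `S`. -/
theorem IT.no_cycle {S : Set V} {n : ℕ} (h : IT G S n) :
    ∀ (u : V) (c : G.Walk u u), c.IsCycle → ¬ (∀ x ∈ c.support, x ∈ S) := by
  classical
  induction h with
  | single v =>
    intro u c hc hs
    have h1 := hc.three_le_length
    have hu : u = v := by simpa using hs u c.start_mem_support
    cases c with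
    | nil => simp at h1
    | cons hadj p =>
      rename_i w
      have hw : w = v := by
        have := hs w (by simp)
        simpa using this
      rw [hu, hw] at hadj
      exact G.irrefl hadj
  | @add S0 n0 z h0 hz y hy hzy hyu ih =>
    intro u c hc hs
    by_cases hzc : z ∈ c.support
    · -- rotate
      have hc' : (c.rotate z hzc).IsCycle := (Walk.isCycle_rotate hzc).mpr hc
      set c' := c.rotate z hzc with hc'def
      have hs' : ∀ x ∈ c'.support, x ∈ insert z S0 := by
        intro x hx
        exact hs x ((Walk.mem_support_rotate_iff c z hzc).mp hx)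
      have h1 : G.Adj z c'.snd := c'.adj_snd hc'.not_nil
      have h2 : G.Adj c'.penultimate z := c'.adj_penultimate hc'.not_nil
      have h3 : c'.snd ≠ c'.penultimate := hc'.snd_ne_penultimate
      have h4 : c'.snd ∈ c'.support := Walk.getVert_mem_support _ _
      have h5 : c'.penultimate ∈ c'.support := Walk.getVert_mem_support _ _
      have h6 : c'.snd ∈ S0 := by
        rcases Set.mem_insert_iff.mp (hs' _ h4) with h | h
        · exact absurd h h1.ne'
        · exact h
      have h7 : c'.penultimate ∈ S0 := by
        rcases Set.mem_insert_iff.mp (hs' _ h5) with h | h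
        · exact absurd h h2.ne
        · exact h
      exact h3 ((hyu _ h6 h1).trans (hyu _ h7 h2.symm).symm)
    · refine ih u c hc ?_
      intro x hx
      rcases Set.mem_insert_iff.mp (hs x hx) with h | h
      · exact absurd (h ▸ hx) hzc
      · exact h

theorem IT.connected {S : Set V} {n : ℕ} (h : IT G S n) : (G.induce S).Connected := by
  induction h with
  | single v =>
    have : Subsingleton ({v} : Set V) := by infer_instance
    have : Nonempty ({v} : Set V) := ⟨⟨v, by simp⟩⟩
    exact (IsTree.of_subsingleton (V := ({v} : Set V))).connected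
  | @add S0 n0 z h0 hz y hy hzy hyu ih =>
    have := induce_union_connected (G := G) (s := {z, y}) (t := S0) ?_ ih.preconnected ⟨y, by simp, hy⟩
    · have he : ({z, y} : Set V) ∪ S0 = insert z S0 := by
        ext x; simp only [Set.mem_union, Set.mem_insert_iff, Set.mem_singleton_iff]
        constructor
        · rintro ((h | h) | h)
          · exact Or.inl h
          · exact Or.inr (h ▸ hy)
          · exact Or.inr h
        · rintro (h | h)
          · exact Or.inl (Or.inl h)
          · exact Or.inr h
      rw [← he]; exact this
    · exact (induce_pair_connected_of_adj hzy).preconnected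

theorem IT.isTree {S : Set V} {n : ℕ} (h : IT G S n) : (G.induce S).IsTree := by
  refine ⟨h.connected, ?_⟩
  intro u c hc
  have hc' : (c.map (Embedding.induce (G := G) S).toHom).IsCycle := by
    rw [Walk.map_isCycle_iff_of_injective]
    · exact hc
    · exact (Embedding.induce (G := G) S).injective
  refine h.no_cycle _ _ hc' ?_
  intro x hx
  rw [Walk.support_map] at hx
  obtain ⟨a, ha, rfl⟩ := List.mem_map.mp hx
  exact a.2

theorem IT.exists_finset {S : Set V} {n : ℕ} (h : IT G S n) :
    ∃ F : Finset V, F.card = n ∧ (F : Set V) = S := by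
  classical
  induction h with
  | single v => exact ⟨{v}, by simp, by simp⟩
  | @add S0 n0 z h0 hz y hy hzy hyu ih =>
    obtain ⟨F, h1, h2⟩ := ih
    refine ⟨insert z F, ?_, by simp [h2]⟩
    rw [Finset.card_insert_of_notMem, h1]
    intro hh
    exact hz (h2 ▸ (Finset.mem_coe.mpr hh))

end Pool.Agent.R10.IndTree
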