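import Pool.Agent.R10.IndepSeq

/-!
# Filling one level of an independence sequence exactly
-/

namespace Pool.Agent.R10.IndepSeq

open Polynomial Finset

theorem coeff_pow_lin (b t i : ℕ) : ((1 + C b * X : ℕ[X]) ^ t).coeff i = t.choose i * b ^ i := by
  have h : (1 + C b * X : ℕ[X]) ^ t = ((1 + X) ^ t).comp (C b * X) := by
    simp
  rw [h, comp_C_mul_X_coeff, coeff_one_add_X_pow]
  simp

/-- the level inequality for `(1 + bX)^t` -/
theorem lin_step (b t i : ℕ) :
    b * ((1 + C b * X : ℕ[X]) ^ t).coeff i ≤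
      t * ((1 + C b * X : ℕ[X]) ^ t).coeff (i + 1) + (if i = t then b ^ (t + 1) else 0) := by
  rw [coeff_pow_lin, coeff_pow_lin]
  rcases lt_trichotomy i t with h | h | h
  · rw [if_neg (by omega), add_zero]
    have h1 : t.choose i ≤ t * t.choose (i + 1) := by
      have h2 := Nat.choose_succ_right_eq t i
      have h3 : t.choose i * 1 ≤ t.choose i * (t - i) := Nat.mul_le_mul_left _ (by omega)
      have h4 : t.choose (i + 1) * (i + 1) ≤ t.choose (i + 1) * t := Nat.mul_le_mul_left _ (by omega)
      nlinarith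
    calc b * (t.choose i * b ^ i) = t.choose i * b ^ (i + 1) := by ring
      _ ≤ (t * t.choose (i + 1)) * b ^ (i + 1) := Nat.mul_le_mul_right _ h1
      _ = _ := by ring
  · subst h
    rw [if_pos rfl, Nat.choose_self]
    have : b * (1 * b ^ i) = b ^ (i + 1) := by ring
    omega
  · rw [if_neg (by omega), Nat.choose_eq_zero_of_lt h]
    simp

theorem coeff_g (q d r : ℕ) : ((1 + X : ℕ[X]) ^ q * (1 + C d * X)).coeff r ≤
    if r = 0 then 1 else 2 ^ q * (1 + d) := by
  rw [mul_add, coeff_add, mul_one]
  rcases r with _ | r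
  · have h := coeff_one_add_X_pow ℕ q 0
    simp [h]
  · rw [if_neg (by omega), ← mul_assoc, coeff_mul_X, coeff_mul_C, coeff_one_add_X_pow,
      coeff_one_add_X_pow]
    have h1 : q.choose (r + 1) ≤ 2 ^ q := Nat.choose_le_two_pow _ _
    have h2 : q.choose r ≤ 2 ^ q := Nat.choose_le_two_pow _ _
    simp only [Nat.cast_id]
    nlinarith

/-- a piece: disjoint union of `q` single vertices, a clique of size `d`,
and `t` cliques of size `b`. -/
noncomputable def piece (q d b t : ℕ) : ℕ[X] := (1 + X) ^ q * (1 + C d * X) * (1 + C b * X) ^ t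

theorem piece_rp (q d b t : ℕ) : Rp (piece q d b t) := by
  unfold piece
  apply Rp.mul_pow
  apply Rp.mul
  have := Rp.one.mul_pow 1 q
  simpa using this

theorem natDegree_lin (a : ℕ) : (1 + C a * X : ℕ[X]).natDegree ≤ 1 := by
  refine (natDegree_add_le _ _).trans ?_
  rw [natDegree_one]
  have h := natDegree_C_mul_X_pow_le a 1
  rw [pow_one] at h
  exact max_le (by norm_num) h

theorem piece_top (q d b t : ℕ) : (piece q d b t).coeff (q + 1 + t) = d * b ^ t := by
  unfold piece
  have h1 : ((1 + X : ℕ[X]) ^ q).natDegree ≤ q := by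
    have := natDegree_pow_le_of_le q (natDegree_lin 1)
    simpa using this
  have h2 : ((1 + X : ℕ[X]) ^ q * (1 + C d * X)).natDegree ≤ q + 1 :=
    natDegree_mul_le_of_le h1 (natDegree_lin d)
  have h3 : ((1 + C b * X : ℕ[X]) ^ t).natDegree ≤ t := by
    have := natDegree_pow_le_of_le t (natDegree_lin b)
    simpa using this
  rw [coeff_mul_add_eq_of_natDegree_le h2 h3, coeff_mul_add_eq_of_natDegree_le h1 (natDegree_lin d),
    coeff_pow_lin, coeff_one_add_X_pow]
  simp [coeff_one]

theorem piece_zero (q d b t i : ℕ) (hi : q + 1 + t < i) : (piece q d b t).coeff i = 0 := by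
  apply coeff_eq_zero_of_natDegree_lt
  refine lt_of_le_of_lt ?_ hi
  unfold piece
  have h1 : ((1 + X : ℕ[X]) ^ q).natDegree ≤ q := by
    have := natDegree_pow_le_of_le q (natDegree_lin 1)
    simpa using this
  have h2 : ((1 + X : ℕ[X]) ^ q * (1 + C d * X)).natDegree ≤ q + 1 :=
    natDegree_mul_le_of_le h1 (natDegree_lin d)
  have h3 : ((1 + C b * X : ℕ[X]) ^ t).natDegree ≤ t := by
    have := natDegree_pow_le_of_le t (natDegree_lin b)
    simpa using this
  exact natDegree_mul_le_of_le h2 h3

theorem mul_step (g h : ℕ[X]) (b t c : ℕ)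
    (hh : ∀ i, b * h.coeff i ≤ t * h.coeff (i + 1) + (if i = t then c else 0)) (i : ℕ) :
    b * (g * h).coeff i ≤ t * (g * h).coeff (i + 1) + (if t ≤ i then c * g.coeff (i - t) else 0) := by
  rw [coeff_mul, coeff_mul, Finset.Nat.antidiagonal_succ', Finset.sum_cons, Finset.sum_map]
  simp only [Function.Embedding.prodMap, Function.Embedding.coeFn_mk, Prod.map,
    Function.Embedding.refl_apply, Nat.succ_eq_add_one]
  have h1 : b * ∑ x ∈ antidiagonal i, g.coeff x.1 * h.coeff x.2 ≤
      ∑ x ∈ antidiagonal i, (t * (g.coeff x.1 * h.coeff (x.2 + 1)) +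
        g.coeff x.1 * (if x.2 = t then c else 0)) := by
    rw [Finset.mul_sum]
    apply Finset.sum_le_sum
    intro x _
    have := Nat.mul_le_mul_left (g.coeff x.1) (hh x.2)
    nlinarith
  rw [Finset.sum_add_distrib, ← Finset.mul_sum] at h1
  have h2 : ∑ x ∈ antidiagonal i, g.coeff x.1 * (if x.2 = t then c else 0) =
      if t ≤ i then c * g.coeff (i - t) else 0 := by
    by_cases hti : t ≤ i
    · rw [if_pos hti, Finset.sum_eq_single (i - t, t)]
      · simp [mul_comm]
      · rintro ⟨a, e⟩ hx hne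
        rw [Finset.HasAntidiagonal.mem_antidiagonal] at hx
        simp only at hx
        rw [if_neg, mul_zero]
        rintro rfl
        apply hne
        ext
        · simp; omega
        · rfl
      · intro hx
        exfalso
        apply hx
        rw [Finset.HasAntidiagonal.mem_antidiagonal]
        simp only
        omega
    · rw [if_neg hti]
      apply Finset.sum_eq_zero
      rintro ⟨a, e⟩ hx
      rw [Finset.HasAntidiagonal.mem_antidiagonal] at hx
      simp only at hx
      rw [if_neg, mul_zero]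
      simp only
      omega
  rw [h2] at h1
  refine h1.trans ?_
  have h3 : t * ∑ x ∈ antidiagonal i, g.coeff x.1 * h.coeff (x.2 + 1) ≤
      t * (g.coeff (i + 1) * h.coeff 0 + ∑ x ∈ antidiagonal i, g.coeff x.1 * h.coeff (x.2 + 1)) :=
    Nat.mul_le_mul_left _ (Nat.le_add_left _ _)
  omega

/-- error of a piece -/
def err (q b t i : ℕ) : ℕ := if i < t then 0 else if i = t then b ^ (t + 1)
  else b ^ (t + 1) * (2 ^ q * (1 + b))

theorem piece_step (q d b t i : ℕ) (hd : d ≤ b) :
    b * (piece q d b t).coeff i ≤ t * (piece q d b t).coeff (i + 1) + err q b t i := by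
  have h := mul_step ((1 + X) ^ q * (1 + C d * X)) ((1 + C b * X) ^ t) b t (b ^ (t + 1))
    (fun i => lin_step b t i) i
  refine h.trans ?_
  unfold piece err
  apply Nat.add_le_add_left
  by_cases h1 : t ≤ i
  · rw [if_pos h1, if_neg (by omega)]
    have h2 := coeff_g q d (i - t)
    by_cases h3 : i = t
    · rw [if_pos h3]
      rw [if_pos (by omega)] at h2
      calc b ^ (t + 1) * ((1 + X : ℕ[X]) ^ q * (1 + C d * X)).coeff (i - t) ≤ b ^ (t + 1) * 1 :=
            Nat.mul_le_mul_left _ h2
        _ = _ := mul_one _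
    · rw [if_neg h3]
      rw [if_neg (by omega)] at h2
      refine Nat.mul_le_mul_left _ (h2.trans ?_)
      apply Nat.mul_le_mul_left
      omega
  · rw [if_neg h1]
    exact Nat.zero_le _

/-- Filling level `j` exactly by `D`, with digits in base `b`. -/
theorem fill (j b : ℕ) (hb : 1 ≤ b) (T : ℕ) : T ≤ j → ∀ D < b ^ T, ∃ p : ℕ → ℕ, Rf p ∧ p j = D ∧
    (∀ i, j < i → p i = 0) ∧
    ∀ i, b * p i ≤ (j - 1) * p (i + 1) + ∑ t ∈ range T, err (j - 1 - t) b t i := by
  induction T with
  | zero =>
    intro _ D hD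
    have hD0 : D = 0 := by simpa using hD
    subst hD0
    refine ⟨0, Rf.zero, rfl, fun _ _ => rfl, ?_⟩
    intro i
    simp
  | succ T ih =>
    intro hT D hD
    have hbT : 0 < b ^ T := pow_pos hb T
    obtain ⟨p, hp1, hp2, hp3, hp4⟩ := ih (by omega) (D % b ^ T) (Nat.mod_lt _ hbT)
    set d := D / b ^ T with hd
    have hdb : d < b := by
      rw [hd]
      apply Nat.div_lt_of_lt_mul
      rw [← pow_succ]
      exact hD
    have hj : j - 1 - T + 1 + T = j := by omega
    by_cases hd0 : d = 0
    · refine ⟨p, hp1, ?_, hp3, ?_⟩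
      · rw [hp2]
        have := Nat.div_add_mod D (b ^ T)
        rw [← hd, hd0] at this
        simpa using this
      · intro i
        rw [Finset.sum_range_succ]
        have := hp4 i
        omega
    · refine ⟨fun k => p k + (piece (j - 1 - T) d b T).coeff k, ?_, ?_, ?_, ?_⟩
      · exact hp1.add (piece_rp _ _ _ _).rf
      · simp only
        rw [hp2]
        have h := piece_top (j - 1 - T) d b T
        rw [hj] at h
        rw [h]
        have := Nat.div_add_mod D (b ^ T)
        rw [← hd] at this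
        nlinarith
      · intro i hi
        simp only
        rw [hp3 i hi, piece_zero _ _ _ _ _ (by omega)]
      · intro i
        simp only
        rw [Finset.sum_range_succ]
        have h1 := hp4 i
        have h2 := piece_step (j - 1 - T) d b T i hdb.le
        have h3 : T * (piece (j - 1 - T) d b T).coeff (i + 1) ≤
            (j - 1) * (piece (j - 1 - T) d b T).coeff (i + 1) :=
          Nat.mul_le_mul_right _ (by omega)
        nlinarith

/-- bound for the total error -/
theorem err_sum (j b T i : ℕ) (hb : 20 ≤ b) (hT : T ≤ j) (hi : i < j) :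
    ∑ t ∈ range T, err (j - 1 - t) b t i ≤ 2 ^ (j - i + 1) * b ^ (i + 1) := by
  have hS : ∀ n, (b - 2) * ∑ t ∈ range n, 2 ^ (n - t) * b ^ t ≤ 2 * b ^ n := by
    intro n
    induction n with
    | zero => simp
    | succ n ih =>
      rw [Finset.sum_range_succ]
      have h1 : ∑ t ∈ range n, 2 ^ (n + 1 - t) * b ^ t =
          2 * ∑ t ∈ range n, 2 ^ (n - t) * b ^ t := by
        rw [Finset.mul_sum]
        apply Finset.sum_congr rfl
        intro t ht
        rw [Finset.mem_range] at ht
        rw [show n + 1 - t = (n - t) + 1 from by omega, pow_succ]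
        ring
      rw [h1, show n + 1 - n = 1 from by omega, mul_add, pow_one]
      obtain ⟨c, rfl⟩ : ∃ c, b = c + 2 := ⟨b - 2, by omega⟩
      simp only [Nat.add_sub_cancel] at ih ⊢
      rw [pow_succ]
      nlinarith
  have h1 : ∑ t ∈ range T, err (j - 1 - t) b t i ≤ ∑ t ∈ range j, err (j - 1 - t) b t i :=
    Finset.sum_le_sum_of_subset (Finset.range_subset_range.mpr hT)
  refine h1.trans ?_
  have h2 : ∑ t ∈ range j, err (j - 1 - t) b t i = ∑ t ∈ range (i + 1), err (j - 1 - t) b t i := by
    symm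
    apply Finset.sum_subset (Finset.range_subset_range.mpr (by omega))
    intro t _ ht
    rw [Finset.mem_range] at ht
    unfold err
    rw [if_pos (by omega)]
  rw [h2, Finset.sum_range_succ]
  have h3 : err (j - 1 - i) b i i = b ^ (i + 1) := by
    unfold err
    rw [if_neg (by omega), if_pos rfl]
  have h4 : ∑ t ∈ range i, err (j - 1 - t) b t i =
      b * (1 + b) * 2 ^ (j - 1 - i) * ∑ t ∈ range i, 2 ^ (i - t) * b ^ t := by
    rw [Finset.mul_sum]
    apply Finset.sum_congr rfl
    intro t ht
    rw [Finset.mem_range] at ht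
    unfold err
    rw [if_neg (by omega), if_neg (by omega)]
    have : 2 ^ (j - 1 - t) = 2 ^ (j - 1 - i) * 2 ^ (i - t) := by
      rw [← pow_add]
      congr 1
      omega
    rw [this]
    ring
  rw [h3, h4]
  have h5 := hS i
  set S := ∑ t ∈ range i, 2 ^ (i - t) * b ^ t with hSdef
  have h6 : 2 ^ (j - i + 1) = 4 * 2 ^ (j - 1 - i) := by
    rw [show j - i + 1 = (j - 1 - i) + 2 from by omega, pow_add]
    ring
  rw [h6]
  set P := 2 ^ (j - 1 - i) with hP
  have hP1 : 1 ≤ P := Nat.one_le_two_pow
  -- (1+b) S ≤ (7/3) b^i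
  have h7 : 3 * ((1 + b) * S) ≤ 7 * b ^ i := by
    obtain ⟨c, rfl⟩ : ∃ c, b = c + 20 := ⟨b - 20, by omega⟩
    have h8 : (c + 20 - 2) = c + 18 := by omega
    rw [h8] at h5
    nlinarith
  have h9 : b ^ (i + 1) = b * b ^ i := by ring
  rw [h9]
  have h10 : 3 * (b * P * ((1 + b) * S)) ≤ b * P * (7 * b ^ i) := by
    have := Nat.mul_le_mul_left (b * P) h7
    nlinarith
  have h11 : b * b ^ i ≤ P * (b * b ^ i) := by
    nlinarith [Nat.zero_le (b * b ^ i)]
  nlinarith

end Pool.Agent.R10.IndepSeq
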