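import Pool.Agent.R10.IndepMain

/-!
# The first stage and the conclusion
-/

namespace Pool.Agent.R10.IndepSeq

open Polynomial Finset

theorem init_num (m i s : ℕ) (hm : 10 ^ 7 ≤ m) (hi : 1 ≤ i) (hs : 1 ≤ s) (h : i + s = m - 1) :
    2 ^ (m - 1) * (m + 16) + 2 ^ (s + 1) * (m + 15) ^ i ≤ 12 ^ s * m ^ (i + 1) := by
  have h1 := expo 15 m i (by omega) (by omega)
  have hA : 2 * (2 ^ (s + 1) * (m + 15) ^ i) ≤ 12 ^ s * m ^ (i + 1) := by
    calc 2 * (2 ^ (s + 1) * (m + 15) ^ i) ≤ 2 * (2 ^ (s + 1) * (3 ^ 15 * m ^ i)) := by gcongr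
      _ = 2 ^ s * m ^ i * (4 * 3 ^ 15) := by ring
      _ ≤ 2 ^ s * m ^ i * (6 * 10 ^ 7) := Nat.mul_le_mul_left _ (by norm_num)
      _ ≤ 2 ^ s * m ^ i * (6 ^ s * m) := by
          apply Nat.mul_le_mul_left
          apply Nat.mul_le_mul _ hm
          calc 6 = 6 ^ 1 := by norm_num
            _ ≤ 6 ^ s := Nat.pow_le_pow_right (by norm_num) hs
      _ = (2 * 6) ^ s * m ^ (i + 1) := by rw [mul_pow]; ring
      _ = 12 ^ s * m ^ (i + 1) := by norm_num
  have hB : 2 * (2 ^ (m - 1) * (m + 16)) ≤ 12 ^ s * m ^ (i + 1) := by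
    obtain ⟨n, rfl⟩ : ∃ n, m = n + 3 := ⟨m - 3, by omega⟩
    have e1 : n + 3 - 1 = n + 2 := by omega
    rw [e1] at h ⊢
    obtain ⟨j, rfl⟩ : ∃ j, i = j + 1 := ⟨i - 1, by omega⟩
    calc 2 * (2 ^ (n + 2) * (n + 3 + 16)) = 2 ^ n * (8 * (n + 3 + 16)) := by ring
      _ ≤ 12 ^ n * (12 * ((n + 3) * (n + 3))) := by
          apply Nat.mul_le_mul
          · exact Nat.pow_le_pow_left (by norm_num) n
          · have : 100 ≤ n := by
              have : 10 ^ 7 = 10000000 := by norm_num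
              omega
            nlinarith
      _ = 12 ^ (n + 1) * ((n + 3) * (n + 3)) := by ring
      _ = 12 ^ s * 12 ^ j * ((n + 3) * (n + 3)) := by
          rw [← pow_add]
          congr 2
          omega
      _ ≤ 12 ^ s * (n + 3) ^ j * ((n + 3) * (n + 3)) := by
          apply Nat.mul_le_mul_right
          apply Nat.mul_le_mul_left
          apply Nat.pow_le_pow_left
          have : 10 ^ 7 = 10000000 := by norm_num
          omega
      _ = 12 ^ s * (n + 3) ^ (j + 1 + 1) := by ring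
  omega

theorem small_num (m : ℕ) (hm : 10 ^ 7 ≤ m) : m + 2 ^ (m - 1) * (m + 16) ≤ m ^ (m - 2) := by
  have h7 : 10 ^ 7 = 10000000 := by norm_num
  obtain ⟨n, rfl⟩ : ∃ n, m = n + 6 := ⟨m - 6, by omega⟩
  have e1 : n + 6 - 1 = n + 5 := by omega
  have e2 : n + 6 - 2 = n + 4 := by omega
  rw [e1, e2]
  have h1 : 1 ≤ 2 ^ (n + 5) := Nat.one_le_two_pow
  calc n + 6 + 2 ^ (n + 5) * (n + 6 + 16) ≤ 2 ^ (n + 5) * (n + 6) + 2 ^ (n + 5) * (n + 6 + 16) := by
        apply Nat.add_le_add_right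
        nlinarith
    _ = 2 ^ n * (32 * (2 * n + 28)) := by ring
    _ ≤ 8 ^ n * (512 * (n + 6)) := by
        apply Nat.mul_le_mul
        · exact Nat.pow_le_pow_left (by norm_num) n
        · omega
    _ = 8 ^ (n + 3) * (n + 6) := by ring
    _ ≤ (n + 6) ^ (n + 3) * (n + 6) := by
        apply Nat.mul_le_mul_right
        apply Nat.pow_le_pow_left
        omega
    _ = (n + 6) ^ (n + 4) := by ring

theorem beta_num (m : ℕ) (hm : 10 ^ 7 ≤ m) : m ^ (m - 2) + m ≤ (m + 15) ^ (m - 2) := by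
  have h7 : 10 ^ 7 = 10000000 := by norm_num
  obtain ⟨n, rfl⟩ : ∃ n, m = n + 6 := ⟨m - 6, by omega⟩
  have e2 : n + 6 - 2 = n + 3 + 1 := by omega
  rw [e2]
  have h1 : (n + 6) ^ (n + 3) ≤ (n + 6 + 15) ^ (n + 3) := Nat.pow_le_pow_left (by omega) _
  have h2 : n + 6 ≤ (n + 6) ^ (n + 3) := by
    calc n + 6 = (n + 6) ^ 1 := by ring
      _ ≤ (n + 6) ^ (n + 3) := Nat.pow_le_pow_right (by omega) (by omega)
  calc (n + 6) ^ (n + 3 + 1) + (n + 6) ≤ (n + 6) ^ (n + 3) * (n + 6) + (n + 6) ^ (n + 3) := by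
        rw [pow_succ]; omega
    _ ≤ (n + 6) ^ (n + 3) * (n + 6 + 15) := by nlinarith
    _ ≤ (n + 6 + 15) ^ (n + 3) * (n + 6 + 15) := Nat.mul_le_mul_right _ h1
    _ = (n + 6 + 15) ^ (n + 3 + 1) := by ring

theorem stage_init (m : ℕ) (hm : 10 ^ 7 ≤ m) (v : ℕ → ℕ)
    (hv1 : ∀ i, 1 ≤ i → i ≤ m → m ^ m + m ^ (m - 1) ≤ v i)
    (hv2 : ∀ i, 1 ≤ i → i ≤ m → v i < m ^ m + m ^ (m - 1) + m) : Stage m (m - 2) v := by
  have h7 : 10 ^ 7 = 10000000 := by norm_num
  have hm3 : 100 ≤ m := by omega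
  have hm7 : (10000000 : ℝ) ≤ m := by
    have : (10 : ℝ) ^ 7 ≤ m := by exact_mod_cast hm
    linarith [show (10 : ℝ) ^ 7 = 10000000 by norm_num]
  have hm0 : (0 : ℝ) < m := by linarith
  -- level `m`
  obtain ⟨p, hp1, hp2, hp3, hp4⟩ := fill m (m + 15) (by omega) 1 (by omega)
    (v m - (m ^ m + m ^ (m - 1))) (by
      have := hv2 m (by omega) le_rfl
      rw [pow_one]
      omega)
  have hp5 : ∀ i, 1 ≤ i → (m + 15) * p i ≤
      (m - 1) * p (i + 1) + (m + 15) * (2 ^ (m - 1) * (m + 16)) := by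
    intro i hi
    have h := hp4 i
    rw [Finset.sum_range_one] at h
    have he : err (m - 1 - 0) (m + 15) 0 i = (m + 15) * (2 ^ (m - 1) * (m + 16)) := by
      unfold err
      rw [if_neg (by omega), if_neg (by omega), Nat.sub_zero, zero_add, pow_one]
      ring
    rw [he] at h
    exact h
  have hpm : p m < m := by
    rw [hp2]
    have := hv2 m (by omega) le_rfl
    omega
  have hpm1 : p (m - 1) ≤ m ^ (m - 2) := by
    refine le_trans ?_ (small_num m hm)
    have h := hp5 (m - 1) (by omega)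
    rw [show m - 1 + 1 = m from by omega] at h
    have h2 : (m - 1) * p m ≤ (m + 15) * m := by
      apply Nat.mul_le_mul <;> omega
    have h3 : (m + 15) * p (m - 1) ≤ (m + 15) * (m + 2 ^ (m - 1) * (m + 16)) := by
      rw [mul_add]
      omega
    exact Nat.le_of_mul_le_mul_left h3 (by omega)
  -- level `m - 1`
  have ht1 := top_m1 m (by omega)
  have hv3 := hv1 (m - 1) (by omega) (by omega)
  have hv4 := hv2 (m - 1) (by omega) (by omega)
  have hbn := beta_num m hm
  obtain ⟨r, hr1, hr2, hr3, hr4⟩ := fill (m - 1) (m + 15) (by omega) (m - 2) (by omega)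
    (v (m - 1) - ((top m).coeff (m - 1) + p (m - 1))) (by omega)
  have htop := top_m m (by omega)
  have hvm := hv1 m (by omega) le_rfl
  refine ⟨fun i => ((top m).coeff i + p i) + r i, ((top_rp m).rf.add hp1).add hr1, ?_, ?_, ?_⟩
  · intro i h1 h2
    simp only
    have : i = m - 1 ∨ i = m := by omega
    rcases this with rfl | rfl
    · rw [hr2]
      omega
    · rw [hr3 i (by omega), hp2, htop]
      omega
  · intro i hi
    simp only
    rw [top_gt m i (by omega) hi, hp3 i hi, hr3 i (by omega)]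
  · intro i h1 h2
    obtain ⟨s, hs⟩ : ∃ s, m - 2 + 1 - i = s := ⟨_, rfl⟩
    have hs1 : 1 ≤ s := by omega
    have his : i + s = m - 1 := by omega
    rw [hs]
    have g1 : (2 : ℝ) * (top m).coeff i ≤ (top m).coeff (i + 1) := by
      exact_mod_cast top_step m i h1 (by omega)
    have g2 : ((m : ℝ) + 15) * p i ≤ (m - 1) * p (i + 1) + (m + 15) * (2 ^ (m - 1) * (m + 16)) := by
      have h := hp5 i h1
      have h' : (((m + 15) * p i : ℕ) : ℝ) ≤
          (((m - 1) * p (i + 1) + (m + 15) * (2 ^ (m - 1) * (m + 16)) : ℕ) : ℝ) := by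
        exact_mod_cast h
      push_cast [Nat.cast_sub (show 1 ≤ m by omega)] at h'
      exact h'
    have g3 : ((m : ℝ) + 15) * r i ≤ (m - 1) * r (i + 1) + 2 ^ (s + 1) * ((m : ℝ) + 15) ^ (i + 1) := by
      have h := hr4 i
      have h' := err_sum (m - 1) (m + 15) (m - 2) i (by omega) (by omega) (by omega)
      have e1 : m - 1 - i + 1 = s + 1 := by omega
      rw [e1] at h'
      have h2 : (m - 1 - 1) * r (i + 1) ≤ (m - 1) * r (i + 1) :=
        Nat.mul_le_mul_right _ (by omega)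
      have h3 : (m + 15) * r i ≤ (m - 1) * r (i + 1) + 2 ^ (s + 1) * (m + 15) ^ (i + 1) :=
        h.trans (Nat.add_le_add h2 h')
      have h4 : (((m + 15) * r i : ℕ) : ℝ) ≤
          (((m - 1) * r (i + 1) + 2 ^ (s + 1) * (m + 15) ^ (i + 1) : ℕ) : ℝ) := by
        exact_mod_cast h3
      push_cast [Nat.cast_sub (show 1 ≤ m by omega)] at h4
      exact h4
    have hb0 : (0 : ℝ) < (m : ℝ) + 15 := by linarith
    have g2' : (p i : ℝ) ≤ ((m : ℝ) - 1) / (m + 15) * p (i + 1) + 2 ^ (m - 1) * (m + 16) := by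
      have : ((m : ℝ) + 15) * p i ≤
          (m + 15) * (((m : ℝ) - 1) / (m + 15) * p (i + 1) + 2 ^ (m - 1) * (m + 16)) := by
        refine g2.trans (le_of_eq ?_)
        field_simp
      exact le_of_mul_le_mul_left this hb0
    have g3' : (r i : ℝ) ≤ ((m : ℝ) - 1) / (m + 15) * r (i + 1) +
        2 ^ (s + 1) * ((m : ℝ) + 15) ^ i := by
      have : ((m : ℝ) + 15) * r i ≤
          (m + 15) * (((m : ℝ) - 1) / (m + 15) * r (i + 1) + 2 ^ (s + 1) * ((m : ℝ) + 15) ^ i) := by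
        refine g3.trans (le_of_eq ?_)
        rw [pow_succ ((m : ℝ) + 15) i]
        field_simp
      exact le_of_mul_le_mul_left this hb0
    have g1' : ((top m).coeff i : ℝ) ≤ ((m : ℝ) - 1) / (m + 15) * (top m).coeff (i + 1) := by
      have e1 : (1 : ℝ) / 2 ≤ ((m : ℝ) - 1) / (m + 15) := by
        rw [div_le_div_iff₀ (by norm_num) hb0]
        linarith
      have e2 : (0 : ℝ) ≤ (top m).coeff (i + 1) := Nat.cast_nonneg _
      calc ((top m).coeff i : ℝ) ≤ 1 / 2 * (top m).coeff (i + 1) := by linarith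
        _ ≤ _ := mul_le_mul_of_nonneg_right e1 e2
    -- the error term
    have g4 : (2 : ℝ) ^ (m - 1) * (m + 16) + 2 ^ (s + 1) * ((m : ℝ) + 15) ^ i ≤
        ((m : ℝ) ^ m + (m : ℝ) ^ (m - 1) + m) * (12 / m) ^ s / (1 - 12 / m) := by
      have h := init_num m i s hm h1 hs1 his
      have h' : ((2 ^ (m - 1) * (m + 16) + 2 ^ (s + 1) * (m + 15) ^ i : ℕ) : ℝ) ≤
          ((12 ^ s * m ^ (i + 1) : ℕ) : ℝ) := by exact_mod_cast h
      push_cast at h'
      refine h'.trans ?_
      have hη1 : (12 : ℝ) / m < 1 := by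
        rw [div_lt_one hm0]; linarith
      have hη0 : (0 : ℝ) < 12 / m := by positivity
      rw [le_div_iff₀ (by linarith)]
      have e1 : (12 : ℝ) ^ s * (m : ℝ) ^ (i + 1) = (m : ℝ) ^ m * (12 / m) ^ s := by
        have hpow : (m : ℝ) ^ m = (m : ℝ) ^ (i + 1) * (m : ℝ) ^ s := by
          rw [← pow_add]
          congr 1
          omega
        rw [hpow, div_pow]
        field_simp
      calc (12 : ℝ) ^ s * (m : ℝ) ^ (i + 1) * (1 - 12 / m)
          ≤ (12 : ℝ) ^ s * (m : ℝ) ^ (i + 1) * 1 := by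
            gcongr
            linarith
        _ = (m : ℝ) ^ m * (12 / m) ^ s := by rw [mul_one, e1]
        _ ≤ ((m : ℝ) ^ m + (m : ℝ) ^ (m - 1) + m) * (12 / m) ^ s := by
            gcongr
            have : (0 : ℝ) ≤ (m : ℝ) ^ (m - 1) := by positivity
            linarith
    push_cast
    calc ((top m).coeff i : ℝ) + p i + r i
        ≤ ((m : ℝ) - 1) / (m + 15) * (top m).coeff (i + 1) +
          (((m : ℝ) - 1) / (m + 15) * p (i + 1) + 2 ^ (m - 1) * (m + 16)) +
          (((m : ℝ) - 1) / (m + 15) * r (i + 1) + 2 ^ (s + 1) * ((m : ℝ) + 15) ^ i) := by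
            linarith
      _ = ((m : ℝ) - 1) / (m + 15) * ((top m).coeff (i + 1) + p (i + 1) + r (i + 1)) +
          (2 ^ (m - 1) * (m + 16) + 2 ^ (s + 1) * ((m : ℝ) + 15) ^ i) := by ring
      _ ≤ _ := by linarith

/-- Every vector with entries in `[Y, Y + m)`, `Y = m ^ m + m ^ (m - 1)`, is realized. -/
theorem realize (m : ℕ) (hm : 10 ^ 7 ≤ m) (v : ℕ → ℕ)
    (hv1 : ∀ i, 1 ≤ i → i ≤ m → m ^ m + m ^ (m - 1) ≤ v i)
    (hv2 : ∀ i, 1 ≤ i → i ≤ m → v i < m ^ m + m ^ (m - 1) + m) :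
    ∃ (V : Type) (_ : Fintype V) (G : SimpleGraph V),
      (∀ k, 1 ≤ k → k ≤ m → indepCount G k = v k) ∧ ∀ k, m < k → indepCount G k = 0 := by
  have key : ∀ d, d + 2 ≤ m → Stage m (m - 2 - d) v := by
    intro d
    induction d with
    | zero => intro _; exact stage_init m hm v hv1 hv2
    | succ d ih =>
      intro hd
      have h := ih (by omega)
      rw [show m - 2 - d = (m - 2 - (d + 1)) + 1 from by omega] at h
      exact stage_step m _ hm (by omega) v hv1 hv2 h
  have h7 : 10 ^ 7 = 10000000 := by norm_num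
  have h := key (m - 2) (by omega)
  rw [Nat.sub_self] at h
  obtain ⟨u, ⟨V, _, G, hG⟩, hu2, hu3, -⟩ := h
  refine ⟨V, inferInstance, G, ?_, ?_⟩
  · intro k h1 h2
    rw [hG k h1, hu2 k h1 h2]
  · intro k hk
    rw [hG k (by omega), hu3 k hk]

theorem indepCount_one {V : Type} [Fintype V] (G : SimpleGraph V) :
    indepCount G 1 = Fintype.card V := by
  classical
  unfold indepCount
  have : (Finset.univ : Finset (Finset V)).filter (fun s => s.card = 1 ∧ Ind G s) =
      (Finset.univ : Finset V).map ⟨fun x => {x}, Finset.singleton_injective⟩ := by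
    ext s
    simp only [Finset.mem_filter, Finset.mem_univ, true_and, Finset.mem_map,
      Function.Embedding.coeFn_mk]
    constructor
    · rintro ⟨h, -⟩
      obtain ⟨x, rfl⟩ := Finset.card_eq_one.mp h
      exact ⟨x, rfl⟩
    · rintro ⟨x, rfl⟩
      refine ⟨Finset.card_singleton x, ?_⟩
      intro a ha b hb
      rw [Finset.mem_singleton] at ha hb
      subst ha hb
      exact G.irrefl
  convert Finset.card_map (s := (Finset.univ : Finset V))
    ⟨fun x => ({x} : Finset V), Finset.singleton_injective⟩ using 2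
  exact Finset.card_univ.symm

end Pool.Agent.R10.IndepSeq
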