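import Pool.Agent.R10.IndepFill

/-!
# Realizing all vectors close to the constant vector `m ^ m + m ^ (m - 1)`
-/

namespace Pool.Agent.R10.IndepSeq

open Polynomial Finset

/-- `(n + a) ^ i ≤ 3 ^ a * n ^ i` for `i ≤ n`. -/
theorem expo (a n i : ℕ) (hi : i ≤ n) (hn : 1 ≤ n) : (n + a) ^ i ≤ 3 ^ a * n ^ i := by
  have hn' : (0 : ℝ) < n := by exact_mod_cast hn
  have h1 : ((n : ℝ) + a) = n * (1 + a / n) := by field_simp
  have h2 : (1 + (a : ℝ) / n) ≤ Real.exp (a / n) := by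
    have := Real.add_one_le_exp ((a : ℝ) / n)
    linarith
  have h3 : (1 + (a : ℝ) / n) ^ i ≤ 3 ^ a := by
    calc (1 + (a : ℝ) / n) ^ i ≤ (Real.exp (a / n)) ^ i :=
          pow_le_pow_left₀ (by positivity) h2 i
      _ = Real.exp (i * (a / n)) := by rw [← Real.exp_nat_mul]
      _ ≤ Real.exp (a * 1) := by
          apply Real.exp_le_exp.mpr
          have : (i : ℝ) / n ≤ 1 := by
            rw [div_le_one hn']
            exact_mod_cast hi
          calc (i : ℝ) * (a / n) = a * (i / n) := by ring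
            _ ≤ a * 1 := by gcongr
      _ = (Real.exp 1) ^ a := by rw [← Real.exp_nat_mul]
      _ ≤ 3 ^ a := by
          apply pow_le_pow_left₀ (Real.exp_pos 1).le
          have := Real.exp_one_lt_d9
          linarith
  have h4 : ((n : ℝ) + a) ^ i ≤ 3 ^ a * (n : ℝ) ^ i := by
    rw [h1, mul_pow, mul_comm]
    gcongr
  exact_mod_cast h4

/-- the top piece -/
noncomputable def top (m : ℕ) : ℕ[X] := (1 + C m * X) ^ (m - 1) * (1 + C (m + 1) * X)

theorem top_rp (m : ℕ) : Rp (top m) := by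
  unfold top
  have := (Rp.one.mul_pow m (m - 1)).mul (m + 1)
  simpa using this

theorem top_coeff (m i : ℕ) (hm : 1 ≤ m) :
    (top m).coeff (i + 1) = m.choose (i + 1) * m ^ (i + 1) + (m - 1).choose i * m ^ i := by
  have h : top m = (1 + C m * X) ^ m + (1 + C m * X) ^ (m - 1) * X := by
    unfold top
    obtain ⟨k, rfl⟩ : ∃ k, m = k + 1 := ⟨m - 1, by omega⟩
    have hC : (C (k + 1 + 1) : ℕ[X]) = C (k + 1) + 1 := by rw [← C_1, ← C_add]
    rw [hC, show k + 1 - 1 = k from by omega]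
    generalize (C (k + 1) : ℕ[X]) = c
    ring
  rw [h, coeff_add, coeff_mul_X, coeff_pow_lin, coeff_pow_lin]

theorem top_m (m : ℕ) (hm : 1 ≤ m) : (top m).coeff m = m ^ m + m ^ (m - 1) := by
  obtain ⟨k, rfl⟩ : ∃ k, m = k + 1 := ⟨m - 1, by omega⟩
  rw [top_coeff _ _ hm]
  simp

theorem top_m1 (m : ℕ) (hm : 3 ≤ m) :
    (top m).coeff (m - 1) + m ^ (m - 2) = m ^ m + m ^ (m - 1) := by
  obtain ⟨k, rfl⟩ : ∃ k, m = k + 2 := ⟨m - 2, by omega⟩
  have h1 : k + 2 - 1 = k + 1 := by omega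
  have h2 : k + 2 - 2 = k := by omega
  rw [h1, h2, top_coeff _ _ (by omega)]
  have h3 : (k + 2).choose (k + 1) = k + 2 := by
    rw [show k + 2 = (k + 1) + 1 from rfl, Nat.choose_succ_self_right]
  have h4 : (k + 2 - 1).choose k = k + 1 := by
    rw [h1, Nat.choose_succ_self_right]
  rw [h3, h4]
  ring

theorem top_gt (m i : ℕ) (hm : 1 ≤ m) (hi : m < i) : (top m).coeff i = 0 := by
  obtain ⟨k, rfl⟩ : ∃ k, i = k + 1 := ⟨i - 1, by omega⟩
  rw [top_coeff _ _ hm, Nat.choose_eq_zero_of_lt hi, Nat.choose_eq_zero_of_lt (by omega)]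
  simp

theorem top_step (m i : ℕ) (h1 : 1 ≤ i) (hi : i + 2 ≤ m) :
    2 * (top m).coeff i ≤ (top m).coeff (i + 1) := by
  obtain ⟨k, rfl⟩ : ∃ k, i = k + 1 := ⟨i - 1, by omega⟩
  rw [top_coeff _ _ (by omega), top_coeff _ _ (by omega)]
  -- first part
  have e1 := Nat.choose_succ_right_eq m (k + 1)
  have e2 := Nat.choose_succ_right_eq (m - 1) k
  have a1 : 2 * m.choose (k + 1) ≤ m.choose (k + 1 + 1) * m := by
    have : m.choose (k + 1) * 2 ≤ m.choose (k + 1) * (m - (k + 1)) :=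
      Nat.mul_le_mul_left _ (by omega)
    have h3 : m.choose (k + 1 + 1) * (k + 1 + 1) ≤ m.choose (k + 1 + 1) * m :=
      Nat.mul_le_mul_left _ (by omega)
    omega
  have a2 : 2 * (m - 1).choose k ≤ (m - 1).choose (k + 1) * m := by
    have : (m - 1).choose k * 2 ≤ (m - 1).choose k * (m - 1 - k) :=
      Nat.mul_le_mul_left _ (by omega)
    have h3 : (m - 1).choose (k + 1) * (k + 1) ≤ (m - 1).choose (k + 1) * m :=
      Nat.mul_le_mul_left _ (by omega)
    omega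
  have b1 := Nat.mul_le_mul_right (m ^ (k + 1)) a1
  have b2 := Nat.mul_le_mul_right (m ^ k) a2
  have c1 : m.choose (k + 1 + 1) * m ^ (k + 1 + 1) = m.choose (k + 1 + 1) * m * m ^ (k + 1) := by
    ring
  have c2 : (m - 1).choose (k + 1) * m ^ (k + 1) = (m - 1).choose (k + 1) * m * m ^ k := by
    ring
  rw [c1, c2]
  calc 2 * (m.choose (k + 1) * m ^ (k + 1) + (m - 1).choose k * m ^ k)
      = 2 * m.choose (k + 1) * m ^ (k + 1) + 2 * (m - 1).choose k * m ^ k := by ring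
    _ ≤ _ := Nat.add_le_add b1 b2

/-- the state of the construction after the levels above `k` have been filled -/
def Stage (m k : ℕ) (v : ℕ → ℕ) : Prop :=
  ∃ u : ℕ → ℕ, Rf u ∧ (∀ i, k < i → i ≤ m → u i = v i) ∧ (∀ i, m < i → u i = 0) ∧
    ∀ i, 1 ≤ i → i ≤ k → (u i : ℝ) ≤ ((m : ℝ) - 1) / (m + 15) * u (i + 1) +
      ((m : ℝ) ^ m + (m : ℝ) ^ (m - 1) + m) * (12 / m) ^ (k + 1 - i) / (1 - 12 / m)

theorem stage_step (m k : ℕ) (hm : 10 ^ 7 ≤ m) (hk : k + 1 + 2 ≤ m) (v : ℕ → ℕ)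
    (hv1 : ∀ i, 1 ≤ i → i ≤ m → m ^ m + m ^ (m - 1) ≤ v i)
    (hv2 : ∀ i, 1 ≤ i → i ≤ m → v i < m ^ m + m ^ (m - 1) + m)
    (h : Stage m (k + 1) v) : Stage m k v := by
  obtain ⟨u, hu1, hu2, hu3, hu4⟩ := h
  have hmR : (10 : ℝ) ^ 7 ≤ m := by exact_mod_cast hm
  have hm0 : (0 : ℝ) < m := by linarith [show (0 : ℝ) < 10 ^ 7 by norm_num]
  have hm7 : (10000000 : ℝ) ≤ m := by linarith [show (10 : ℝ) ^ 7 = 10000000 by norm_num]
  set Z : ℝ := (m : ℝ) ^ m + (m : ℝ) ^ (m - 1) + m with hZ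
  set η : ℝ := 12 / m with hη
  have hη0 : 0 < η := by positivity
  have hη1 : η < 1 := by
    rw [hη, div_lt_one hm0]; linarith
  have hZ0 : 0 < Z := by positivity
  -- the value at level `k + 1`
  have hk1 : (u (k + 1) : ℝ) ≤ (m : ℝ) ^ m + (m : ℝ) ^ (m - 1) := by
    have h1 := hu4 (k + 1) (by omega) le_rfl
    rw [show k + 1 + 1 - (k + 1) = 1 from by omega, pow_one] at h1
    have h2 : (u (k + 1 + 1) : ℝ) ≤ Z := by
      rw [hu2 (k + 1 + 1) (by omega) (by omega)]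
      have := hv2 (k + 1 + 1) (by omega) (by omega)
      have h3 : ((v (k + 1 + 1) : ℕ) : ℝ) < ((m ^ m + m ^ (m - 1) + m : ℕ) : ℝ) := by
        exact_mod_cast this
      push_cast at h3
      exact h3.le
    have h3 : Z * η / (1 - η) = Z * (12 / (m - 12)) := by
      rw [hη]
      have : (m : ℝ) - 12 ≠ 0 := by linarith
      have : (1 : ℝ) - 12 / m ≠ 0 := by
        rw [← hη]; linarith
      field_simp
    rw [h3] at h1
    have h4 : ((m : ℝ) - 1) / (m + 15) * u (k + 1 + 1) ≤ ((m : ℝ) - 1) / (m + 15) * Z := by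
      apply mul_le_mul_of_nonneg_left h2
      apply div_nonneg <;> linarith
    have h5 : ((m : ℝ) - 1) / (m + 15) + 12 / (m - 12) ≤ 1 - 2 / m := by
      have e1 : (0 : ℝ) < m + 15 := by linarith
      have e2 : (0 : ℝ) < m - 12 := by linarith
      rw [div_add_div _ _ e1.ne' e2.ne', one_sub_div hm0.ne', div_le_div_iff₀ (by positivity) hm0]
      nlinarith
    have h6 : (u (k + 1) : ℝ) ≤ (1 - 2 / m) * Z := by
      calc (u (k + 1) : ℝ) ≤ ((m : ℝ) - 1) / (m + 15) * Z + Z * (12 / (m - 12)) := by linarith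
        _ = (((m : ℝ) - 1) / (m + 15) + 12 / (m - 12)) * Z := by ring
        _ ≤ (1 - 2 / m) * Z := by gcongr
    have h7 : (m : ℝ) ≤ 2 / m * Z := by
      rw [div_mul_eq_mul_div, le_div_iff₀ hm0]
      have : (m : ℝ) * m ≤ Z := by
        have e3 : (m : ℝ) ^ 2 ≤ (m : ℝ) ^ m := by
          apply pow_le_pow_right₀ (by linarith)
          have : 2 ≤ m := by
            have : 10 ^ 7 ≤ m := hm
            omega
          exact this
        have e4 : (0 : ℝ) ≤ (m : ℝ) ^ (m - 1) := by positivity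
        rw [hZ]
        nlinarith
      nlinarith
    have h8 : (1 - 2 / m) * Z = Z - 2 / m * Z := by ring
    rw [h8] at h6
    rw [hZ] at h6 h7
    linarith
  have hk2 : u (k + 1) ≤ m ^ m + m ^ (m - 1) := by exact_mod_cast hk1
  have hk3 : u (k + 1) ≤ v (k + 1) := hk2.trans (hv1 _ (by omega) (by omega))
  -- the base
  have hex : ∃ b : ℕ, m ^ m + m ^ (m - 1) + m < b ^ (k + 1) := by
    refine ⟨m ^ m + m ^ (m - 1) + m + 1, ?_⟩
    calc m ^ m + m ^ (m - 1) + m < (m ^ m + m ^ (m - 1) + m + 1) ^ 1 := by rw [pow_one]; omega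
      _ ≤ (m ^ m + m ^ (m - 1) + m + 1) ^ (k + 1) := Nat.pow_le_pow_right (by omega) (by omega)
  classical
  set b := Nat.find hex with hb
  have hb1 : m ^ m + m ^ (m - 1) + m < b ^ (k + 1) := Nat.find_spec hex
  have hbm : m + 13 ≤ b := by
    by_contra hlt
    push Not at hlt
    have e1 : b ^ (k + 1) ≤ (m + 12) ^ (m - 2) := by
      calc b ^ (k + 1) ≤ (m + 12) ^ (k + 1) := Nat.pow_le_pow_left (by omega) _
        _ ≤ _ := Nat.pow_le_pow_right (by omega) (by omega)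
    have e2 : (m + 12) ^ (m - 2) * m ^ 2 ≤ m ^ m * m ^ 2 := by
      calc (m + 12) ^ (m - 2) * m ^ 2 ≤ (m + 12) ^ (m - 2) * (m + 12) ^ 2 :=
            Nat.mul_le_mul_left _ (Nat.pow_le_pow_left (by omega) _)
        _ = (m + 12) ^ m := by
            rw [← pow_add]
            congr 1
            omega
        _ ≤ 3 ^ 12 * m ^ m := expo 12 m m le_rfl (by omega)
        _ = m ^ m * 3 ^ 12 := mul_comm _ _
        _ ≤ m ^ m * m ^ 2 := by
            apply Nat.mul_le_mul_left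
            calc 3 ^ 12 ≤ (10 ^ 7) ^ 2 := by norm_num
              _ ≤ m ^ 2 := Nat.pow_le_pow_left hm 2
    have e3 : (m + 12) ^ (m - 2) ≤ m ^ m := Nat.le_of_mul_le_mul_right e2 (by positivity)
    have : 0 ≤ m ^ (m - 1) := Nat.zero_le _
    omega
  have hb2 : (b - 1) ^ (k + 1) ≤ m ^ m + m ^ (m - 1) + m := by
    have := Nat.find_min hex (m := b - 1) (by omega)
    exact not_lt.mp this
  have hb3 : b ^ (k + 1) ≤ 3 * (m ^ m + m ^ (m - 1) + m) := by
    have e1 := expo 1 (b - 1) (k + 1) (by omega) (by omega)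
    rw [show b - 1 + 1 = b from by omega] at e1
    calc b ^ (k + 1) ≤ 3 ^ 1 * (b - 1) ^ (k + 1) := e1
      _ ≤ 3 * (m ^ m + m ^ (m - 1) + m) := by
          rw [pow_one]
          exact Nat.mul_le_mul_left _ hb2
  have hb3R : (b : ℝ) ^ (k + 1) ≤ 3 * Z := by
    have : ((b ^ (k + 1) : ℕ) : ℝ) ≤ ((3 * (m ^ m + m ^ (m - 1) + m) : ℕ) : ℝ) := by
      exact_mod_cast hb3
    push_cast at this
    rw [hZ]
    linarith
  have hbR : (m : ℝ) + 13 ≤ b := by exact_mod_cast hbm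
  have hb0 : (0 : ℝ) < b := by linarith
  obtain ⟨p, hp1, hp2, hp3, hp4⟩ := fill (k + 1) b (by omega) (k + 1) le_rfl
    (v (k + 1) - u (k + 1)) (by
      have := hv2 (k + 1) (by omega) (by omega)
      omega)
  refine ⟨fun i => u i + p i, hu1.add hp1, ?_, ?_, ?_⟩
  · intro i h1 h2
    simp only
    by_cases hi : i = k + 1
    · subst hi
      rw [hp2]
      omega
    · rw [hu2 i (by omega) h2, hp3 i (by omega)]
      rfl
  · intro i hi
    simp only
    rw [hu3 i hi, hp3 i (by omega)]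
  · intro i h1 h2
    have g1 := hu4 i h1 (by omega)
    have g2 := hp4 i
    have g3 := err_sum (k + 1) b (k + 1) i (by omega) le_rfl (by omega)
    have g4 : b * p i ≤ k * p (i + 1) + 2 ^ (k + 1 - i + 1) * b ^ (i + 1) :=
      g2.trans (Nat.add_le_add_left g3 _)
    have g5 : (b : ℝ) * p i ≤ k * p (i + 1) + 2 ^ (k + 1 - i + 1) * (b : ℝ) ^ (i + 1) := by
      exact_mod_cast g4
    obtain ⟨s, hs⟩ : ∃ s, k + 1 - i = s + 1 := ⟨k - i, by omega⟩
    have hks : k + 1 = i + (s + 1) := by omega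
    have g6 : (p i : ℝ) ≤ ((m : ℝ) - 1) / (m + 15) * p (i + 1) + Z * η ^ (s + 1) := by
      have e1 : (p i : ℝ) ≤ (k : ℝ) / b * p (i + 1) + 2 ^ (s + 2) * (b : ℝ) ^ i := by
        rw [hs] at g5
        have : (b : ℝ) * p i ≤ b * ((k : ℝ) / b * p (i + 1) + 2 ^ (s + 2) * (b : ℝ) ^ i) := by
          calc (b : ℝ) * p i ≤ k * p (i + 1) + 2 ^ (s + 1 + 1) * (b : ℝ) ^ (i + 1) := g5
            _ = _ := by
              rw [pow_succ (b : ℝ) i]
              field_simp
        exact le_of_mul_le_mul_left this hb0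
      have e2 : (k : ℝ) / b ≤ ((m : ℝ) - 1) / (m + 15) := by
        rw [div_le_div_iff₀ hb0 (by linarith)]
        have hkR : (k : ℝ) ≤ m - 3 := by
          have : ((k + 1 + 2 : ℕ) : ℝ) ≤ m := by exact_mod_cast hk
          push_cast at this
          linarith
        have hk0 : (0 : ℝ) ≤ k := Nat.cast_nonneg k
        nlinarith
      have e3 : 2 ^ (s + 2) * (b : ℝ) ^ i ≤ Z * η ^ (s + 1) := by
        have f1 : (b : ℝ) ^ i * (m : ℝ) ^ (s + 1) ≤ 3 * Z := by
          calc (b : ℝ) ^ i * (m : ℝ) ^ (s + 1) ≤ (b : ℝ) ^ i * (b : ℝ) ^ (s + 1) := by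
                gcongr
                linarith
            _ = (b : ℝ) ^ (k + 1) := by rw [← pow_add, hks]
            _ ≤ 3 * Z := hb3R
        have f2 : η ^ (s + 1) = 12 ^ (s + 1) / (m : ℝ) ^ (s + 1) := by
          rw [hη, div_pow]
        rw [f2, ← mul_div_assoc, le_div_iff₀ (by positivity)]
        have f3 : (2 : ℝ) ^ (s + 2) * 3 ≤ 12 ^ (s + 1) := by
          have f4 : (2 : ℝ) ^ s ≤ 12 ^ s := pow_le_pow_left₀ (by norm_num) (by norm_num) s
          rw [pow_add, pow_succ (12 : ℝ) s]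
          nlinarith
        calc 2 ^ (s + 2) * (b : ℝ) ^ i * (m : ℝ) ^ (s + 1)
            = 2 ^ (s + 2) * ((b : ℝ) ^ i * (m : ℝ) ^ (s + 1)) := by ring
          _ ≤ 2 ^ (s + 2) * (3 * Z) := by gcongr
          _ = (2 ^ (s + 2) * 3) * Z := by ring
          _ ≤ 12 ^ (s + 1) * Z := by gcongr
          _ = Z * 12 ^ (s + 1) := mul_comm _ _
      have e4 : (k : ℝ) / b * p (i + 1) ≤ ((m : ℝ) - 1) / (m + 15) * p (i + 1) := by
        gcongr
      linarith
    rw [hs]
    rw [show k + 1 + 1 - i = s + 2 from by omega] at g1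
    push_cast
    have g7 : Z * η ^ (s + 2) / (1 - η) + Z * η ^ (s + 1) = Z * η ^ (s + 1) / (1 - η) := by
      have : 1 - η ≠ 0 := by linarith
      field_simp
      ring
    rw [← g7, mul_add]
    linarith

end Pool.Agent.R10.IndepSeq
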