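import Mathlib

/-!
# Independent set sequences: joins, unions with cliques
-/

namespace Pool.Agent.R10.IndepSeq

open Polynomial Finset

/-- `s` is an independent set of `G`. -/
def Ind {V : Type} (G : SimpleGraph V) (s : Finset V) : Prop :=
  ∀ x ∈ s, ∀ y ∈ s, ¬ G.Adj x y

open scoped Classical in
/-- the number `i_k(G)` of independent sets of `G` with exactly `k` vertices -/
noncomputable def indepCount {V : Type} [Fintype V] (G : SimpleGraph V) (k : ℕ) : ℕ :=
  ((Finset.univ : Finset (Finset V)).filter (fun s => s.card = k ∧ Ind G s)).card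

open scoped Classical in
/-- independence polynomial -/
noncomputable def ip {V : Type} [Fintype V] (G : SimpleGraph V) : ℕ[X] :=
  ∑ s : Finset V, if Ind G s then X ^ s.card else 0

theorem coeff_ip {V : Type} [Fintype V] (G : SimpleGraph V) (k : ℕ) :
    (ip G).coeff k = indepCount G k := by
  classical
  unfold ip indepCount
  rw [finset_sum_coeff, Finset.card_filter]
  apply Finset.sum_congr rfl
  intro s _
  by_cases h1 : Ind G s
  · by_cases h2 : s.card = k
    · simp [h1, h2]
    · simp [h1, h2, coeff_X_pow, Ne.symm h2]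
  · simp [h1]

/-- disjoint union with a clique on `a` vertices -/
def du {V : Type} (G : SimpleGraph V) (a : ℕ) : SimpleGraph (V ⊕ Fin a) where
  Adj x y := match x, y with
    | Sum.inl u, Sum.inl v => G.Adj u v
    | Sum.inr i, Sum.inr j => i ≠ j
    | _, _ => False
  symm := ⟨by
    rintro (u | u) (v | v) h
    · exact SimpleGraph.Adj.symm h
    · exact h
    · exact h
    · exact Ne.symm h⟩
  loopless := ⟨by
    rintro (u | u) h
    · exact G.loopless.irrefl u h
    · exact h rfl⟩

/-- join of two graphs -/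
def jn {V W : Type} (G : SimpleGraph V) (H : SimpleGraph W) : SimpleGraph (V ⊕ W) where
  Adj x y := match x, y with
    | Sum.inl u, Sum.inl v => G.Adj u v
    | Sum.inr i, Sum.inr j => H.Adj i j
    | _, _ => True
  symm := ⟨by
    rintro (u | u) (v | v) h
    · exact SimpleGraph.Adj.symm h
    · trivial
    · trivial
    · exact SimpleGraph.Adj.symm h⟩
  loopless := ⟨by
    rintro (u | u) h
    · exact G.loopless.irrefl u h
    · exact H.loopless.irrefl u h⟩

theorem ind_du {V : Type} [DecidableEq V] (G : SimpleGraph V) (a : ℕ) (s : Finset V)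
    (t : Finset (Fin a)) :
    Ind (du G a) (s.disjSum t) ↔ Ind G s ∧ t.card ≤ 1 := by
  unfold Ind
  constructor
  · intro h
    refine ⟨fun x hx y hy => ?_, ?_⟩
    · exact h (Sum.inl x) (by simp [hx]) (Sum.inl y) (by simp [hy])
    · rw [Finset.card_le_one]
      intro x hx y hy
      by_contra hne
      exact h (Sum.inr x) (by simp [hx]) (Sum.inr y) (by simp [hy]) hne
  · rintro ⟨h1, h2⟩ x hx y hy
    rw [Finset.card_le_one] at h2
    rcases x with x | x <;> rcases y with y | y
    · exact h1 x (by simpa using hx) y (by simpa using hy)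
    · intro h; exact h
    · intro h; exact h
    · intro h
      exact h (h2 x (by simpa using hx) y (by simpa using hy))

theorem ind_jn {V W : Type} [DecidableEq V] [DecidableEq W] (G : SimpleGraph V)
    (H : SimpleGraph W) (s : Finset V) (t : Finset W) :
    Ind (jn G H) (s.disjSum t) ↔ (Ind G s ∧ t = ∅) ∨ (s = ∅ ∧ Ind H t) := by
  unfold Ind
  constructor
  · intro h
    have hs : ∀ x ∈ s, ∀ y ∈ s, ¬ G.Adj x y := fun x hx y hy =>
      h (Sum.inl x) (by simp [hx]) (Sum.inl y) (by simp [hy])
    have ht : ∀ x ∈ t, ∀ y ∈ t, ¬ H.Adj x y := fun x hx y hy =>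
      h (Sum.inr x) (by simp [hx]) (Sum.inr y) (by simp [hy])
    rcases t.eq_empty_or_nonempty with ht0 | ⟨y, hy⟩
    · exact Or.inl ⟨hs, ht0⟩
    · right
      refine ⟨?_, ht⟩
      rcases s.eq_empty_or_nonempty with hs0 | ⟨x, hx⟩
      · exact hs0
      · exact absurd trivial (h (Sum.inl x) (by simp [hx]) (Sum.inr y) (by simp [hy]))
  · rintro (⟨h1, rfl⟩ | ⟨rfl, h2⟩) x hx y hy
    · rcases x with x | x <;> rcases y with y | y
      · exact h1 x (by simpa using hx) y (by simpa using hy)
      · simp at hy
      · simp at hx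
      · simp at hx
    · rcases x with x | x <;> rcases y with y | y
      · simp at hx
      · simp at hx
      · simp at hy
      · exact h2 x (by simpa using hx) y (by simpa using hy)

theorem sum_disj {V W : Type} [Fintype V] [Fintype W] [DecidableEq V] [DecidableEq W]
    (f : Finset (V ⊕ W) → ℕ[X]) :
    ∑ s : Finset (V ⊕ W), f s = ∑ s : Finset V, ∑ t : Finset W, f (s.disjSum t) := by
  rw [← Fintype.sum_prod_type' (f := fun s t => f (Finset.disjSum s t))]
  refine (Fintype.sum_equiv (Finset.sumEquiv (α := V) (β := W)).toEquiv.symm _ _ ?_).symm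
  intro x
  rfl

theorem ip_du {V : Type} [Fintype V] (G : SimpleGraph V) (a : ℕ) :
    ip (du G a) = ip G * (1 + C a * X) := by
  classical
  unfold ip
  rw [sum_disj, Finset.sum_mul]
  apply Finset.sum_congr rfl
  intro s _
  have h1 : ∀ t : Finset (Fin a), (if Ind (du G a) (s.disjSum t) then
      (X : ℕ[X]) ^ (s.disjSum t).card else 0) =
      (if Ind G s then X ^ s.card else 0) * (if t.card ≤ 1 then X ^ t.card else 0) := by
    intro t
    by_cases h1 : Ind G s <;> by_cases h2 : t.card ≤ 1 <;>
      simp [ind_du, h1, h2, Finset.card_disjSum, pow_add]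
  simp_rw [h1]
  rw [← Finset.mul_sum]
  congr 1
  have h2 := Finset.sum_powerset_apply_card (x := (Finset.univ : Finset (Fin a)))
    (fun k => if k ≤ 1 then (X : ℕ[X]) ^ k else 0)
  rw [Finset.powerset_univ] at h2
  rw [h2]
  simp only [Finset.card_univ, Fintype.card_fin]
  rcases a with _ | a
  · simp
  · rw [Finset.sum_range_succ', Finset.sum_range_succ']
    have h3 : ∑ k ∈ Finset.range a, (a + 1).choose (k + 1 + 1) •
        (if k + 1 + 1 ≤ 1 then (X : ℕ[X]) ^ (k + 1 + 1) else 0) = 0 := by
      apply Finset.sum_eq_zero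
      intro k _
      simp
    rw [h3]
    simp [add_comm]

theorem ip_jn {V W : Type} [Fintype V] [Fintype W] (G : SimpleGraph V) (H : SimpleGraph W) :
    ip (jn G H) + 1 = ip G + ip H := by
  classical
  unfold ip
  rw [sum_disj]
  have h0 : (Finset.univ : Finset (Finset V)) = insert ∅ (Finset.univ.erase ∅) := by
    rw [Finset.insert_erase (Finset.mem_univ _)]
  have h0' : (Finset.univ : Finset (Finset W)) = insert ∅ (Finset.univ.erase ∅) := by
    rw [Finset.insert_erase (Finset.mem_univ _)]
  have hG : Ind G (∅ : Finset V) := by intro x hx; simp at hx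
  have hH : Ind H (∅ : Finset W) := by intro x hx; simp at hx
  have hGs : ∑ s : Finset V, (if Ind G s then (X : ℕ[X]) ^ s.card else 0) =
      1 + ∑ s ∈ Finset.univ.erase (∅ : Finset V), (if Ind G s then (X : ℕ[X]) ^ s.card else 0) := by
    rw [← Finset.add_sum_erase _ _ (Finset.mem_univ (∅ : Finset V))]
    simp [hG]
  have h1 : ∑ t : Finset W, (if Ind (jn G H) ((∅ : Finset V).disjSum t) then
      (X : ℕ[X]) ^ ((∅ : Finset V).disjSum t).card else 0) =
      ∑ t : Finset W, (if Ind H t then (X : ℕ[X]) ^ t.card else 0) := by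
    apply Finset.sum_congr rfl
    intro t _
    have hc : ((∅ : Finset V).disjSum t).card = t.card := by
      rw [Finset.card_disjSum]; simp
    rw [hc]
    by_cases ht : Ind H t
    · have : Ind (jn G H) ((∅ : Finset V).disjSum t) := by
        rw [ind_jn]
        exact Or.inr ⟨rfl, ht⟩
      rw [if_pos this, if_pos ht]
    · have : ¬ Ind (jn G H) ((∅ : Finset V).disjSum t) := by
        rw [ind_jn]
        rintro (⟨-, rfl⟩ | ⟨-, h⟩)
        · exact ht hH
        · exact ht h
      rw [if_neg this, if_neg ht]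
  have h2 : ∀ s ∈ Finset.univ.erase (∅ : Finset V), ∑ t : Finset W,
      (if Ind (jn G H) (s.disjSum t) then (X : ℕ[X]) ^ (s.disjSum t).card else 0) =
      (if Ind G s then (X : ℕ[X]) ^ s.card else 0) := by
    intro s hs
    have hs' : s ≠ ∅ := (Finset.mem_erase.mp hs).1
    rw [Finset.sum_eq_single ∅]
    · have hc : (s.disjSum (∅ : Finset W)).card = s.card := by
        rw [Finset.card_disjSum]; simp
      rw [hc]
      by_cases h : Ind G s
      · have : Ind (jn G H) (s.disjSum (∅ : Finset W)) := by
          rw [ind_jn]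
          exact Or.inl ⟨h, rfl⟩
        rw [if_pos this, if_pos h]
      · have : ¬ Ind (jn G H) (s.disjSum (∅ : Finset W)) := by
          rw [ind_jn]
          rintro (⟨h', -⟩ | ⟨h', -⟩)
          · exact h h'
          · exact hs' h'
        rw [if_neg this, if_neg h]
    · intro t _ ht
      rw [if_neg]
      rw [ind_jn]
      rintro (⟨-, h⟩ | ⟨h, -⟩)
      · exact ht h
      · exact hs' h
    · intro h
      exact absurd (Finset.mem_univ _) h
  rw [← Finset.add_sum_erase _ _ (Finset.mem_univ (∅ : Finset V)), h1,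
    Finset.sum_congr rfl h2, hGs]
  ring

theorem ip_empty : ip (⊥ : SimpleGraph Empty) = 1 := by
  classical
  unfold ip
  rw [Fintype.sum_unique]
  have : Ind (⊥ : SimpleGraph Empty) default := by
    intro x hx
    exact x.elim
  rw [if_pos this]
  have h : (default : Finset Empty).card = 0 := by
    rw [Finset.card_eq_zero]
    exact Subsingleton.elim _ _
  rw [h, pow_zero]

/-- `f` restricted to `k ≥ 1` is the independence sequence of a finite graph. -/
def Rf (f : ℕ → ℕ) : Prop :=
  ∃ (V : Type) (_ : Fintype V) (G : SimpleGraph V), ∀ k, 1 ≤ k → indepCount G k = f k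

theorem Rf.zero : Rf 0 := by
  refine ⟨Empty, inferInstance, ⊥, ?_⟩
  intro k hk
  rw [← coeff_ip, ip_empty, coeff_one, if_neg (by omega)]
  rfl

theorem Rf.add {f g : ℕ → ℕ} (hf : Rf f) (hg : Rf g) : Rf (fun k => f k + g k) := by
  obtain ⟨V, _, G, hG⟩ := hf
  obtain ⟨W, _, H, hH⟩ := hg
  refine ⟨V ⊕ W, inferInstance, jn G H, ?_⟩
  intro k hk
  have h := congrArg (fun p => p.coeff k) (ip_jn G H)
  simp only [coeff_add, coeff_ip, coeff_one] at h
  rw [if_neg (by omega), hG k hk, hH k hk] at h
  simpa using h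

/-- the sequence of coefficients of `P` is realized by a graph with independence polynomial `P` -/
def Rp (P : ℕ[X]) : Prop := ∃ (V : Type) (_ : Fintype V) (G : SimpleGraph V), ip G = P

theorem Rp.one : Rp 1 := ⟨Empty, inferInstance, ⊥, ip_empty⟩

theorem Rp.mul {P : ℕ[X]} (h : Rp P) (a : ℕ) : Rp (P * (1 + C a * X)) := by
  obtain ⟨V, _, G, rfl⟩ := h
  exact ⟨V ⊕ Fin a, inferInstance, du G a, ip_du G a⟩

theorem Rp.mul_pow {P : ℕ[X]} (h : Rp P) (a t : ℕ) : Rp (P * (1 + C a * X) ^ t) := by
  induction t with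
  | zero => simpa using h
  | succ t ih =>
    rw [pow_succ, ← mul_assoc]
    exact ih.mul a

theorem Rp.rf {P : ℕ[X]} (h : Rp P) : Rf (fun k => P.coeff k) := by
  obtain ⟨V, _, G, rfl⟩ := h
  exact ⟨V, inferInstance, G, fun k _ => (coeff_ip G k).symm⟩

end Pool.Agent.R10.IndepSeq
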